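import Pool.Agent.Work.MP_a5099b_nt.I.ADefs

set_option autoImplicit false

/-!
# AExp (size M, Mathlib only): an L-series with a von Mangoldt function is an exponential

PROOF. `n = 1` in `hfg` gives `g 1 = 0`. Put `b n = g n / log n` (`b 1 = 0`; Lean: `x / 0 = 0`). `|b n| ≤ |g n| / log 2` for `n ≥ 2`, so `b` is summable for real `s > 1`. The
abscissas of absolute convergence of `f`, `g`, `b` are `≤ 1` (`LSeries.abscissaOfAbsConv_le_of_forall_lt_LSeriesSummable` and variants). By `LSeries_hasDerivAt` for real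
`s > 1` (composition with `Complex.ofReal`): `F(s) = LSeries f s` has derivative `- LSeries (logMul f) s`, and `logMul f n = log n * f n = (g ⍟ f) n` for `n ≥ 1` (`hfg`,
`LSeries.convolution_def`), so `F' = - Gs F` with `Gs = LSeries g` (`LSeries_convolution'`). `H(s) = LSeries b s` has derivative `- LSeries (logMul b) s = - Gs`
(`logMul b n = g n` for `n ≥ 1`). Hence `F exp(-H)` has derivative `0` on `(1, ∞)`, so it is constant there
(`IsOpen.is_const_of_deriv_eq_zero` or `constant_of_...` on the convex set `Set.Ioi 1`). Its limit at `∞` is `f 1 * exp(- b 1) = 1` (`LSeries.tendsto_atTop`). So `F = exp H`.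
-/

namespace Pool.Agent.Work.MP_a5099b_nt.PrF

open Finset

private theorem ls_mul (f g : ℕ → ℂ) (hf : ∀ s : ℝ, 1 < s → LSeriesSummable f s)
    (hg : ∀ s : ℝ, 1 < s → LSeriesSummable g s)
    (hfg : ∀ n : ℕ, 1 ≤ n → f n * (Real.log n : ℂ) = ∑ p ∈ n.divisorsAntidiagonal, g p.1 * f p.2)
    (s : ℝ) (hs : 1 < s) :
    LSeries (fun n => f n * (Real.log n : ℂ)) s = LSeries g s * LSeries f s := by
  rw [← LSeries_convolution' (hg s hs) (hf s hs)]
  refine LSeries_congr (fun {n} hn => ?_) s
  rw [LSeries.convolution_def]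
  exact hfg n (Nat.one_le_iff_ne_zero.2 hn)

theorem lseries_exp (f g : ℕ → ℂ) (hf1 : f 1 = 1) (hf : ∀ s : ℝ, 1 < s → LSeriesSummable f s)
    (hg : ∀ s : ℝ, 1 < s → LSeriesSummable g s)
    (hfg : ∀ n : ℕ, 1 ≤ n → f n * (Real.log n : ℂ) = ∑ p ∈ n.divisorsAntidiagonal, g p.1 * f p.2)
    (s : ℝ) (hs : 1 < s) :
    LSeries f s = Complex.exp (LSeries (fun n => g n / (Real.log n : ℂ)) s) := by
  classical
  set b : ℕ → ℂ := fun n => g n / (Real.log n : ℂ) with hbdef
  have hg1 : g 1 = 0 := by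
    have h1 := hfg 1 le_rfl
    simp [hf1] at h1
    exact h1.symm
  have hb1 : b 1 = 0 := by simp [hbdef]
  have hlog2 : 0 < Real.log 2 := Real.log_pos one_lt_two
  have hb : ∀ y : ℝ, 1 < y → LSeriesSummable b y := by
    intro y hy
    have h1 : Summable fun n => (Real.log 2)⁻¹ * ‖LSeries.term g y n‖ :=
      ((hg y hy).norm).mul_left _
    refine Summable.of_norm_bounded h1 fun n => ?_
    rcases Nat.lt_or_ge n 2 with hn | hn
    · have h2 : LSeries.term b y n = 0 := by
        interval_cases n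
        · exact LSeries.term_zero _ _
        · rw [LSeries.term_of_ne_zero one_ne_zero, hb1, zero_div]
      rw [h2, norm_zero]
      positivity
    · have hn0 : n ≠ 0 := by omega
      rw [LSeries.term_of_ne_zero hn0, LSeries.term_of_ne_zero hn0]
      have h3 : ‖b n‖ ≤ (Real.log 2)⁻¹ * ‖g n‖ := by
        show ‖g n / (Real.log n : ℂ)‖ ≤ _
        rw [norm_div, Complex.norm_real, Real.norm_eq_abs]
        have h4 : Real.log 2 ≤ |Real.log n| := by
          refine le_trans ?_ (le_abs_self _)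
          exact Real.log_le_log two_pos (by exact_mod_cast hn)
        rw [div_eq_inv_mul]
        exact mul_le_mul_of_nonneg_right (inv_anti₀ hlog2 h4) (norm_nonneg _)
      calc ‖b n / (n : ℂ) ^ (y : ℂ)‖ = ‖b n‖ / ‖(n : ℂ) ^ (y : ℂ)‖ := norm_div _ _
        _ ≤ ((Real.log 2)⁻¹ * ‖g n‖) / ‖(n : ℂ) ^ (y : ℂ)‖ :=
            div_le_div_of_nonneg_right h3 (norm_nonneg _)
        _ = (Real.log 2)⁻¹ * ‖g n / (n : ℂ) ^ (y : ℂ)‖ := by rw [mul_div_assoc, norm_div]
  have af : LSeries.abscissaOfAbsConv f ≤ ((1 : ℝ) : EReal) :=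
    LSeries.abscissaOfAbsConv_le_of_forall_lt_LSeriesSummable hf
  have ab : LSeries.abscissaOfAbsConv b ≤ ((1 : ℝ) : EReal) :=
    LSeries.abscissaOfAbsConv_le_of_forall_lt_LSeriesSummable hb
  have hlt : ∀ {u : ℕ → ℂ}, LSeries.abscissaOfAbsConv u ≤ ((1 : ℝ) : EReal) → ∀ x : ℝ, 1 < x →
      LSeries.abscissaOfAbsConv u < ((x : ℂ).re : EReal) := by
    intro u hu x hx
    refine lt_of_le_of_lt hu ?_
    rw [Complex.ofReal_re]
    exact_mod_cast hx
  have dF : ∀ x : ℝ, 1 < x → HasDerivAt (fun x : ℝ => LSeries f x)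
      (-(LSeries g x * LSeries f x)) x := by
    intro x hx
    have h1 := (LSeries_hasDerivAt (hlt af x hx)).comp_ofReal
    have h2 : LSeries (LSeries.logMul f) (x : ℂ) = LSeries g x * LSeries f x := by
      rw [← ls_mul f g hf hg hfg x hx]
      refine LSeries_congr (fun {n} hn => ?_) _
      show Complex.log n * f n = f n * (Real.log n : ℂ)
      rw [Complex.natCast_log, mul_comm]
    rw [h2] at h1
    exact h1
  have dH : ∀ x : ℝ, 1 < x → HasDerivAt (fun x : ℝ => LSeries b x) (-LSeries g x) x := by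
    intro x hx
    have h1 := (LSeries_hasDerivAt (hlt ab x hx)).comp_ofReal
    have h2 : LSeries (LSeries.logMul b) (x : ℂ) = LSeries g x := by
      refine LSeries_congr (fun {n} hn => ?_) _
      show Complex.log n * (g n / (Real.log n : ℂ)) = g n
      rw [← Complex.natCast_log]
      rcases Nat.lt_or_ge n 2 with hn2 | hn2
      · have h3 : n = 1 := by omega
        rw [h3, hg1]
        simp
      · have h4 : (Real.log n : ℂ) ≠ 0 := by
          have h5 : (0 : ℝ) < Real.log n := Real.log_pos (by exact_mod_cast hn2)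
          exact_mod_cast h5.ne'
        rw [mul_div_cancel₀ _ h4]
    rw [h2] at h1
    exact h1
  let P : ℝ → ℂ := fun x => LSeries f x * Complex.exp (-LSeries b x)
  have dP : ∀ x : ℝ, 1 < x → HasDerivAt P 0 x := by
    intro x hx
    have h1 := (dF x hx).mul ((dH x hx).neg.cexp)
    refine h1.congr_deriv ?_
    simp only [neg_neg, Pi.neg_apply]
    ring
  have hconst : ∀ x : ℝ, 1 < x → P x = P s := by
    intro x hx
    refine isOpen_Ioi.is_const_of_deriv_eq_zero (s := Set.Ioi (1 : ℝ)) isPreconnected_Ioi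
      (fun y hy => (dP y hy).differentiableAt.differentiableWithinAt)
      (fun y hy => (dP y hy).deriv) hx hs
  have hlim : Filter.Tendsto P Filter.atTop (nhds (f 1 * Complex.exp (-(b 1)))) := by
    have h1 := LSeries.tendsto_atTop (f := f) (lt_of_le_of_lt af (EReal.coe_lt_top 1))
    have h2 := LSeries.tendsto_atTop (f := b) (lt_of_le_of_lt ab (EReal.coe_lt_top 1))
    exact h1.mul ((Complex.continuous_exp.tendsto _).comp h2.neg)
  have hlim2 : Filter.Tendsto P Filter.atTop (nhds (P s)) := by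
    refine tendsto_const_nhds.congr' ?_
    filter_upwards [Filter.eventually_gt_atTop (1 : ℝ)] with x hx
    exact (hconst x hx).symm
  have h3 := tendsto_nhds_unique hlim2 hlim
  rw [hf1, hb1, neg_zero, Complex.exp_zero, mul_one] at h3
  have h4 : LSeries f s * Complex.exp (-LSeries b s) = 1 := h3
  rw [Complex.exp_neg] at h4
  exact (mul_inv_eq_one₀ (Complex.exp_ne_zero _)).1 h4

/-- the same identity before integration -/
theorem lseries_mul (f g : ℕ → ℂ) (hf : ∀ s : ℝ, 1 < s → LSeriesSummable f s)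
    (hg : ∀ s : ℝ, 1 < s → LSeriesSummable g s)
    (hfg : ∀ n : ℕ, 1 ≤ n → f n * (Real.log n : ℂ) = ∑ p ∈ n.divisorsAntidiagonal, g p.1 * f p.2)
    (s : ℝ) (hs : 1 < s) :
    LSeries (fun n => f n * (Real.log n : ℂ)) s = LSeries g s * LSeries f s :=
  ls_mul f g hf hg hfg s hs

end Pool.Agent.Work.MP_a5099b_nt.PrF
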