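import Pool.Agent.Work.MP_a5099b_nt.I.BLam

set_option autoImplicit false

/-!
# BConv (size M, uses the statement of BLam): the convolution identity for the class counts

PROOF. Left side: `∑_{I} log (absNorm I) = ∑_I ∑_{J ∣ I} LamK J` over the `I` with `absNorm I = n`, `Sm N I`, `cl I = g` (`sum_LamK`; `I ≠ ⊥`). Write `I = J L` (for `J ∣ I`, `I ≠ ⊥`, the
cofactor `L` is unique, cancellation). The pairs `(J, L)` with `absNorm J * absNorm L = n`, `Sm N J`, `Sm N L` (`Sm_mul`), `cl J * cl L = g`: group them by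
`(absNorm J, absNorm L)` in `n.divisorsAntidiagonal` and by `h = cl J`, then `cl L = h⁻¹ * g`: the inner sum is `lK a h * cK b (h⁻¹ * g)`. (`Finset.sum_bij'` or `Finset.sum_sigma'`;
a convenient way is to write everything as a sum over the finite product set of pairs `(J, L)`, `J ∈ ids a`, `L ∈ ids b`.)
`cK_one`: the only ideal of norm `1` is `⊤`, and `cl ⊤ = 1` because `cl ⊤ * cl ⊤ = cl (⊤ * ⊤) = cl ⊤`.
-/

namespace Pool.Agent.Work.MP_a5099b_nt.PrF

open Finset NumberField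

variable {K : Type} [Field K] [NumberField K] {G : Type} [CommGroup G] [Fintype G]

theorem cl_top (N : ℕ) (cl : Ideal (𝓞 K) → G)
    (hcl : ∀ I J : Ideal (𝓞 K), Sm N I → Sm N J → cl (I * J) = cl I * cl J) : cl ⊤ = 1 := by
  have h := hcl ⊤ ⊤ Sm_top Sm_top
  rw [Ideal.top_mul] at h
  exact (mul_eq_left.1 h.symm)

theorem cK_nonneg (N : ℕ) (cl : Ideal (𝓞 K) → G) (n : ℕ) (g : G) : 0 ≤ cK N cl n g := by
  rw [cK]
  exact Nat.cast_nonneg _

theorem lK_nonneg (N : ℕ) (cl : Ideal (𝓞 K) → G) (n : ℕ) (g : G) : 0 ≤ lK N cl n g := by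
  rw [lK]
  exact Finset.sum_nonneg fun I _ => LamK_nonneg I

open scoped Classical in
theorem cK_one (N : ℕ) (cl : Ideal (𝓞 K) → G)
    (hcl : ∀ I J : Ideal (𝓞 K), Sm N I → Sm N J → cl (I * J) = cl I * cl J) (g : G) :
    cK N cl 1 g = if g = 1 then 1 else 0 := by
  have h1 := cl_top N cl hcl
  rw [cK]
  split_ifs with hg
  · have hs : ((ids K 1).filter fun I => Sm N I ∧ cl I = g) = {⊤} := by
      ext I
      rw [Finset.mem_filter, mem_ids, Ideal.absNorm_eq_one_iff, Finset.mem_singleton]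
      constructor
      · exact fun h => h.1
      · rintro rfl
        exact ⟨rfl, Sm_top, by rw [h1, hg]⟩
    rw [hs, Finset.card_singleton, Nat.cast_one]
  · have hs : ((ids K 1).filter fun I => Sm N I ∧ cl I = g) = ∅ := by
      ext I
      rw [Finset.mem_filter, mem_ids, Ideal.absNorm_eq_one_iff]
      constructor
      · rintro ⟨rfl, -, h2⟩
        exact absurd (h2.symm.trans h1) hg
      · intro h
        simp at h
    rw [hs, Finset.card_empty, Nat.cast_zero]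

private theorem inner_r (N : ℕ) (cl : Ideal (𝓞 K) → G) (T : Finset (Ideal (𝓞 K) × Ideal (𝓞 K)))
    (g : G) (a b : ℕ) (hT : ∀ q : Ideal (𝓞 K) × Ideal (𝓞 K), q ∈ T ↔
      Ideal.absNorm q.1 = a ∧ Ideal.absNorm q.2 = b ∧ Sm N q.1 ∧ Sm N q.2 ∧ cl q.1 * cl q.2 = g) :
    ∑ q ∈ T, LamK q.1 = ∑ h, lK N cl a h * cK N cl b (h⁻¹ * g) := by
  classical
  rw [← Finset.sum_fiberwise T (fun q => cl q.1)]
  refine Finset.sum_congr rfl fun h _ => ?_
  rw [lK, cK]
  have hs : (T.filter fun q => cl q.1 = h) =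
      ((ids K a).filter fun I => Sm N I ∧ cl I = h) ×ˢ
        ((ids K b).filter fun I => Sm N I ∧ cl I = h⁻¹ * g) := by
    ext q
    rw [Finset.mem_filter, hT, Finset.mem_product, Finset.mem_filter, Finset.mem_filter, mem_ids,
      mem_ids]
    constructor
    · rintro ⟨⟨h1, h2, h3, h4, h5⟩, h6⟩
      refine ⟨⟨h1, h3, h6⟩, h2, h4, ?_⟩
      rw [← h6, ← h5]
      group
    · rintro ⟨⟨h1, h3, h6⟩, h2, h4, h5⟩
      refine ⟨⟨h1, h2, h3, h4, ?_⟩, h6⟩
      rw [h6, h5]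
      group
  rw [hs, Finset.sum_product, Finset.sum_mul]
  refine Finset.sum_congr rfl fun J _ => ?_
  have hc : ∀ S : Finset (Ideal (𝓞 K)), ∑ L ∈ S, LamK (J, L).1 = LamK J * (S.card : ℝ) := by
    intro S
    show ∑ _L ∈ S, LamK J = _
    rw [Finset.sum_const, nsmul_eq_mul, mul_comm]
  exact hc _

theorem cK_conv (N : ℕ) (cl : Ideal (𝓞 K) → G)
    (hcl : ∀ I J : Ideal (𝓞 K), Sm N I → Sm N J → cl (I * J) = cl I * cl J) (n : ℕ) (hn : 1 ≤ n) (g : G) :
    cK N cl n g * Real.log n =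
      ∑ p ∈ n.divisorsAntidiagonal, ∑ h, lK N cl p.1 h * cK N cl p.2 (h⁻¹ * g) := by
  classical
  set U : Finset (Ideal (𝓞 K)) := n.divisors.biUnion fun d => ids K d with hU
  have memU : ∀ J : Ideal (𝓞 K), J ∈ U ↔ Ideal.absNorm J ∣ n := by
    intro J
    rw [hU, Finset.mem_biUnion]
    constructor
    · rintro ⟨d, hd, hJ⟩
      rw [mem_ids] at hJ
      rw [hJ]
      exact Nat.dvd_of_mem_divisors hd
    · intro h
      exact ⟨_, Nat.mem_divisors.2 ⟨h, by omega⟩, (mem_ids _ _).2 rfl⟩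
  set T : Finset (Ideal (𝓞 K) × Ideal (𝓞 K)) := (U ×ˢ U).filter fun q =>
    Ideal.absNorm q.1 * Ideal.absNorm q.2 = n ∧ Sm N q.1 ∧ Sm N q.2 ∧ cl q.1 * cl q.2 = g with hTd
  have memT : ∀ q : Ideal (𝓞 K) × Ideal (𝓞 K), q ∈ T ↔
      Ideal.absNorm q.1 * Ideal.absNorm q.2 = n ∧ Sm N q.1 ∧ Sm N q.2 ∧ cl q.1 * cl q.2 = g := by
    intro q
    rw [hTd, Finset.mem_filter, Finset.mem_product, memU, memU]
    constructor
    · exact fun h => h.2
    · intro h
      exact ⟨⟨Dvd.intro _ h.1, Dvd.intro_left _ h.1⟩, h⟩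
  have hR : ∑ q ∈ T, LamK q.1 =
      ∑ p ∈ n.divisorsAntidiagonal, ∑ h, lK N cl p.1 h * cK N cl p.2 (h⁻¹ * g) := by
    rw [← Finset.sum_fiberwise_of_maps_to (s := T) (t := n.divisorsAntidiagonal)
      (g := fun q => (Ideal.absNorm q.1, Ideal.absNorm q.2))]
    · refine Finset.sum_congr rfl fun p hp => ?_
      refine inner_r N cl _ g p.1 p.2 ?_
      intro q
      rw [Finset.mem_filter, memT, Prod.ext_iff]
      have hp' := (Nat.mem_divisorsAntidiagonal.1 hp).1
      constructor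
      · rintro ⟨⟨h1, h2, h3, h4⟩, h5, h6⟩
        exact ⟨h5, h6, h2, h3, h4⟩
      · rintro ⟨h5, h6, h2, h3, h4⟩
        exact ⟨⟨by rw [h5, h6, hp'], h2, h3, h4⟩, h5, h6⟩
    · intro q hq
      rw [Nat.mem_divisorsAntidiagonal]
      exact ⟨((memT q).1 hq).1, by omega⟩
  have hL : ∑ q ∈ T, LamK q.1 = cK N cl n g * Real.log n := by
    rw [← Finset.sum_fiberwise_of_maps_to (s := T)
      (t := (ids K n).filter fun I => Sm N I ∧ cl I = g) (g := fun q => q.1 * q.2)]
    · rw [cK, ← nsmul_eq_mul, ← Finset.sum_const]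
      refine Finset.sum_congr rfl fun I hI => ?_
      rw [Finset.mem_filter, mem_ids] at hI
      obtain ⟨hIn, hIS, hIg⟩ := hI
      rw [← hIn, ← sum_LamK I hIS.ne]
      refine Finset.sum_nbij (fun q => q.1) ?_ ?_ ?_ ?_
      · intro q hq
        rw [Finset.mem_filter] at hq
        rw [Set.Finite.mem_toFinset]
        exact Dvd.intro _ hq.2
      · intro q hq q' hq' h
        rw [Finset.mem_coe, Finset.mem_filter] at hq hq'
        have h0 : q.1 ≠ ⊥ := ((memT q).1 hq.1).2.1.ne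
        have h1 : q.1 = q'.1 := h
        have h2 : q.1 * q.2 = q.1 * q'.2 := by
          rw [hq.2, h1, hq'.2]
        exact Prod.ext h1 (mul_left_cancel₀ (by simpa using h0) h2)
      · intro J hJ
        rw [Finset.mem_coe, Set.Finite.mem_toFinset] at hJ
        obtain ⟨L, hL⟩ := hJ
        have hS := hIS
        rw [hL] at hS
        have hS' := Sm_mul.1 hS
        refine ⟨(J, L), ?_, rfl⟩
        rw [Finset.mem_coe, Finset.mem_filter, memT]
        refine ⟨⟨?_, hS'.1, hS'.2, ?_⟩, hL.symm⟩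
        · rw [← map_mul, ← hL, hIn]
        · rw [← hcl J L hS'.1 hS'.2, ← hL, hIg]
      · intro q hq
        rfl
    · intro q hq
      have h := (memT q).1 hq
      rw [Finset.mem_filter, mem_ids]
      exact ⟨by rw [map_mul, h.1], Sm_mul.2 ⟨h.2.1, h.2.2.1⟩, by rw [hcl _ _ h.2.1 h.2.2.1, h.2.2.2]⟩
  rw [← hL, hR]

end Pool.Agent.Work.MP_a5099b_nt.PrF
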