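import Pool.Agent.Work.MP_a5099b_nt.I.BLam

/-!
# BPrim (size M-L, uses the statement of BLam): from divergence to infinitely many prime ideals of degree one

PROOF. Let `d = [K : ℚ]`. Above a rational prime `p` there are at most `d` primes `P`, and `absNorm P = p ^ f`, `1 ≤ f ≤ d` (`Ideal.primesOver`, `Ideal.sum_ramification_inertia`; or: the product of
distinct `P`'s above `p` divides `(p)`, whose norm is `p ^ d`). If `I = P ^ k` has norm `n` then `n` is a power of the prime `p` below `P` and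
`LamK I = log (absNorm P) ≤ d log p = d Λ(n)` (`ArithmeticFunction.vonMangoldt_apply_pow`); for given `n` and `P` there is at most one `k`. Hence `lK N cl n g ≤ d² Λ(n)` for all `n`
(terms with `LamK I = 0` do not matter). If `n` is a prime then the ideals with norm `n` are prime ideals (norm a prime number), so with
`T` = the set of prime ideals in the theorem: `lK N cl n g ≤ log n * #{P ∈ T : absNorm P = n}`.
Suppose `T` is finite. For `1 < s`: `∑' n, lK n / n^s ≤ ∑_{P ∈ T} log (absNorm P) + d² ∑'_{n not prime} Λ(n) / n`, and the last series converges: Mathlib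
`ArithmeticFunction.vonMangoldt.summable_residueClass_non_primes_div` with modulus `1`. This contradicts the divergence. (All series have nonnegative terms; `lK n / n^s ≤ lK n / n` for `n ≥ 1`.)
-/

set_option autoImplicit false

namespace Pool.Agent.Work.MP_a5099b_nt.PrF

open Finset NumberField

variable {K : Type} [Field K] [NumberField K] {G : Type}

private theorem lK_nn (N : ℕ) (cl : Ideal (𝓞 K) → G) (n : ℕ) (g : G) : 0 ≤ lK N cl n g :=
  Finset.sum_nonneg fun I _ => LamK_nonneg I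

open scoped Classical in
/-- the prime below a prime power -/
private noncomputable def rt (I : Ideal (𝓞 K)) : Ideal (𝓞 K) :=
  if h : ∃ P : Ideal (𝓞 K), P.IsPrime ∧ P ≠ ⊥ ∧ ∃ k : ℕ, 1 ≤ k ∧ I = P ^ k then h.choose else ⊥

private theorem rt_spec {I : Ideal (𝓞 K)}
    (h : ∃ P : Ideal (𝓞 K), P.IsPrime ∧ P ≠ ⊥ ∧ ∃ k : ℕ, 1 ≤ k ∧ I = P ^ k) :
    (rt I).IsPrime ∧ rt I ≠ ⊥ ∧ ∃ k : ℕ, 1 ≤ k ∧ I = rt I ^ k := by
  have h1 : rt I = h.choose := dif_pos h
  rw [h1]
  exact h.choose_spec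

private theorem norm_two_le {P : Ideal (𝓞 K)} (hP : P.IsPrime) (h0 : P ≠ ⊥) : 2 ≤ Ideal.absNorm P := by
  have h1 : Ideal.absNorm P ≠ 0 := fun h => h0 (Ideal.absNorm_eq_zero_iff.1 h)
  have h2 : Ideal.absNorm P ≠ 1 := fun h => hP.ne_top (Ideal.absNorm_eq_one_iff.1 h)
  omega

private theorem lK_le (N : ℕ) (cl : Ideal (𝓞 K) → G) (n : ℕ) (g : G) :
    lK N cl n g ≤ (Module.finrank ℤ (𝓞 K) : ℝ) * ArithmeticFunction.vonMangoldt n := by
  classical
  let F : Finset (Ideal (𝓞 K)) := (ids K n).filter fun I => Sm N I ∧ cl I = g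
  let F' : Finset (Ideal (𝓞 K)) :=
    F.filter fun I => ∃ P : Ideal (𝓞 K), P.IsPrime ∧ P ≠ ⊥ ∧ ∃ k : ℕ, 1 ≤ k ∧ I = P ^ k
  have e1 : lK N cl n g = ∑ I ∈ F', LamK I := by
    have h1 : lK N cl n g = ∑ I ∈ F, LamK I := by
      unfold lK
      congr
    rw [h1]
    refine (Finset.sum_subset (Finset.filter_subset _ _) fun I hI hI' => ?_).symm
    refine LamK_eq_zero I fun h => hI' (Finset.mem_filter.2 ⟨hI, h⟩)
  rw [e1]
  rcases F'.eq_empty_or_nonempty with h0 | ⟨I₀, hI₀⟩
  · rw [h0, Finset.sum_empty]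
    exact mul_nonneg (Nat.cast_nonneg _) ArithmeticFunction.vonMangoldt_nonneg
  have hF' : ∀ I ∈ F', Ideal.absNorm I = n ∧ (rt I).IsPrime ∧ rt I ≠ ⊥ ∧ ∃ k : ℕ, 1 ≤ k ∧ I = rt I ^ k := by
    intro I hI
    have h1 := Finset.mem_filter.1 hI
    exact ⟨(mem_ids n I).1 (Finset.mem_filter.1 h1.1).1, rt_spec h1.2⟩
  have key : ∀ I ∈ F', ∃ p m : ℕ, 0 < m ∧ (p : 𝓞 K) ∈ rt I ∧ p.Prime ∧ n = p ^ m := by
    intro I hI
    obtain ⟨hn, hP, hb, k, hk, hIk⟩ := hF' I hI
    have : (rt I).IsMaximal := hP.isMaximal hb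
    obtain ⟨p, f, hf, hp1, hp2, hp3⟩ := Ideal.exists_prime_and_absNorm_eq_pow (rt I)
    refine ⟨p, f * k, Nat.mul_pos hf hk, hp1, hp2, ?_⟩
    rw [← hn]
    conv_lhs => rw [hIk]
    rw [map_pow, hp3, pow_mul]
  obtain ⟨p, m, hm, hpI, hp, hn⟩ := key I₀ hI₀
  have hpp : ∀ I ∈ F', (p : 𝓞 K) ∈ rt I := by
    intro I hI
    obtain ⟨p', m', hm', hpI', hp', hn'⟩ := key I hI
    have : p' = p := by
      have h1 : p' ∣ p ^ m := by
        rw [← hn, hn']
        exact dvd_pow_self p' hm'.ne'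
      exact (Nat.prime_dvd_prime_iff_eq hp' hp).1 (hp'.dvd_of_dvd_pow h1)
    rw [← this]
    exact hpI'
  have hinj : Set.InjOn (rt (K := K)) (F' : Set (Ideal (𝓞 K))) := by
    intro I hI J hJ hIJ
    obtain ⟨hnI, hPI, hbI, k, hk, hIk⟩ := hF' I hI
    obtain ⟨hnJ, hPJ, hbJ, l, hl, hJl⟩ := hF' J hJ
    have h1 : Ideal.absNorm (rt I) ^ k = Ideal.absNorm (rt I) ^ l := by
      have e1 : Ideal.absNorm (rt I) ^ k = n := by
        rw [← map_pow, ← hIk]
        exact hnI
      have e2 : Ideal.absNorm (rt I) ^ l = n := by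
        rw [hIJ, ← map_pow, ← hJl]
        exact hnJ
      rw [e1, e2]
    have h2 : k = l := Nat.pow_right_injective (norm_two_le hPI hbI) h1
    rw [hIk, hJl, h2, hIJ]
  have hsp : (Ideal.span {(p : 𝓞 K)} : Ideal (𝓞 K)) ≠ ⊥ := by
    rw [Ne, Ideal.span_singleton_eq_bot]
    exact_mod_cast hp.ne_zero
  calc ∑ I ∈ F', LamK I = ∑ I ∈ F', LamK (rt I) := by
        refine Finset.sum_congr rfl fun I hI => ?_
        obtain ⟨hnI, hPI, hbI, k, hk, hIk⟩ := hF' I hI
        have h1 : LamK (rt I ^ k) = Real.log (Ideal.absNorm (rt I)) := LamK_pow (rt I) hPI hbI k hk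
        have h2 : LamK (rt I ^ 1) = Real.log (Ideal.absNorm (rt I)) := LamK_pow (rt I) hPI hbI 1 le_rfl
        rw [pow_one] at h2
        conv_lhs => rw [hIk]
        rw [h1, h2]
    _ = ∑ J ∈ F'.image rt, LamK J := (Finset.sum_image hinj).symm
    _ ≤ ∑ J ∈ (finite_dvd (Ideal.span {(p : 𝓞 K)}) hsp).toFinset, LamK J := by
        refine Finset.sum_le_sum_of_subset_of_nonneg ?_ fun J _ _ => LamK_nonneg J
        intro J hJ
        obtain ⟨I, hI, rfl⟩ := Finset.mem_image.1 hJ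
        rw [Set.Finite.mem_toFinset]
        exact Ideal.dvd_iff_le.2 ((Ideal.span_singleton_le_iff_mem _).2 (hpp I hI))
    _ = Real.log (Ideal.absNorm (Ideal.span {(p : 𝓞 K)})) := sum_LamK _ hsp
    _ = (Module.finrank ℤ (𝓞 K) : ℝ) * ArithmeticFunction.vonMangoldt n := by
        rw [Ideal.absNorm_span_natCast, Nat.cast_pow, Real.log_pow, hn,
          ArithmeticFunction.vonMangoldt_apply_pow hm.ne', ArithmeticFunction.vonMangoldt_apply_prime hp]

theorem infinite_primes (N : ℕ) (cl : Ideal (𝓞 K) → G) (g : G)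
    (hdiv : ∀ M : ℝ, ∃ s₀ : ℝ, 1 < s₀ ∧ ∀ s : ℝ, 1 < s → s < s₀ → M ≤ ∑' n : ℕ, lK N cl n g / (n : ℝ) ^ s) :
    {P : Ideal (𝓞 K) | P.IsPrime ∧ (Ideal.absNorm P).Prime ∧ Sm N P ∧ cl P = g}.Infinite := by
  classical
  intro hfin
  set T : Set (Ideal (𝓞 K)) := {P : Ideal (𝓞 K) | P.IsPrime ∧ (Ideal.absNorm P).Prime ∧ Sm N P ∧ cl P = g}
    with hT
  let b₁ : ℕ → ℝ := fun n => if n.Prime then lK N cl n g else 0
  have hb₁ : Summable b₁ := by
    refine summable_of_hasFiniteSupport ?_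
    refine (hfin.image Ideal.absNorm).subset fun n hn => ?_
    have h1 : b₁ n ≠ 0 := hn
    have h2 : n.Prime := by
      by_contra h
      exact h1 (if_neg h)
    have h3 : lK N cl n g ≠ 0 := by
      rw [show b₁ n = lK N cl n g from if_pos h2] at h1
      exact h1
    obtain ⟨I, hI, -⟩ := Finset.exists_ne_zero_of_sum_ne_zero h3
    have h4 := Finset.mem_filter.1 hI
    have h5 : Ideal.absNorm I = n := (mem_ids n I).1 h4.1
    refine ⟨I, ⟨?_, by rw [h5]; exact h2, h4.2.1, h4.2.2⟩, h5⟩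
    refine Ideal.isPrime_of_irreducible_absNorm ?_
    rw [h5]
    exact h2
  let r : ℕ → ℝ := fun n => (if n.Prime then 0 else ArithmeticFunction.vonMangoldt n) / n
  have hr : Summable r := by
    have h := ArithmeticFunction.vonMangoldt.summable_residueClass_non_primes_div (q := 1) (0 : ZMod 1)
    refine h.congr fun n => ?_
    have h1 : ArithmeticFunction.vonMangoldt.residueClass (0 : ZMod 1) n = ArithmeticFunction.vonMangoldt n :=
      Set.indicator_of_mem (show n ∈ {n : ℕ | (n : ZMod 1) = 0} from Subsingleton.elim (n : ZMod 1) 0) _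
    simp only [r]
    rw [h1]
  let d : ℝ := (Module.finrank ℤ (𝓞 K) : ℝ)
  have hd : 0 ≤ d := Nat.cast_nonneg _
  have hb : Summable fun n => b₁ n + d * r n := hb₁.add (hr.mul_left d)
  have hle : ∀ s : ℝ, 1 < s → ∀ n : ℕ, lK N cl n g / (n : ℝ) ^ s ≤ b₁ n + d * r n := by
    intro s hs n
    have hrn : 0 ≤ r n := by
      refine div_nonneg ?_ (Nat.cast_nonneg _)
      split_ifs
      · exact le_rfl
      · exact ArithmeticFunction.vonMangoldt_nonneg
    rcases Nat.eq_zero_or_pos n with h0 | h0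
    · subst h0
      rw [Nat.cast_zero, Real.zero_rpow (by linarith), div_zero]
      have h1 : b₁ 0 = 0 := if_neg Nat.not_prime_zero
      rw [h1, zero_add]
      exact mul_nonneg hd hrn
    have hn1 : (1 : ℝ) ≤ n := by exact_mod_cast h0
    have hn0 : (0 : ℝ) < n := by linarith
    have hns : (n : ℝ) ≤ (n : ℝ) ^ s := by
      have h1 := Real.rpow_le_rpow_of_exponent_le hn1 hs.le
      rwa [Real.rpow_one] at h1
    by_cases hp : n.Prime
    · have h1 : b₁ n = lK N cl n g := if_pos hp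
      have h2 : lK N cl n g / (n : ℝ) ^ s ≤ lK N cl n g :=
        div_le_self (lK_nn N cl n g) (hn1.trans hns)
      rw [h1]
      have := mul_nonneg hd hrn
      linarith
    · have h1 : b₁ n = 0 := if_neg hp
      have h2 : r n = ArithmeticFunction.vonMangoldt n / n := by
        simp only [r]
        rw [if_neg hp]
      rw [h1, zero_add, h2, ← mul_div_assoc]
      calc lK N cl n g / (n : ℝ) ^ s ≤ lK N cl n g / n :=
            div_le_div_of_nonneg_left (lK_nn N cl n g) hn0 hns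
        _ ≤ d * ArithmeticFunction.vonMangoldt n / n :=
            div_le_div_of_nonneg_right (lK_le N cl n g) hn0.le
  obtain ⟨s₀, hs₀, H⟩ := hdiv ((∑' n : ℕ, (b₁ n + d * r n)) + 1)
  have hs1 : 1 < (1 + s₀) / 2 := by linarith
  have hs2 : (1 + s₀) / 2 < s₀ := by linarith
  have h1 := H _ hs1 hs2
  have hsum : Summable fun n : ℕ => lK N cl n g / (n : ℝ) ^ ((1 + s₀) / 2) :=
    Summable.of_nonneg_of_le
      (fun n => div_nonneg (lK_nn N cl n g) (Real.rpow_nonneg (Nat.cast_nonneg _) _))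
      (hle _ hs1) hb
  have h2 := hsum.tsum_le_tsum (hle _ hs1) hb
  linarith

end Pool.Agent.Work.MP_a5099b_nt.PrF
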