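import Mathlib

set_option autoImplicit false

/-!
# EForm (size M, Mathlib only): three elementary reductions for binary quadratic forms

`F(x, y) = a x² + b x y + c y²`.
PROOF. `cop_ext`: if `p ∣ N` take `(x₀, y₀)`. Otherwise there is a vector `(X, Y) ∈ {(1,0), (0,1), (1,1)}` with `p ∤ F(X, Y)` (the values are `a`, `c`, `a + b + c`; if `p` divides all three then `p` divides
`a, b, c`). Chinese remainder theorem for the coprime moduli `N`, `p` (both coordinates); `F(x₁, y₁)` is prime to `N` and to `p`.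
`to_even`: `b` is odd (`b² - 4 a c = -q`, `q` odd). Let `e ∈ {(1,0), (0,1), (1,1)}` be congruent to `(x₀, y₀)` modulo `2` (`(x₀, y₀) ≢ (0, 0)` as `F(x₀, y₀)` is odd), `f = (0,1), (1,0), (0,1)`, so `(e, f)` is a `ℤ`-basis of `ℤ²`;
`F(X e + Z f) = F(e) X² + β X Z + F(f) Z²` with `β² - 4 F(e) F(f) = -q`; put `a' = F(e)`, `b' = β`, `c' = 4 F(f)` (`Z = 2 Y`): `a' c' - b'² = q`. `F(e) > 0` because `4 a F(x, y) = (2 a x + b y)² + q y²`.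
`(x₀, y₀) = X e + Z f` with `Z` even. Explicitly: `e = (1,0)`: `(a, b, 4c)`, `X = x₀`, `Y = y₀ / 2`; `e = (0,1)`, `f = (1,0)`: `(c, b, 4 a)`, `X = y₀`, `Y = x₀ / 2`; `e = (1,1)`, `f = (0,1)`:
`(a + b + c, b + 2 c, 4 c)`, `X = x₀`, `Y = (y₀ - x₀)/2`.
`to_first`: there is a primitive vector `(x₁, y₁) ≡ (x₀, y₀) mod N`: `gcd(x₀, y₀, N) = 1` since `F(x₀, y₀)` is prime to `N`. Let `y₁ = y₀` if `y₀ ≠ 0`, `y₁ = N` otherwise, and `x₁ = x₀ + k N`, where `k` is the product of the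
primes which divide `y₁` and not `x₀`: for a prime `p ∣ y₁`: if `p ∣ x₀` then `p ∤ N` and `p ∤ k`; if `p ∤ x₀` then `p ∣ k`; in both cases `p ∤ x₁`. Bezout: `x₁ t - y₁ s = 1`; put `e = (x₁, y₁)`, `f = (s, t)`:
`F(X e + Y f) = a₁ X² + 2 b₁ X Y + c₁ Y²`, `a₁ = F(e)`, `c₁ = F(f)`, `b₁ = a x₁ s + b (x₁ t + y₁ s) + c y₁ t` (form `a x² + 2 b x y + c y²`), `a₁ c₁ - b₁² = (a c - b²)(x₁ t - y₁ s)²`. `a₁ > 0` as before.
-/

namespace Pool.Agent.Work.MP_a5099b_nt.PrF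

private theorem crt2 (N p : ℕ) (h : Nat.Coprime N p) (u v : ℤ) :
    ∃ x : ℤ, x ≡ u [ZMOD (N : ℤ)] ∧ x ≡ v [ZMOD (p : ℤ)] := by
  obtain ⟨s, t, hst⟩ := (Nat.isCoprime_iff_coprime.2 h : IsCoprime (N : ℤ) (p : ℤ))
  refine ⟨u * (t * p) + v * (s * N), ?_, ?_⟩
  · refine (Int.modEq_iff_dvd.2 ⟨(u - v) * s, ?_⟩)
    linear_combination (-u) * hst
  · refine (Int.modEq_iff_dvd.2 ⟨(v - u) * t, ?_⟩)
    linear_combination (-v) * hst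

private theorem cong_form (a b c : ℤ) {M x y x' y' : ℤ} (hx : x ≡ x' [ZMOD M]) (hy : y ≡ y' [ZMOD M]) :
    a * x ^ 2 + b * x * y + c * y ^ 2 ≡ a * x' ^ 2 + b * x' * y' + c * y' ^ 2 [ZMOD M] := by
  gcongr

private theorem cop_of_cong {M u v : ℤ} (h : u ≡ v [ZMOD M]) (hc : IsCoprime v M) : IsCoprime u M := by
  obtain ⟨k, hk⟩ := Int.modEq_iff_dvd.1 h
  have e : u = v + M * (-k) := by linear_combination -hk
  rw [e]
  exact IsCoprime.add_mul_left_left hc (-k)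

theorem cop_ext (a b c : ℤ) (p : ℕ) (hp : p.Prime)
    (hprim : ¬ ((p : ℤ) ∣ a ∧ (p : ℤ) ∣ b ∧ (p : ℤ) ∣ c)) (N : ℕ) (x₀ y₀ : ℤ)
    (hc : IsCoprime (a * x₀ ^ 2 + b * x₀ * y₀ + c * y₀ ^ 2) (N : ℤ)) :
    ∃ x₁ y₁ : ℤ, x₁ ≡ x₀ [ZMOD (N : ℤ)] ∧ y₁ ≡ y₀ [ZMOD (N : ℤ)] ∧
      IsCoprime (a * x₁ ^ 2 + b * x₁ * y₁ + c * y₁ ^ 2) ((N * p : ℕ) : ℤ) := by
  have hpi : Prime (p : ℤ) := Nat.prime_iff_prime_int.1 hp
  by_cases hpN : p ∣ N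
  · refine ⟨x₀, y₀, Int.ModEq.refl _, Int.ModEq.refl _, ?_⟩
    push_cast
    exact IsCoprime.mul_right hc (hc.of_isCoprime_of_dvd_right (Int.natCast_dvd_natCast.2 hpN))
  · have hcop : Nat.Coprime N p := ((Nat.Prime.coprime_iff_not_dvd hp).2 hpN).symm
    have key : ∃ X Y : ℤ, ¬ (p : ℤ) ∣ a * X ^ 2 + b * X * Y + c * Y ^ 2 := by
      by_contra hcon
      push Not at hcon
      have h1 : (p : ℤ) ∣ a := by simpa using hcon 1 0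
      have h2 : (p : ℤ) ∣ c := by simpa using hcon 0 1
      have h3 : (p : ℤ) ∣ a + b + c := by simpa using hcon 1 1
      refine hprim ⟨h1, ?_, h2⟩
      have h4 : (p : ℤ) ∣ (a + b + c) - (a + c) := dvd_sub h3 (dvd_add h1 h2)
      have e : (a + b + c) - (a + c) = b := by ring
      rwa [e] at h4
    obtain ⟨X, Y, hXY⟩ := key
    obtain ⟨x₁, hx1, hx2⟩ := crt2 N p hcop x₀ X
    obtain ⟨y₁, hy1, hy2⟩ := crt2 N p hcop y₀ Y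
    refine ⟨x₁, y₁, hx1, hy1, ?_⟩
    push_cast
    refine IsCoprime.mul_right (cop_of_cong (cong_form a b c hx1 hy1) hc) ?_
    refine cop_of_cong (cong_form a b c hx2 hy2) ?_
    exact ((Irreducible.coprime_iff_not_dvd hpi.irreducible).2 hXY).symm

theorem to_even (q : ℕ) (h3 : q % 4 = 3) (a b c : ℤ) (ha : 0 < a) (hd : b ^ 2 - 4 * a * c = -(q : ℤ)) (x₀ y₀ : ℤ)
    (hodd : Odd (a * x₀ ^ 2 + b * x₀ * y₀ + c * y₀ ^ 2)) :
    ∃ a' b' c' x' y' : ℤ, 0 < a' ∧ a' * c' - b' ^ 2 = q ∧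
      a' * x' ^ 2 + 2 * b' * x' * y' + c' * y' ^ 2 = a * x₀ ^ 2 + b * x₀ * y₀ + c * y₀ ^ 2 ∧
      ∀ X Y : ℤ, ∃ x y : ℤ, a * x ^ 2 + b * x * y + c * y ^ 2 = a' * X ^ 2 + 2 * b' * X * Y + c' * Y ^ 2 := by
  have hq : (0 : ℤ) < q := by
    have : 0 < q := by omega
    exact_mod_cast this
  have hcpos : 0 < c := by
    by_contra hcon
    nlinarith [sq_nonneg b]
  have habc : 0 < a + b + c := by
    by_contra hcon
    nlinarith [sq_nonneg (2 * a + b)]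
  rcases Int.even_or_odd' x₀ with ⟨u, hu | hu⟩ <;> rcases Int.even_or_odd' y₀ with ⟨v, hv | hv⟩
  · exfalso
    subst hu hv
    rw [← Int.not_even_iff_odd] at hodd
    exact hodd ⟨2 * (a * u ^ 2 + b * u * v + c * v ^ 2), by ring⟩
  · refine ⟨c, b, 4 * a, y₀, u, hcpos, by linear_combination -hd, by subst hu; ring, fun X Y => ⟨2 * Y, X, by ring⟩⟩
  · refine ⟨a, b, 4 * c, x₀, v, ha, by linear_combination -hd, by subst hv; ring, fun X Y => ⟨X, 2 * Y, by ring⟩⟩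
  · refine ⟨a + b + c, b + 2 * c, 4 * c, x₀, v - u, habc, by linear_combination -hd, by subst hu hv; ring,
      fun X Y => ⟨X, X + 2 * Y, by ring⟩⟩

private theorem exists_prim (N : ℕ) (hN : 0 < N) (x₀ y₀ : ℤ)
    (h : ∀ p : ℤ, Prime p → p ∣ x₀ → p ∣ y₀ → ¬ p ∣ (N : ℤ)) :
    ∃ x₁ y₁ : ℤ, x₁ ≡ x₀ [ZMOD (N : ℤ)] ∧ y₁ ≡ y₀ [ZMOD (N : ℤ)] ∧ IsCoprime x₁ y₁ := by
  have hN' : (N : ℤ) ≠ 0 := by exact_mod_cast hN.ne'
  have hy : ∃ y₁ : ℤ, y₁ ≠ 0 ∧ y₁ ≡ y₀ [ZMOD (N : ℤ)] := by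
    by_cases h0 : y₀ = 0
    · refine ⟨N, hN', ?_⟩
      rw [h0]
      exact Int.modEq_zero_iff_dvd.2 (dvd_refl _)
    · exact ⟨y₀, h0, Int.ModEq.refl _⟩
  obtain ⟨y₁, hy0, hy1⟩ := hy
  have hy2 : ∀ p : ℤ, p ∣ (N : ℤ) → p ∣ y₁ → p ∣ y₀ := by
    intro p h1 h2
    have h3 : (N : ℤ) ∣ y₀ - y₁ := Int.modEq_iff_dvd.1 hy1
    have h4 : p ∣ (y₀ - y₁) + y₁ := dvd_add (h1.trans h3) h2
    simpa using h4
  set k : ℤ := ∏ p ∈ y₁.natAbs.primeFactors.filter (fun p : ℕ => ¬ (p : ℤ) ∣ x₀), (p : ℤ) with hk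
  refine ⟨x₀ + k * N, y₁, ?_, hy1, ?_⟩
  · refine Int.modEq_iff_dvd.2 ⟨-k, by ring⟩
  · refine isCoprime_of_prime_dvd (fun h0 => hy0 h0.2) ?_
    intro z hz hz1 hz2
    have hzp : z.natAbs.Prime := Int.prime_iff_natAbs_prime.1 hz
    by_cases hx : z ∣ x₀
    · have h1 : z ∣ k * N := (dvd_add_right hx).1 hz1
      rcases hz.dvd_or_dvd h1 with h2 | h2
      · rw [hk] at h2
        obtain ⟨p, hp1, hp2⟩ := (Prime.dvd_finsetProd_iff hz _).1 h2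
        rw [Finset.mem_filter, Nat.mem_primeFactors] at hp1
        apply hp1.2
        have h5 : z.natAbs ∣ p := by
          have := Int.natAbs_dvd_natAbs.2 hp2
          simpa using this
        have h6 : z.natAbs = p := (Nat.prime_dvd_prime_iff_eq hzp hp1.1.1).1 h5
        rw [← h6]
        exact (Int.natAbs_dvd).2 hx
      · exact h z hz hx (hy2 z h2 hz2) h2
    · apply hx
      have h1 : z ∣ k := by
        rw [hk]
        have h2 : ((z.natAbs : ℕ) : ℤ) ∣ ∏ p ∈ y₁.natAbs.primeFactors.filter (fun p : ℕ => ¬ (p : ℤ) ∣ x₀), (p : ℤ) := by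
          refine Finset.dvd_prod_of_mem (fun p : ℕ => (p : ℤ)) ?_
          rw [Finset.mem_filter, Nat.mem_primeFactors]
          refine ⟨⟨hzp, Int.natAbs_dvd_natAbs.2 hz2, Int.natAbs_ne_zero.2 hy0⟩, ?_⟩
          intro h3
          exact hx (Int.natAbs_dvd.1 h3)
        exact Int.natAbs_dvd.1 h2
      have h2 : z ∣ k * N := Dvd.dvd.mul_right h1 _
      exact (dvd_add_left h2).1 hz1

theorem to_first (q : ℕ) (hq : 0 < q) (a b c : ℤ) (ha : 0 < a) (hd : a * c - b ^ 2 = q) (N : ℕ) (hN : 0 < N)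
    (x₀ y₀ : ℤ) (hc : IsCoprime (a * x₀ ^ 2 + 2 * b * x₀ * y₀ + c * y₀ ^ 2) (N : ℤ)) :
    ∃ a₁ b₁ c₁ : ℤ, 0 < a₁ ∧ a₁ * c₁ - b₁ ^ 2 = q ∧
      a₁ ≡ a * x₀ ^ 2 + 2 * b * x₀ * y₀ + c * y₀ ^ 2 [ZMOD (N : ℤ)] ∧
      ∀ X Y : ℤ, ∃ x y : ℤ, a * x ^ 2 + 2 * b * x * y + c * y ^ 2 = a₁ * X ^ 2 + 2 * b₁ * X * Y + c₁ * Y ^ 2 := by
  have hq' : (0 : ℤ) < q := by exact_mod_cast hq
  have hprim : ∀ p : ℤ, Prime p → p ∣ x₀ → p ∣ y₀ → ¬ p ∣ (N : ℤ) := by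
    intro p hp h1 h2 h3
    obtain ⟨u, hu⟩ := h1
    obtain ⟨v, hv⟩ := h2
    have h4 : p ∣ a * x₀ ^ 2 + 2 * b * x₀ * y₀ + c * y₀ ^ 2 :=
      ⟨a * x₀ * u + 2 * b * x₀ * v + c * y₀ * v, by
        rw [hu, hv]; ring⟩
    exact hp.not_isUnit (hc.isUnit_of_dvd' h4 h3)
  obtain ⟨x₁, y₁, hx1, hy1, hcop⟩ := exists_prim N hN x₀ y₀ hprim
  obtain ⟨t, s', hts⟩ := hcop
  -- t * x₁ + s' * y₁ = 1
  obtain ⟨s, hs⟩ : ∃ s, s' = -s := ⟨-s', by ring⟩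
  have hbz : x₁ * t - y₁ * s = 1 := by rw [hs] at hts; linear_combination hts
  refine ⟨a * x₁ ^ 2 + 2 * b * x₁ * y₁ + c * y₁ ^ 2,
    a * x₁ * s + b * (x₁ * t + y₁ * s) + c * y₁ * t,
    a * s ^ 2 + 2 * b * s * t + c * t ^ 2, ?_, ?_, ?_, ?_⟩
  · have h1 : a * (a * x₁ ^ 2 + 2 * b * x₁ * y₁ + c * y₁ ^ 2) = (a * x₁ + b * y₁) ^ 2 + q * y₁ ^ 2 := by
      linear_combination (y₁ ^ 2) * hd
    have h2 : 0 < (a * x₁ + b * y₁) ^ 2 + q * y₁ ^ 2 := by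
      by_cases hy : y₁ = 0
      · have hx : x₁ ≠ 0 := by
          rintro rfl
          rw [hy] at hbz
          norm_num at hbz
        rw [hy]
        have : 0 < (a * x₁) ^ 2 := by positivity
        nlinarith
      · positivity
    rw [← h1] at h2
    exact pos_of_mul_pos_right h2 ha.le
  · have e : (a * x₁ ^ 2 + 2 * b * x₁ * y₁ + c * y₁ ^ 2) * (a * s ^ 2 + 2 * b * s * t + c * t ^ 2) -
        (a * x₁ * s + b * (x₁ * t + y₁ * s) + c * y₁ * t) ^ 2 = (a * c - b ^ 2) * (x₁ * t - y₁ * s) ^ 2 := by ring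
    rw [e, hbz, hd]
    ring
  · have := cong_form a (2 * b) c hx1 hy1
    exact this
  · intro X Y
    exact ⟨x₁ * X + s * Y, y₁ * X + t * Y, by ring⟩

end Pool.Agent.Work.MP_a5099b_nt.PrF
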