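import Pool.Agent.Work.MP_a5099b_nt.I.CDefs

set_option autoImplicit false

/-!
# CInt (size M, Mathlib only): the ring of integers of `ℚ(√-q)`

PROOF. `δ` is not rational (`δ² < 0` has no rational solution), so `1, δ` is a `ℚ`-basis of `K` (`deg`), every `x : K` is `r + s δ`, trace `2 r`, norm `r² + q s²` (`Algebra.norm_eq_matrix_det` or
`Algebra.trace`, with this basis; or the minimal polynomial `X² - 2 r X + r² + q s²` for `s ≠ 0`). For `x` integral `u = 2 r ∈ ℤ` and `4 (r² + q s²) = u² + q (2 s)² ∈ 4 ℤ`; so `q (2 s)²` is an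
integer, `q` prime, hence `v = 2 s ∈ ℤ` (the denominator `w` of `2 s` satisfies `w² ∣ q`), and `u² + q v² ≡ 0 mod 4` with `q ≡ 3 mod 4` gives `u² ≡ v² mod 4`, `u ≡ v mod 2`.
`half_mem`: for `u ≡ v mod 2` the element `(u + v δ)/2` is integral (root of `X² - u X + (u² + q v²)/4`). `unique`: `u + v δ = u' + v' δ` implies `u = u'`, `v = v'` (apply the norm to the
difference). `four_norm`: `4 * norm x = norm (2 x) = u² + q v²` (`Algebra.norm ℤ` versus `Algebra.norm ℚ`: `Algebra.coe_norm_int` or `RingOfIntegers.coe_norm`).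
`two_dvd_iff`: `x = (u + v δ)/2`: `x ≡ 1 mod 2` iff `x = a + b δ` with integers `a, b`, `a + b` odd (`δ = 2 ω - 1 ≡ 1 mod 2`, `ω = (1 + δ)/2`; conversely `x = 1 + 2 y`, `2 y = u' + v' δ`, `u' ≡ v'`).
-/

namespace Pool.Agent.Work.MP_a5099b_nt.PrF

open Finset NumberField

variable {K : Type} [Field K] [NumberField K] {q : ℕ} {δ : 𝓞 K}

private theorem unique_aux (h : Quad K q δ) (a b : ℤ) (he : (a : 𝓞 K) + (b : 𝓞 K) * δ = 0) : a = 0 ∧ b = 0 := by
  have h1 : ((a ^ 2 + q * b ^ 2 : ℤ) : 𝓞 K) = 0 := by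
    push_cast
    have := h.sq
    linear_combination ((a : 𝓞 K) - b * δ) * he + (b : 𝓞 K) ^ 2 * this
  have h2 : (a ^ 2 + q * b ^ 2 : ℤ) = 0 := by exact_mod_cast h1
  have hq : (0 : ℤ) < q := by exact_mod_cast h.prime.pos
  have ha : a ^ 2 = 0 := by nlinarith [sq_nonneg a, sq_nonneg b]
  have hb : (q : ℤ) * b ^ 2 = 0 := by nlinarith [sq_nonneg a, sq_nonneg b]
  refine ⟨by simpa using ha, ?_⟩
  rcases mul_eq_zero.1 hb with h3 | h3
  · omega
  · simpa using h3

theorem unique (h : Quad K q δ) (u v u' v' : ℤ)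
    (he : (u : 𝓞 K) + (v : 𝓞 K) * δ = (u' : 𝓞 K) + (v' : 𝓞 K) * δ) : u = u' ∧ v = v' := by
  have := unique_aux h (u - u') (v - v') (by push_cast; linear_combination he)
  constructor <;> linarith [this.1, this.2]

private theorem sqK (h : Quad K q δ) : (δ : K) * (δ : K) = -(q : K) := by
  have := congrArg (fun x : 𝓞 K => (x : K)) h.sq
  simpa using this

private theorem linind (h : Quad K q δ) : LinearIndependent ℚ ![(1 : K), (δ : K)] := by
  rw [LinearIndependent.pair_iff]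
  intro r s hrs
  have h1 : ((r ^ 2 + q * s ^ 2 : ℚ) : K) = 0 := by
    push_cast
    have h2 := sqK h
    have h3 : (r : K) + (s : K) * (δ : K) = 0 := by
      simpa [Algebra.smul_def] using hrs
    linear_combination ((r : K) - s * δ) * h3 + (s : K) ^ 2 * h2
  have h2 : (r ^ 2 + q * s ^ 2 : ℚ) = 0 := by exact_mod_cast h1
  have hq : (0 : ℚ) < q := by exact_mod_cast h.prime.pos
  have ha : r ^ 2 = 0 := by nlinarith [sq_nonneg r, sq_nonneg s]
  have hb : (q : ℚ) * s ^ 2 = 0 := by nlinarith [sq_nonneg r, sq_nonneg s]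
  refine ⟨by simpa using ha, ?_⟩
  rcases mul_eq_zero.1 hb with h3 | h3
  · exact absurd h3 hq.ne'
  · simpa using h3

private noncomputable def bas (h : Quad K q δ) : Module.Basis (Fin 2) ℚ K :=
  basisOfLinearIndependentOfCardEqFinrank (linind h) (by simp [h.deg])

private theorem bas_zero (h : Quad K q δ) : bas h 0 = 1 := by simp [bas]
private theorem bas_one (h : Quad K q δ) : bas h 1 = (δ : K) := by simp [bas]

private theorem repr_eq (h : Quad K q δ) (r s : ℚ) :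
    ((bas h).repr ((r : K) + (s : K) * (δ : K))) 0 = r ∧ ((bas h).repr ((r : K) + (s : K) * (δ : K))) 1 = s := by
  have h1 : (r : K) + (s : K) * (δ : K) = r • bas h 0 + s • bas h 1 := by
    rw [bas_zero, bas_one, Algebra.smul_def, Algebra.smul_def]
    simp
  rw [h1]
  simp

private theorem exK (h : Quad K q δ) (x : K) : ∃ r s : ℚ, x = (r : K) + (s : K) * (δ : K) := by
  refine ⟨(bas h).repr x 0, (bas h).repr x 1, ?_⟩
  conv_lhs => rw [← (bas h).sum_repr x]
  rw [Fin.sum_univ_two, bas_zero, bas_one, Algebra.smul_def, Algebra.smul_def]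
  simp

private theorem mat (h : Quad K q δ) (r s : ℚ) :
    Algebra.leftMulMatrix (bas h) ((r : K) + (s : K) * (δ : K)) = !![r, -(q * s); s, r] := by
  have h2 := sqK h
  have e1 : ((r : K) + (s : K) * (δ : K)) * bas h 1 = ((-(q * s) : ℚ) : K) + (r : K) * (δ : K) := by
    rw [bas_one]
    push_cast
    linear_combination (s : K) * h2
  ext i j
  rw [Algebra.leftMulMatrix_eq_repr_mul]
  fin_cases j
  · show ((bas h).repr (((r : K) + (s : K) * (δ : K)) * bas h 0)) i = _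
    rw [bas_zero, mul_one]
    fin_cases i
    · exact (repr_eq h r s).1
    · exact (repr_eq h r s).2
  · show ((bas h).repr (((r : K) + (s : K) * (δ : K)) * bas h 1)) i = _
    rw [e1]
    fin_cases i
    · exact (repr_eq h _ _).1
    · exact (repr_eq h _ _).2

private theorem normK (h : Quad K q δ) (r s : ℚ) :
    Algebra.norm ℚ ((r : K) + (s : K) * (δ : K)) = r ^ 2 + q * s ^ 2 := by
  rw [Algebra.norm_eq_matrix_det (bas h), mat, Matrix.det_fin_two]
  simp
  ring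

private theorem traceK (h : Quad K q δ) (r s : ℚ) :
    Algebra.trace ℚ K ((r : K) + (s : K) * (δ : K)) = 2 * r := by
  rw [Algebra.trace_eq_matrix_trace (bas h), mat, Matrix.trace_fin_two]
  simp
  ring

theorem norm_int (h : Quad K q δ) (a b : ℤ) :
    Algebra.norm ℤ ((a : 𝓞 K) + (b : 𝓞 K) * δ) = a ^ 2 + q * b ^ 2 := by
  have h1 := Algebra.coe_norm_int ((a : 𝓞 K) + (b : 𝓞 K) * δ)
  have h2 := normK h (a : ℚ) (b : ℚ)
  have h3 : (((a : 𝓞 K) + (b : 𝓞 K) * δ : 𝓞 K) : K) = (((a : ℚ) : K) + ((b : ℚ) : K) * (δ : K)) := by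
    simp
  rw [h3, h2] at h1
  exact_mod_cast h1

theorem four_norm (h : Quad K q δ) (x : 𝓞 K) (u v : ℤ) (hx : 2 * x = (u : 𝓞 K) + (v : 𝓞 K) * δ) :
    4 * Algebra.norm ℤ x = u ^ 2 + q * v ^ 2 := by
  have h1 := norm_int h u v
  rw [← hx, map_mul] at h1
  have h2 := norm_int h 2 0
  have h3 : (((2 : ℤ) : 𝓞 K) + ((0 : ℤ) : 𝓞 K) * δ : 𝓞 K) = 2 := by simp
  rw [h3] at h2
  rw [h2] at h1
  linarith

theorem half_mem (h : Quad K q δ) (u v : ℤ) (huv : (2 : ℤ) ∣ u - v) :
    ∃ x : 𝓞 K, 2 * x = (u : 𝓞 K) + (v : 𝓞 K) * δ := by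
  -- ω = (1 + δ)/2 is integral
  have hq := h.mod4
  obtain ⟨m, hm⟩ : ∃ m : ℕ, q + 1 = 4 * m := ⟨(q + 1) / 4, by omega⟩
  have hmK : (q : K) + 1 = 4 * (m : K) := by exact_mod_cast congrArg (Nat.cast : ℕ → K) hm
  have h2 := sqK h
  have hint : IsIntegral ℤ ((1 + (δ : K)) / 2) := by
    refine ⟨Polynomial.X ^ 2 - Polynomial.X + Polynomial.C (m : ℤ), ?_, ?_⟩
    · have : (Polynomial.X ^ 2 - Polynomial.X + Polynomial.C (m : ℤ) : Polynomial ℤ) =
        Polynomial.X ^ 2 + (-Polynomial.X + Polynomial.C (m : ℤ)) := by ring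
      rw [this]
      apply Polynomial.monic_X_pow_add
      have : (-Polynomial.X + Polynomial.C (m : ℤ) : Polynomial ℤ).degree ≤ 1 := by
        compute_degree
      exact lt_of_le_of_lt this (by norm_num)
    · simp
      field_simp
      linear_combination h2 - hmK
  set ω : 𝓞 K := ⟨(1 + (δ : K)) / 2, hint⟩ with hω
  have hω2 : 2 * ω = 1 + δ := by
    apply RingOfIntegers.ext
    have e2 : algebraMap (𝓞 K) K 2 = 2 := map_ofNat _ 2
    simp [hω, e2]
    ring
  obtain ⟨w, hw⟩ := huv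
  refine ⟨(w : 𝓞 K) + (v : 𝓞 K) * ω, ?_⟩
  have hu : u = 2 * w + v := by linarith
  subst hu
  push_cast
  linear_combination (v : 𝓞 K) * hω2

theorem coords (h : Quad K q δ) (x : 𝓞 K) :
    ∃ u v : ℤ, 2 * x = (u : 𝓞 K) + (v : 𝓞 K) * δ ∧ (2 : ℤ) ∣ u - v := by
  obtain ⟨r, s, hx⟩ := exK h (x : K)
  have hix : IsIntegral ℤ (x : K) := x.2
  have ht : IsIntegral ℤ (Algebra.trace ℚ K (x : K)) := Algebra.isIntegral_trace hix
  have hn : IsIntegral ℤ (Algebra.norm ℚ (x : K)) := Algebra.isIntegral_norm ℚ hix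
  rw [hx, traceK h] at ht
  rw [hx, normK h] at hn
  obtain ⟨u, hu⟩ := IsIntegrallyClosed.isIntegral_iff.1 ht
  obtain ⟨n, hn⟩ := IsIntegrallyClosed.isIntegral_iff.1 hn
  simp only [eq_intCast] at hu hn
  -- `q (2 s)` is an integer
  have hq0 : (q : ℚ) ≠ 0 := by exact_mod_cast h.prime.ne_zero
  have h1 : (q * (2 * s)) ^ 2 = ((q * (4 * n - u ^ 2) : ℤ) : ℚ) := by
    push_cast
    rw [hu, hn]
    ring
  have h2 : IsIntegral ℤ ((q : ℚ) * (2 * s)) := by
    apply IsIntegral.of_pow (n := 2) (by norm_num)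
    rw [h1]
    exact isIntegral_algebraMap (R := ℤ) (A := ℚ) (x := (q * (4 * n - u ^ 2) : ℤ))
  obtain ⟨t, ht⟩ := IsIntegrallyClosed.isIntegral_iff.1 h2
  simp only [eq_intCast] at ht
  rw [← ht] at h1
  have h3 : t ^ 2 = q * (4 * n - u ^ 2) := by exact_mod_cast h1
  have hqp : Prime (q : ℤ) := Nat.prime_iff_prime_int.1 h.prime
  have h4 : (q : ℤ) ∣ t := hqp.dvd_of_dvd_pow (Dvd.intro _ h3.symm)
  obtain ⟨v, rfl⟩ := h4
  have h5 : (v : ℚ) = 2 * s := by
    have : (q : ℚ) * v = q * (2 * s) := by rw [← ht]; push_cast; ring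
    exact mul_left_cancel₀ hq0 this
  have h6 : (q : ℤ) * v ^ 2 = 4 * n - u ^ 2 := by
    have hq1 : (q : ℤ) ≠ 0 := by exact_mod_cast h.prime.ne_zero
    apply mul_left_cancel₀ hq1
    linarith
  refine ⟨u, v, ?_, ?_⟩
  · apply RingOfIntegers.ext
    have : ((2 * x : 𝓞 K) : K) = 2 * (x : K) := by
      have e2 : algebraMap (𝓞 K) K 2 = 2 := map_ofNat _ 2
      rw [← e2, ← map_mul]
    rw [this, hx]
    have e1 : (u : K) = 2 * (r : K) := by
      have : ((u : ℚ) : K) = ((2 * r : ℚ) : K) := by rw [hu]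
      simpa using this
    have e2 : (v : K) = 2 * (s : K) := by
      have : ((v : ℚ) : K) = ((2 * s : ℚ) : K) := by rw [h5]
      simpa using this
    simp [e1, e2]
    ring
  · obtain ⟨m, hm⟩ : ∃ m : ℕ, q = 4 * m + 3 := ⟨q / 4, by have := h.mod4; omega⟩
    rw [hm] at h6
    push_cast at h6
    rcases Int.even_or_odd' u with ⟨a, rfl | rfl⟩ <;> rcases Int.even_or_odd' v with ⟨b, rfl | rfl⟩
    · omega
    · exfalso
      ring_nf at h6
      have h7 : (4 : ℤ) ∣ 3 := ⟨n - a ^ 2 - m * (2 * b + 1) ^ 2 - 3 * b - 3 * b ^ 2, by linarith⟩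
      omega
    · exfalso
      ring_nf at h6
      have h7 : (4 : ℤ) ∣ 1 := ⟨n - a ^ 2 - a - m * (2 * b) ^ 2 - 3 * b ^ 2, by linarith⟩
      omega
    · omega

theorem norm_nonneg (h : Quad K q δ) (x : 𝓞 K) : 0 ≤ Algebra.norm ℤ x := by
  obtain ⟨u, v, hx, -⟩ := coords h x
  have := four_norm h x u v hx
  nlinarith [sq_nonneg u, mul_nonneg (Int.natCast_nonneg q) (sq_nonneg v)]

theorem U2_iff (h : Quad K q δ) (x : 𝓞 K) :
    U2 x ↔ ∃ a b : ℤ, x = (a : 𝓞 K) + (b : 𝓞 K) * δ ∧ Odd (a + b) := by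
  constructor
  · rintro ⟨y, rfl⟩
    obtain ⟨u, v, hy, w, hw⟩ := coords h y
    refine ⟨1 + u, v, by rw [hy]; push_cast; ring, ⟨v + w, by linarith⟩⟩
  · rintro ⟨a, b, rfl, c, hc⟩
    obtain ⟨y, hy⟩ := half_mem h (a - 1) b ⟨c - b, by linarith⟩
    refine ⟨y, ?_⟩
    rw [hy]
    push_cast
    ring

/-- the units are `1` and `-1` -/
theorem unit_eq (h : Quad K q δ) (x : 𝓞 K) (hx : IsUnit x) : x = 1 ∨ x = -1 := by
  obtain ⟨u, v, hxe, -⟩ := coords h x
  have h1 := four_norm h x u v hxe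
  have h2 := norm_nonneg h x
  have h3 : IsUnit (Algebra.norm ℤ x) := hx.map (Algebra.norm ℤ)
  have h4 : Algebra.norm ℤ x = 1 := by
    rcases Int.isUnit_iff.1 h3 with h5 | h5
    · exact h5
    · omega
  rw [h4] at h1
  have hq : (7 : ℤ) ≤ q := by exact_mod_cast h.seven
  have hv : v = 0 := by
    by_contra hv
    have : 1 ≤ v ^ 2 := by
      have := sq_nonneg v
      have h0 : v ^ 2 ≠ 0 := pow_ne_zero 2 hv
      omega
    nlinarith [sq_nonneg u]
  subst hv
  have hu : (u - 2) * (u + 2) = 0 := by linarith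
  have h2ne : (2 : 𝓞 K) ≠ 0 := two_ne_zero
  rcases mul_eq_zero.1 hu with h5 | h5
  · left
    have : u = 2 := by linarith
    subst this
    apply mul_left_cancel₀ h2ne
    rw [hxe]; push_cast; ring
  · right
    have : u = -2 := by linarith
    subst this
    apply mul_left_cancel₀ h2ne
    rw [hxe]; push_cast; ring

end Pool.Agent.Work.MP_a5099b_nt.PrF
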