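import Pool.Agent.Work.MP_a5099b_nt.I.CConj

set_option autoImplicit false

/-!
# CCls (size S-M, uses the statements of CInt, CConj): classes and generators

PROOF. `cls_top`: `cl (⊤ * ⊤) = cl ⊤ * cl ⊤`. `cls_one_iff`: `cl I = 1 = cl ⊤` iff `Rel N I ⊤`, i.e. `(α) I = (β)` with `α, β ≡ 1 mod 2`, `norm α` prime to `N`, `norm α ≡ norm β mod N`. Then `β = α γ` with
`γ ∈ I` (`β ∈ (α) I`), `(α) I = (α)(γ)`, so `I = (γ)` (cancel `(α) ≠ ⊥`), `γ ≡ 1 mod 2` (`U2.of_mul`), `norm α norm γ = norm β ≡ norm α`, so `norm γ ≡ 1` (`norm α` is a unit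
modulo `N`). Conversely take `α = 1`, `β = γ`. `cls_span_eq`: `γ₂ (γ₁) = γ₁ (γ₂)`: `α = γ₂`, `β = γ₁`, norms congruent and prime to `N` (`Sm N (span {γ₂})`, `norm_gen`).
-/

namespace Pool.Agent.Work.MP_a5099b_nt.PrF

open Finset NumberField

variable {K : Type} [Field K] [NumberField K] {q : ℕ} {δ : 𝓞 K} {N : ℕ} {G : Type} [CommGroup G]
  {cl : Ideal (𝓞 K) → G}

theorem cls_top (hc : Cls N G cl) : cl ⊤ = 1 := by
  have h1 := hc.mul ⊤ ⊤ Sm_top Sm_top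
  rw [Ideal.mul_top] at h1
  exact left_eq_mul.1 h1

theorem cls_pow (hc : Cls N G cl) (I : Ideal (𝓞 K)) (hI : Sm N I) (k : ℕ) : cl (I ^ k) = cl I ^ k := by
  induction k with
  | zero => rw [pow_zero, pow_zero, Ideal.one_eq_top, cls_top hc]
  | succ k ih => rw [pow_succ, pow_succ, hc.mul _ _ (Sm_pow hI k) hI, ih]

private theorem U2_ne (h : Quad K q δ) {x : 𝓞 K} (hx : U2 x) : x ≠ 0 := by
  rintro rfl
  obtain ⟨y, hy⟩ := hx
  have h1 : IsUnit (2 : 𝓞 K) := IsUnit.of_mul_eq_one (-y) (by linear_combination hy)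
  rcases unit_eq h _ h1 with h2 | h2
  · have h3 : ((2 : ℕ) : 𝓞 K) = ((1 : ℕ) : 𝓞 K) := by exact_mod_cast h2
    have h4 := Nat.cast_injective h3
    omega
  · have h3 : ((3 : ℕ) : 𝓞 K) = ((0 : ℕ) : 𝓞 K) := by
      push_cast
      linear_combination h2
    have h4 := Nat.cast_injective h3
    omega

theorem cls_one_iff (h : Quad K q δ) (hc : Cls N G cl) (I : Ideal (𝓞 K)) (hI : Sm N I) :
    cl I = 1 ↔ ∃ γ : 𝓞 K, I = Ideal.span {γ} ∧ U2 γ ∧ Algebra.norm ℤ γ ≡ 1 [ZMOD (N : ℤ)] := by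
  rw [← cls_top hc, hc.eq_iff I ⊤ hI Sm_top]
  constructor
  · rintro ⟨α, β, hα, hβ, hcop, hmod, he⟩
    rw [Ideal.mul_top] at he
    have h1 : β ∈ Ideal.span {α} * I := by
      rw [he]
      exact Ideal.mem_span_singleton_self β
    obtain ⟨γ, hγ, rfl⟩ := Ideal.mem_span_singleton_mul.1 h1
    have hα0 : Ideal.span {α} ≠ 0 := by
      rw [Submodule.zero_eq_bot, Ne, Ideal.span_singleton_eq_bot]
      exact U2_ne h hα
    refine ⟨γ, ?_, U2.of_mul hα hβ, ?_⟩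
    · apply mul_left_cancel₀ hα0
      rw [he, Ideal.span_singleton_mul_span_singleton]
    · rw [map_mul] at hmod
      have h2 := (Int.modEq_iff_dvd.1 hmod)
      have h3 : Algebra.norm ℤ α * Algebra.norm ℤ γ - Algebra.norm ℤ α =
          Algebra.norm ℤ α * (Algebra.norm ℤ γ - 1) := by ring
      rw [h3] at h2
      exact (Int.modEq_iff_dvd.2 (hcop.symm.dvd_of_dvd_mul_left h2)).symm
  · rintro ⟨γ, rfl, hγ, hmod⟩
    refine ⟨1, γ, U2_one, hγ, ?_, ?_, ?_⟩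
    · rw [map_one]
      exact isCoprime_one_left
    · rw [map_one]
      exact hmod.symm
    · rw [Ideal.mul_top, Ideal.span_singleton_one, Ideal.top_mul]

theorem cls_span_eq (h : Quad K q δ) (hc : Cls N G cl) (γ₁ γ₂ : 𝓞 K) (h1 : U2 γ₁) (h2 : U2 γ₂)
    (s1 : Sm N (Ideal.span {γ₁})) (s2 : Sm N (Ideal.span {γ₂}))
    (hn : Algebra.norm ℤ γ₁ ≡ Algebra.norm ℤ γ₂ [ZMOD (N : ℤ)]) :
    cl (Ideal.span {γ₁}) = cl (Ideal.span {γ₂}) := by
  rw [hc.eq_iff _ _ s1 s2]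
  refine ⟨γ₂, γ₁, h2, h1, ?_, hn.symm, mul_comm _ _⟩
  have h3 := s2.cop
  rw [← Nat.isCoprime_iff_coprime, norm_gen h] at h3
  exact h3

end Pool.Agent.Work.MP_a5099b_nt.PrF
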