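import Pool.Agent.Work.MP_a5099b_nt.I.DOdd
import Pool.Agent.Work.MP_a5099b_nt.I.CCls

set_option autoImplicit false

/-!
# DPow (size S-M, uses the statements of DOdd, CCls): an odd power is principal

PROOF. `n = card G = 2^t e`, `e` odd (`Nat.exists_eq_two_pow_mul_odd`). `cl (I ^ n) = (cl I) ^ n = 1`, so `I ^ n = (γ)` with `γ ≡ 1 mod 2` (`cls_one_iff`, `cls_pow`). Downward induction on `j = t, ..., 0`:
`I ^ (2^j e) = (γ_j)`, `γ_j ≡ 1 mod 2`; the step is `sqrt_principal` for `I ^ (2^(j-1) e)`, whose norm is prime to `N`, hence odd (`2 ∣ N`). The exponent `e` depends only on `card G`.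
`legendre_one`: with `e` and `γ = a + b δ`, `a + b` odd: `absNorm I ^ e = norm γ = a² + q b² ≡ a² mod q`, and `q ∤ absNorm I` since `q ∣ N`: `legendreSym q (absNorm I) ^ e = 1` and `e` is odd, so
`legendreSym q (absNorm I) = 1`.
-/

namespace Pool.Agent.Work.MP_a5099b_nt.PrF

open Finset NumberField

variable {K : Type} [Field K] [NumberField K] {q : ℕ} {δ : 𝓞 K} {N : ℕ} {G : Type} [CommGroup G] [Fintype G]
  {cl : Ideal (𝓞 K) → G}

theorem odd_power (h : Quad K q δ) (hN : 2 ∣ N) (hc : Cls N G cl) :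
    ∃ e : ℕ, Odd e ∧ ∀ I : Ideal (𝓞 K), Sm N I → ∃ γ : 𝓞 K, U2 γ ∧ I ^ e = Ideal.span {γ} := by
  obtain ⟨t, e, he, hn⟩ := Nat.exists_eq_two_pow_mul_odd (Fintype.card_ne_zero (α := G))
  refine ⟨e, he, fun I hI => ?_⟩
  have hodd : ∀ k, Odd (Ideal.absNorm (I ^ k)) := by
    intro k
    have h1 : (Ideal.absNorm (I ^ k)).Coprime 2 := Nat.Coprime.coprime_dvd_right hN (Sm_pow hI k).2
    exact Nat.coprime_two_right.1 h1
  have key : ∀ j, (∃ γ : 𝓞 K, U2 γ ∧ I ^ (2 ^ j * e) = Ideal.span {γ}) →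
      ∃ γ : 𝓞 K, U2 γ ∧ I ^ e = Ideal.span {γ} := by
    intro j
    induction j with
    | zero => intro h1; simpa using h1
    | succ j ih =>
      rintro ⟨γ, h1, h2⟩
      apply ih
      obtain ⟨γ', h3, h4⟩ := sqrt_principal h (I ^ (2 ^ j * e)) (hodd _) γ h1 (by
        rw [← pow_add, ← h2]
        congr 1
        ring)
      exact ⟨γ', h3, h4⟩
  apply key t
  have h1 : cl (I ^ (2 ^ t * e)) = 1 := by
    rw [cls_pow hc I hI, ← hn, pow_card_eq_one]
  obtain ⟨γ, h2, h3, -⟩ := (cls_one_iff h hc _ (Sm_pow hI _)).1 h1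
  exact ⟨γ, h3, h2⟩

theorem legendre_one (h : Quad K q δ) [Fact q.Prime] (hN : 2 ∣ N) (hq : q ∣ N) (hc : Cls N G cl)
    (I : Ideal (𝓞 K)) (hI : Sm N I) : legendreSym q (Ideal.absNorm I) = 1 := by
  obtain ⟨e, he, H⟩ := odd_power h hN hc
  obtain ⟨γ, h1, h2⟩ := H I hI
  obtain ⟨a, b, h3, -⟩ := (U2_iff h γ).1 h1
  have h4 : ((Ideal.absNorm I : ℕ) : ℤ) ^ e = a ^ 2 + q * b ^ 2 := by
    rw [← norm_int h a b, ← h3, ← norm_gen h γ, ← h2, map_pow]
    push_cast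
    rfl
  have h5 : (((Ideal.absNorm I : ℕ) : ℤ) : ZMod q) ^ e = (a : ZMod q) ^ 2 := by
    have h6 := congrArg (Int.cast : ℤ → ZMod q) h4
    push_cast at h6
    simpa using h6
  have h7 : (((Ideal.absNorm I : ℕ) : ℤ) : ZMod q) ≠ 0 := by
    rw [Int.cast_natCast, Ne, ZMod.natCast_eq_zero_iff]
    intro h8
    have h9 : Nat.Coprime (Ideal.absNorm I) q := Nat.Coprime.coprime_dvd_right hq hI.2
    have h10 : q ∣ 1 := h9 ▸ Nat.dvd_gcd h8 dvd_rfl
    exact h.prime.one_lt.ne' (Nat.dvd_one.1 h10)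
  have h8 : (a : ZMod q) ≠ 0 := by
    intro h9
    rw [h9, zero_pow two_ne_zero] at h5
    exact h7 ((pow_eq_zero_iff (Nat.ne_of_gt he.pos)).1 h5)
  have h9 : quadraticChar (ZMod q) (((Ideal.absNorm I : ℕ) : ℤ) : ZMod q) ^ e = 1 := by
    rw [← map_pow, h5]
    exact quadraticChar_sq_one' h8
  unfold legendreSym
  rcases quadraticChar_dichotomy h7 with h10 | h10
  · exact h10
  · rw [h10, he.neg_one_pow] at h9
    norm_num at h9

end Pool.Agent.Work.MP_a5099b_nt.PrF
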