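import Pool.Agent.Work.MP_a5099b_nt.I.CInt

set_option autoImplicit false

/-!
# CConj (size M, uses the statement of CInt): complex conjugation, norms of ideals
-/

namespace Pool.Agent.Work.MP_a5099b_nt.PrF

open Finset NumberField

variable {K : Type} [Field K] [NumberField K] {q : ℕ} {δ : 𝓞 K}

private noncomputable def cu (h : Quad K q δ) (x : 𝓞 K) : ℤ := (coords h x).choose

private noncomputable def cj (h : Quad K q δ) (x : 𝓞 K) : 𝓞 K := (cu h x : 𝓞 K) - x

private theorem two_ne : (2 : 𝓞 K) ≠ 0 := two_ne_zero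

private theorem cj_spec (h : Quad K q δ) (x : 𝓞 K) (u v : ℤ)
    (hx : 2 * x = (u : 𝓞 K) + (v : 𝓞 K) * δ) : cj h x = (u : 𝓞 K) - x := by
  obtain ⟨v', hv', -⟩ := (coords h x).choose_spec
  have h1 := unique h u v (coords h x).choose v' (hx.symm.trans hv')
  unfold cj cu
  rw [← h1.1]

private theorem cj_two (h : Quad K q δ) (x : 𝓞 K) (u v : ℤ)
    (hx : 2 * x = (u : 𝓞 K) + (v : 𝓞 K) * δ) : 2 * cj h x = (u : 𝓞 K) - (v : 𝓞 K) * δ := by
  rw [cj_spec h x u v hx]
  linear_combination -hx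

private theorem cj_of_two (h : Quad K q δ) (x y : 𝓞 K) (u v : ℤ)
    (hx : 2 * x = (u : 𝓞 K) + (v : 𝓞 K) * δ) (hy : 2 * y = (u : 𝓞 K) - (v : 𝓞 K) * δ) : cj h x = y :=
  mul_left_cancel₀ two_ne ((cj_two h x u v hx).trans hy.symm)

private theorem cj_add (h : Quad K q δ) (x y : 𝓞 K) : cj h (x + y) = cj h x + cj h y := by
  obtain ⟨u, v, hx, -⟩ := coords h x
  obtain ⟨u', v', hy, -⟩ := coords h y
  have hx2 := cj_two h x u v hx
  have hy2 := cj_two h y u' v' hy
  refine cj_of_two h _ _ (u + u') (v + v') ?_ ?_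
  · push_cast
    linear_combination hx + hy
  · push_cast
    linear_combination hx2 + hy2

private theorem cj_mul (h : Quad K q δ) (x y : 𝓞 K) : cj h (x * y) = cj h x * cj h y := by
  obtain ⟨u, v, hx, -⟩ := coords h x
  obtain ⟨u', v', hy, -⟩ := coords h y
  obtain ⟨U, V, hxy, -⟩ := coords h (x * y)
  have hx2 := cj_two h x u v hx
  have hy2 := cj_two h y u' v' hy
  have h2 := cj_two h (x * y) U V hxy
  have hsq := h.sq
  have key := unique h (2 * U) (2 * V) (u * u' - q * (v * v')) (u * v' + u' * v) (by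
    push_cast
    linear_combination (-2 : 𝓞 K) * hxy + 2 * y * hx + ((u : 𝓞 K) + (v : 𝓞 K) * δ) * hy +
      (v : 𝓞 K) * v' * hsq)
  have e1 : (2 : 𝓞 K) * U = u * u' - q * (v * v') := by exact_mod_cast congrArg (Int.cast (R := 𝓞 K)) key.1
  have e2 : (2 : 𝓞 K) * V = u * v' + u' * v := by exact_mod_cast congrArg (Int.cast (R := 𝓞 K)) key.2
  apply mul_left_cancel₀ (two_ne (K := K))
  apply mul_left_cancel₀ (two_ne (K := K))
  linear_combination 2 * h2 + e1 - δ * e2 - 2 * cj h y * hx2 - ((u : 𝓞 K) - (v : 𝓞 K) * δ) * hy2 - (v : 𝓞 K) * v' * hsq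

private theorem cj_cj (h : Quad K q δ) (x : 𝓞 K) : cj h (cj h x) = x := by
  obtain ⟨u, v, hx, -⟩ := coords h x
  have hx2 := cj_two h x u v hx
  refine cj_of_two h _ _ u (-v) ?_ ?_
  · push_cast
    linear_combination hx2
  · push_cast
    linear_combination hx

theorem exists_conj (h : Quad K q δ) : ∃ τ : 𝓞 K ≃+* 𝓞 K, τ δ = -δ := by
  refine ⟨{ toFun := cj h, invFun := cj h, left_inv := cj_cj h, right_inv := cj_cj h,
            map_mul' := cj_mul h, map_add' := cj_add h }, ?_⟩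
  change cj h δ = -δ
  refine cj_of_two h _ _ 0 2 ?_ ?_
  · push_cast
    ring
  · push_cast
    ring

/-- complex conjugation -/
noncomputable def conj (h : Quad K q δ) : 𝓞 K ≃+* 𝓞 K := (exists_conj h).choose

theorem conj_δ (h : Quad K q δ) : conj h δ = -δ := (exists_conj h).choose_spec

theorem conj_coords (h : Quad K q δ) (x : 𝓞 K) (u v : ℤ) (hx : 2 * x = (u : 𝓞 K) + (v : 𝓞 K) * δ) :
    2 * conj h x = (u : 𝓞 K) - (v : 𝓞 K) * δ := by
  have h1 := congrArg (conj h) hx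
  rw [map_mul, map_add, map_mul, map_intCast, map_intCast, map_ofNat, conj_δ] at h1
  rw [h1]
  ring

theorem conj_conj (h : Quad K q δ) (x : 𝓞 K) : conj h (conj h x) = x := by
  obtain ⟨u, v, hx, -⟩ := coords h x
  have h1 := conj_coords h x u v hx
  have h2 := conj_coords h (conj h x) u (-v) (by
    push_cast
    linear_combination h1)
  apply mul_left_cancel₀ (two_ne (K := K))
  rw [h2, hx]
  push_cast
  ring

theorem mul_conj (h : Quad K q δ) (x : 𝓞 K) : x * conj h x = ((Algebra.norm ℤ x : ℤ) : 𝓞 K) := by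
  obtain ⟨u, v, hx, -⟩ := coords h x
  have h1 := conj_coords h x u v hx
  have h2 := four_norm h x u v hx
  have h3 : (4 : 𝓞 K) * ((Algebra.norm ℤ x : ℤ) : 𝓞 K) = (u : 𝓞 K) ^ 2 + q * (v : 𝓞 K) ^ 2 := by
    exact_mod_cast congrArg (Int.cast (R := 𝓞 K)) h2
  have hsq := h.sq
  apply mul_left_cancel₀ (two_ne (K := K))
  apply mul_left_cancel₀ (two_ne (K := K))
  linear_combination 2 * conj h x * hx + ((u : 𝓞 K) + (v : 𝓞 K) * δ) * h1 - h3 - (v : 𝓞 K) ^ 2 * hsq

theorem norm_modEq (h : Quad K q δ) (N : ℕ) (x y z : 𝓞 K) (hxy : x = y + (N : 𝓞 K) * z) :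
    Algebra.norm ℤ x ≡ Algebra.norm ℤ y [ZMOD (N : ℤ)] := by
  rcases Nat.eq_zero_or_pos N with hN | hN
  · subst hN
    have : x = y := by rw [hxy]; push_cast; ring
    rw [this]
  set w : 𝓞 K := y * conj h z + conj h y * z + (N : 𝓞 K) * (z * conj h z) with hw
  have h1 : ((Algebra.norm ℤ x - Algebra.norm ℤ y : ℤ) : 𝓞 K) = (N : 𝓞 K) * w := by
    push_cast
    rw [← mul_conj h x, ← mul_conj h y, hxy, map_add, map_mul, map_natCast, hw]
    ring
  obtain ⟨a, b, hab, hd⟩ := coords h w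
  have h2 := unique h (2 * (Algebra.norm ℤ x - Algebra.norm ℤ y)) 0 (N * a) (N * b) (by
    push_cast at h1 ⊢
    linear_combination 2 * h1 + (N : 𝓞 K) * hab)
  have hb : b = 0 := by
    have := h2.2.symm
    rcases mul_eq_zero.1 this with h3 | h3
    · exfalso
      have : N = 0 := by exact_mod_cast h3
      omega
    · exact h3
  subst hb
  rw [sub_zero] at hd
  obtain ⟨c, hc⟩ := hd
  have h3 : Algebra.norm ℤ x - Algebra.norm ℤ y = N * c := by
    have := h2.1
    rw [hc] at this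
    linarith
  exact (Int.modEq_iff_dvd.2 ⟨c, h3⟩).symm

theorem norm_gen (h : Quad K q δ) (x : 𝓞 K) : ((Ideal.absNorm (Ideal.span {x}) : ℕ) : ℤ) = Algebra.norm ℤ x := by
  rw [Ideal.absNorm_span_singleton, Int.natCast_natAbs, abs_of_nonneg (norm_nonneg h x)]

theorem absNorm_conj (h : Quad K q δ) (I : Ideal (𝓞 K)) :
    Ideal.absNorm (I.map (conj h : 𝓞 K →+* 𝓞 K)) = Ideal.absNorm I := by
  have h1 := Ideal.relNorm_map_algEquiv (R := ℤ) (conj h).toIntAlgEquiv I
  have h2 := congrArg Ideal.absNorm h1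
  rw [Ideal.absNorm_relNorm, Ideal.absNorm_relNorm] at h2
  exact h2

theorem map_conj_mul (h : Quad K q δ) (I : Ideal (𝓞 K)) (hI : I ≠ ⊥) :
    I * I.map (conj h : 𝓞 K →+* 𝓞 K) = Ideal.span {((Ideal.absNorm I : ℕ) : 𝓞 K)} := by
  set J := I * I.map (conj h : 𝓞 K →+* 𝓞 K) with hJ
  have hle : Ideal.span {((Ideal.absNorm I : ℕ) : 𝓞 K)} ≤ J := by
    have h1 := Ideal.map_relNorm ℤ I (algebraMap ℤ (𝓞 K))
    rw [Ideal.relNorm_int, Ideal.map_span, Set.image_singleton] at h1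
    have h2 : algebraMap ℤ (𝓞 K) (Ideal.absNorm I : ℤ) = ((Ideal.absNorm I : ℕ) : 𝓞 K) := by
      simp
    rw [h2] at h1
    rw [h1, Ideal.span_le]
    rintro _ ⟨x, hx, rfl⟩
    have h3 : (algebraMap ℤ (𝓞 K) ∘ Algebra.intNorm ℤ (𝓞 K)) x = x * conj h x := by
      rw [mul_conj, Function.comp_apply, Algebra.intNorm_eq_norm]
      simp
    rw [h3]
    exact Ideal.mul_mem_mul hx (Ideal.mem_map_of_mem _ hx)
  obtain ⟨L, hL⟩ := Ideal.dvd_iff_le.2 hle
  have hn := congrArg Ideal.absNorm hL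
  rw [map_mul, hJ, map_mul, absNorm_conj, Ideal.absNorm_span_singleton] at hn
  have hn0 : 0 < Ideal.absNorm I := Nat.pos_of_ne_zero fun h0 => hI (Ideal.absNorm_eq_zero_iff.1 h0)
  have h4 : Algebra.norm ℤ ((Ideal.absNorm I : ℕ) : 𝓞 K) = ((Ideal.absNorm I : ℕ) : ℤ) ^ 2 := by
    have := norm_int h (Ideal.absNorm I : ℤ) 0
    simpa using this
  rw [h4, Int.natAbs_pow, Int.natAbs_natCast] at hn
  have h5 : Ideal.absNorm L = 1 := by
    have : Ideal.absNorm I * Ideal.absNorm I * 1 = Ideal.absNorm I * Ideal.absNorm I * Ideal.absNorm L := by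
      rw [← hn]; ring
    exact (Nat.eq_of_mul_eq_mul_left (Nat.mul_pos hn0 hn0) this).symm
  rw [Ideal.absNorm_eq_one_iff] at h5
  rw [hL, h5, Ideal.mul_top]

end Pool.Agent.Work.MP_a5099b_nt.PrF
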