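import Mathlib

set_option autoImplicit false

/-!
# Definitions for the analytic part (abstract Dirichlet theorem)

`G`: finite class group; `c n g` = number of elements (ideals) of norm `n` and class `g`, `lam n g` = sum of the
values of the von Mangoldt function over the elements of norm `n` and class `g`.
-/

namespace Pool.Agent.Work.MP_a5099b_nt.PrF

open Finset

open scoped Classical in
/-- abstract data of an arithmetical semigroup with a finite class group -/
structure Dat {G : Type} [CommGroup G] [Fintype G] (c lam : ℕ → G → ℝ) (κ C : ℝ) : Prop where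
  c0 : ∀ n g, 0 ≤ c n g
  l0 : ∀ n g, 0 ≤ lam n g
  one : ∀ g, c 1 g = if g = 1 then 1 else 0
  conv : ∀ n : ℕ, 1 ≤ n → ∀ g, c n g * Real.log n =
    ∑ p ∈ n.divisorsAntidiagonal, ∑ h, lam p.1 h * c p.2 (h⁻¹ * g)
  kpos : 0 < κ
  cnt : ∀ g, ∀ n : ℕ, |∑ k ∈ Icc 1 n, c k g - κ * n| ≤ C * Real.sqrt n

/-- coefficients twisted by a character -/
noncomputable def tw {G : Type} [CommGroup G] [Fintype G] (c : ℕ → G → ℝ) (χ : G →* ℂˣ) (n : ℕ) : ℂ :=
  ∑ g, (c n g : ℂ) * ((χ g : ℂˣ) : ℂ)

theorem finite_char (G : Type) [CommGroup G] [Fintype G] : Finite (G →* ℂˣ) := by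
  infer_instance

noncomputable instance fintypeChar (G : Type) [CommGroup G] [Fintype G] : Fintype (G →* ℂˣ) :=
  @Fintype.ofFinite _ (finite_char G)

end Pool.Agent.Work.MP_a5099b_nt.PrF
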