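import Pool.Agent.Work.MP_a5099b_nt.I.ADefs

set_option autoImplicit false

/-!
# ALip (size M, Mathlib only): L-series with small partial sums are Lipschitz near `s = 1`

PROOF. Let `A(x) = ∑_{1 ≤ k ≤ x} f k`, `|A(x)| ≤ C x^(3/4)` for `x ≥ 1`. `LSeries_eq_mul_integral` (Mathlib, `r = 3/4`): for real `s > 1`
`L(s) = s ∫_1^∞ A(x) x^(-s-1) dx`. For `1 ≤ x`, `1 < s, t ≤ 2`: `|x^(-s-1) - x^(-t-1)| ≤ |s - t| x^(-2) log x` (mean value theorem for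
`u ↦ x^(-u-1)`, derivative `- log x x^(-u-1)`, `x^(-u-1) ≤ x^(-2)`), and `log x ≤ 8 x^(1/8)` (`Real.log_le_rpow_div`). Hence with `J(s) = ∫_1^∞ A(x) x^(-s-1) dx`:
`|J(s)| ≤ C ∫_1^∞ x^(3/4 - 2) dx = 4 C`, `|J(s) - J(t)| ≤ |s - t| * 8 C ∫_1^∞ x^(3/4 - 2 + 1/8) dx = 64 C |s - t|` (`integral_Ioi_rpow_of_lt`),
and `|L(s) - L(t)| ≤ |s - t| |J(s)| + 2 |J(s) - J(t)|`.
`lim_exists`: the function is Lipschitz on `(1, 2]`, so it has a limit `L` at `1` (Cauchy, e.g. `LipschitzOnWith`/`cauchy_map_iff_exists_tendsto`, or take the sequence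
`s_n = 1 + 1/(n+1)`), and pass to the limit `t → 1` in the Lipschitz inequality.
`bdd`: immediate from `lim_exists` (`D` may be negative a priori, use `|D|`).
-/

namespace Pool.Agent.Work.MP_a5099b_nt.PrF

open Finset

open MeasureTheory Filter Asymptotics in
private noncomputable def JJ (f : ℕ → ℂ) (s : ℝ) : ℂ :=
  ∫ t in Set.Ioi (1 : ℝ), (∑ k ∈ Icc 1 ⌊t⌋₊, f k) * (t : ℂ) ^ (-((s : ℂ) + 1))

private theorem C_nonneg {f : ℕ → ℂ} {C : ℝ}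
    (hf : ∀ n : ℕ, ‖∑ k ∈ Icc 1 n, f k‖ ≤ C * (n : ℝ) ^ (3 / 4 : ℝ)) : 0 ≤ C := by
  have h := hf 1
  simp only [Nat.cast_one, Real.one_rpow, mul_one] at h
  exact (norm_nonneg _).trans h

private theorem A_bound {f : ℕ → ℂ} {C : ℝ}
    (hf : ∀ n : ℕ, ‖∑ k ∈ Icc 1 n, f k‖ ≤ C * (n : ℝ) ^ (3 / 4 : ℝ)) {x : ℝ} (hx : 1 < x) :
    ‖∑ k ∈ Icc 1 ⌊x⌋₊, f k‖ ≤ C * x ^ (3 / 4 : ℝ) := by
  refine (hf _).trans (mul_le_mul_of_nonneg_left ?_ (C_nonneg hf))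
  exact Real.rpow_le_rpow (Nat.cast_nonneg _) (Nat.floor_le (by linarith)) (by norm_num)

private theorem pow_cast {x : ℝ} (s : ℝ) (hx : 0 ≤ x) :
    (x : ℂ) ^ (-((s : ℂ) + 1)) = ((x ^ (-(s + 1)) : ℝ) : ℂ) := by
  rw [Complex.ofReal_cpow hx]
  push_cast
  rfl

private theorem pow_diff_aux {x s t : ℝ} (hx : 1 < x) (hs : 1 ≤ s) (hst : s ≤ t) :
    |x ^ (-(s + 1)) - x ^ (-(t + 1))| ≤ |s - t| * (8 * x ^ (-2 + 1 / 8 : ℝ)) := by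
  have hx0 : 0 < x := by linarith
  have h1 : x ^ (-(t + 1)) = x ^ (-(s + 1)) * x ^ (-(t - s)) := by
    rw [← Real.rpow_add hx0]
    congr 1
    ring
  have h2 : 1 - (t - s) * Real.log x ≤ x ^ (-(t - s)) := by
    rw [Real.rpow_def_of_pos hx0]
    have := Real.add_one_le_exp (Real.log x * -(t - s))
    linarith
  have h3 : x ^ (-(t - s)) ≤ 1 := Real.rpow_le_one_of_one_le_of_nonpos hx.le (by linarith)
  have h4 : Real.log x ≤ x ^ (1 / 8 : ℝ) / (1 / 8) := Real.log_le_rpow_div hx0.le (by norm_num)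
  have h5 : x ^ (-(s + 1)) ≤ x ^ (-2 : ℝ) :=
    Real.rpow_le_rpow_of_exponent_le hx.le (by linarith)
  have h6 : 0 < x ^ (-(s + 1)) := Real.rpow_pos_of_pos hx0 _
  have h7 : x ^ (-(s + 1)) - x ^ (-(t + 1)) = x ^ (-(s + 1)) * (1 - x ^ (-(t - s))) := by
    rw [h1]; ring
  rw [h7, abs_of_nonneg (mul_nonneg h6.le (by linarith)), abs_of_nonpos (by linarith)]
  calc x ^ (-(s + 1)) * (1 - x ^ (-(t - s))) ≤ x ^ (-2 : ℝ) * ((t - s) * (x ^ (1 / 8 : ℝ) / (1 / 8))) := by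
        refine mul_le_mul h5 ?_ (by linarith) (Real.rpow_pos_of_pos hx0 _).le
        have : (t - s) * Real.log x ≤ (t - s) * (x ^ (1 / 8 : ℝ) / (1 / 8)) :=
          mul_le_mul_of_nonneg_left h4 (by linarith)
        linarith
    _ = -(s - t) * (8 * x ^ (-2 + 1 / 8 : ℝ)) := by
        rw [Real.rpow_add hx0]
        ring

private theorem pow_diff {x s t : ℝ} (hx : 1 < x) (hs : 1 ≤ s) (ht : 1 ≤ t) :
    |x ^ (-(s + 1)) - x ^ (-(t + 1))| ≤ |s - t| * (8 * x ^ (-2 + 1 / 8 : ℝ)) := by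
  rcases le_total s t with h | h
  · exact pow_diff_aux hx hs h
  · rw [abs_sub_comm, abs_sub_comm s t]
    exact pow_diff_aux hx ht h

open MeasureTheory in
private theorem meas_A (f : ℕ → ℂ) : Measurable (fun x : ℝ => ∑ k ∈ Icc 1 ⌊x⌋₊, f k) :=
  (measurable_from_nat (f := fun n => ∑ k ∈ Icc 1 n, f k)).comp Nat.measurable_floor

open MeasureTheory in
private theorem integrable_J {f : ℕ → ℂ} {C : ℝ}
    (hf : ∀ n : ℕ, ‖∑ k ∈ Icc 1 n, f k‖ ≤ C * (n : ℝ) ^ (3 / 4 : ℝ)) {s : ℝ} (hs : 1 ≤ s) :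
    IntegrableOn (fun t : ℝ => (∑ k ∈ Icc 1 ⌊t⌋₊, f k) * (t : ℂ) ^ (-((s : ℂ) + 1)))
      (Set.Ioi (1 : ℝ)) ∧
    ∀ t : ℝ, 1 < t → ‖(∑ k ∈ Icc 1 ⌊t⌋₊, f k) * (t : ℂ) ^ (-((s : ℂ) + 1))‖ ≤
      C * t ^ (-5 / 4 : ℝ) := by
  have hb : ∀ t : ℝ, 1 < t → ‖(∑ k ∈ Icc 1 ⌊t⌋₊, f k) * (t : ℂ) ^ (-((s : ℂ) + 1))‖ ≤
      C * t ^ (-5 / 4 : ℝ) := by
    intro t ht
    have ht0 : 0 < t := by linarith
    rw [pow_cast s ht0.le, norm_mul, Complex.norm_real, Real.norm_eq_abs,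
      abs_of_pos (Real.rpow_pos_of_pos ht0 _)]
    have h1 : t ^ (-(s + 1)) ≤ t ^ (-2 : ℝ) :=
      Real.rpow_le_rpow_of_exponent_le ht.le (by linarith)
    calc ‖∑ k ∈ Icc 1 ⌊t⌋₊, f k‖ * t ^ (-(s + 1)) ≤ (C * t ^ (3 / 4 : ℝ)) * t ^ (-2 : ℝ) :=
          mul_le_mul (A_bound hf ht) h1 (Real.rpow_pos_of_pos ht0 _).le
            (mul_nonneg (C_nonneg hf) (Real.rpow_pos_of_pos ht0 _).le)
      _ = C * t ^ (-5 / 4 : ℝ) := by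
        rw [mul_assoc, ← Real.rpow_add ht0]
        norm_num
  refine ⟨?_, hb⟩
  have hg : IntegrableOn (fun t : ℝ => C * t ^ (-5 / 4 : ℝ)) (Set.Ioi (1 : ℝ)) :=
    (integrableOn_Ioi_rpow_of_lt (by norm_num) one_pos).const_mul C
  refine Integrable.mono' hg ?_ ((ae_restrict_iff' measurableSet_Ioi).2
    (Filter.Eventually.of_forall fun t ht => hb t ht))
  exact ((meas_A f).mul (Complex.measurable_ofReal.pow_const _)).aestronglyMeasurable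

open MeasureTheory in
private theorem key {f : ℕ → ℂ} {C : ℝ}
    (hf : ∀ n : ℕ, ‖∑ k ∈ Icc 1 n, f k‖ ≤ C * (n : ℝ) ^ (3 / 4 : ℝ)) :
    ∃ D : ℝ, 0 ≤ D ∧ ∀ s t : ℝ, 1 ≤ s → s ≤ 2 → 1 ≤ t → t ≤ 2 →
      ‖(s : ℂ) * JJ f s - (t : ℂ) * JJ f t‖ ≤ D * |s - t| := by
  have hC := C_nonneg hf
  have hK1 : 0 ≤ ∫ t in Set.Ioi (1 : ℝ), C * t ^ (-5 / 4 : ℝ) :=
    setIntegral_nonneg measurableSet_Ioi fun t ht => mul_nonneg hC
      (Real.rpow_pos_of_pos (lt_trans one_pos ht) _).le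
  have hK2 : 0 ≤ ∫ t in Set.Ioi (1 : ℝ), 8 * C * t ^ (-9 / 8 : ℝ) :=
    setIntegral_nonneg measurableSet_Ioi fun t ht => mul_nonneg (by positivity)
      (Real.rpow_pos_of_pos (lt_trans one_pos ht) _).le
  refine ⟨(∫ t in Set.Ioi (1 : ℝ), C * t ^ (-5 / 4 : ℝ)) +
    2 * ∫ t in Set.Ioi (1 : ℝ), 8 * C * t ^ (-9 / 8 : ℝ), by positivity, ?_⟩
  intro s t hs hs2 ht ht2
  have hJ : ‖JJ f s‖ ≤ ∫ t in Set.Ioi (1 : ℝ), C * t ^ (-5 / 4 : ℝ) := by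
    refine norm_integral_le_of_norm_le
      ((integrableOn_Ioi_rpow_of_lt (by norm_num) one_pos).const_mul C) ?_
    exact (ae_restrict_iff' measurableSet_Ioi).2
      (Filter.Eventually.of_forall fun t ht => (integrable_J hf hs).2 t ht)
  have hJJ : ‖JJ f s - JJ f t‖ ≤ |s - t| * ∫ t in Set.Ioi (1 : ℝ), 8 * C * t ^ (-9 / 8 : ℝ) := by
    unfold JJ
    rw [← integral_sub (integrable_J hf hs).1 (integrable_J hf ht).1, ← integral_const_mul]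
    refine norm_integral_le_of_norm_le
      (((integrableOn_Ioi_rpow_of_lt (by norm_num) one_pos).const_mul (8 * C)).const_mul _) ?_
    refine (ae_restrict_iff' measurableSet_Ioi).2 (Filter.Eventually.of_forall fun x hx => ?_)
    have hx1 : 1 < x := hx
    have hx0 : 0 < x := by linarith
    rw [← mul_sub, pow_cast s hx0.le, pow_cast t hx0.le, ← Complex.ofReal_sub, norm_mul,
      Complex.norm_real, Real.norm_eq_abs]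
    calc ‖∑ k ∈ Icc 1 ⌊x⌋₊, f k‖ * |x ^ (-(s + 1)) - x ^ (-(t + 1))|
        ≤ (C * x ^ (3 / 4 : ℝ)) * (|s - t| * (8 * x ^ (-2 + 1 / 8 : ℝ))) :=
          mul_le_mul (A_bound hf hx1) (pow_diff hx1 hs ht) (abs_nonneg _)
            (mul_nonneg hC (Real.rpow_pos_of_pos hx0 _).le)
      _ = |s - t| * (8 * C * (x ^ (3 / 4 : ℝ) * x ^ (-2 + 1 / 8 : ℝ))) := by ring
      _ = |s - t| * (8 * C * x ^ (-9 / 8 : ℝ)) := by
        rw [← Real.rpow_add hx0]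
        norm_num
  have h1 : (s : ℂ) * JJ f s - (t : ℂ) * JJ f t =
      ((s - t : ℝ) : ℂ) * JJ f s + (t : ℂ) * (JJ f s - JJ f t) := by
    push_cast
    ring
  rw [h1]
  refine (norm_add_le _ _).trans ?_
  rw [norm_mul, norm_mul, Complex.norm_real, Complex.norm_real, Real.norm_eq_abs,
    Real.norm_eq_abs, abs_of_nonneg (by linarith : 0 ≤ t)]
  calc |s - t| * ‖JJ f s‖ + t * ‖JJ f s - JJ f t‖
      ≤ |s - t| * (∫ t in Set.Ioi (1 : ℝ), C * t ^ (-5 / 4 : ℝ)) +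
        2 * (|s - t| * ∫ t in Set.Ioi (1 : ℝ), 8 * C * t ^ (-9 / 8 : ℝ)) := by
        refine add_le_add (mul_le_mul_of_nonneg_left hJ (abs_nonneg _)) ?_
        exact mul_le_mul ht2 hJJ (norm_nonneg _) (by norm_num)
    _ = _ := by ring

open Filter Asymptotics in
private theorem L_eq {f : ℕ → ℂ} {C : ℝ}
    (hf : ∀ n : ℕ, ‖∑ k ∈ Icc 1 n, f k‖ ≤ C * (n : ℝ) ^ (3 / 4 : ℝ))
    (hs : ∀ s : ℝ, 1 < s → LSeriesSummable f s) {s : ℝ} (h1 : 1 < s) :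
    LSeries f s = (s : ℂ) * JJ f s := by
  refine LSeries_eq_mul_integral f (r := 3 / 4) (by norm_num) ?_ (hs s h1) ?_
  · rw [Complex.ofReal_re]
    linarith
  · refine IsBigO.of_bound C (Eventually.of_forall fun n => ?_)
    rw [Real.norm_eq_abs, abs_of_nonneg (Real.rpow_nonneg (Nat.cast_nonneg n) _)]
    exact hf n

theorem lip (f : ℕ → ℂ) (C : ℝ) (hf : ∀ n : ℕ, ‖∑ k ∈ Icc 1 n, f k‖ ≤ C * (n : ℝ) ^ (3 / 4 : ℝ))
    (hs : ∀ s : ℝ, 1 < s → LSeriesSummable f s) :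
    ∃ D : ℝ, ∀ s t : ℝ, 1 < s → s ≤ 2 → 1 < t → t ≤ 2 → ‖LSeries f s - LSeries f t‖ ≤ D * |s - t| := by
  obtain ⟨D, _, hD⟩ := key hf
  refine ⟨D, fun s t h1 h2 h3 h4 => ?_⟩
  rw [L_eq hf hs h1, L_eq hf hs h3]
  exact hD s t h1.le h2 h3.le h4

theorem lim_exists (f : ℕ → ℂ) (C : ℝ) (hf : ∀ n : ℕ, ‖∑ k ∈ Icc 1 n, f k‖ ≤ C * (n : ℝ) ^ (3 / 4 : ℝ))
    (hs : ∀ s : ℝ, 1 < s → LSeriesSummable f s) :
    ∃ (D : ℝ) (L : ℂ), 0 ≤ D ∧ ∀ s : ℝ, 1 < s → s ≤ 2 → ‖LSeries f s - L‖ ≤ D * (s - 1) := by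
  obtain ⟨D, hD0, hD⟩ := key hf
  refine ⟨D, ((1 : ℝ) : ℂ) * JJ f 1, hD0, fun s h1 h2 => ?_⟩
  rw [L_eq hf hs h1]
  have := hD s 1 h1.le h2 le_rfl (by norm_num)
  rwa [abs_of_nonneg (by linarith)] at this

theorem bdd (f : ℕ → ℂ) (C : ℝ) (hf : ∀ n : ℕ, ‖∑ k ∈ Icc 1 n, f k‖ ≤ C * (n : ℝ) ^ (3 / 4 : ℝ))
    (hs : ∀ s : ℝ, 1 < s → LSeriesSummable f s) :
    ∃ B : ℝ, ∀ s : ℝ, 1 < s → s ≤ 2 → ‖LSeries f s‖ ≤ B := by
  obtain ⟨D, L, hD0, hD⟩ := lim_exists f C hf hs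
  refine ⟨D + ‖L‖, fun s h1 h2 => ?_⟩
  have h3 : LSeries f s = (LSeries f s - L) + L := by ring
  rw [h3]
  refine (norm_add_le _ _).trans (add_le_add ?_ le_rfl)
  refine (hD s h1 h2).trans ?_
  nlinarith

end Pool.Agent.Work.MP_a5099b_nt.PrF
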