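import Pool.Agent.Work.MP_a5099b_nt.I.ADefs

set_option autoImplicit false

/-!
# ALog (size S-M, Mathlib only): partial sums with weight `log`

PROOF. Abel summation: with `A(n) = ∑_{1 ≤ k ≤ n} f k` one has by induction on `n ≥ 1`
`∑_{1 ≤ k ≤ n} f k log k = A(n) log n - ∑_{1 ≤ k < n} A(k) (log (k+1) - log k)`. Here `0 ≤ log (k+1) - log k ≤ 1/k`, `|A(k)| ≤ C √k`, so the second sum is at
most `C ∑_{k<n} 1/√k ≤ 2 C √n` (induction: `2 √n + 1/√n ≤ 2 √(n+1)` is false, use `2 √(n+1) - 2 √n ≥ 1/√(n+1)` or simply bound by `2 √n` with `∑_{k ≤ n} 1/√k ≤ 2 √n`), and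
`√n log n ≤ 4 n^(3/4)` (`Real.log_le_rpow_div` with exponent `1/4`), `√n ≤ n^(3/4)` for `n ≥ 1`. `D = 6 C` works (`C ≥ 0` follows from `n = 1`). `n = 0`: both sides are `0`.
`sqrt_le`: `√n ≤ n^(3/4)` for natural numbers `n`; a partial sum bound with `√n` is one with `n^(3/4)`.
-/

namespace Pool.Agent.Work.MP_a5099b_nt.PrF

open Finset

private theorem abel_log (f : ℕ → ℂ) (n : ℕ) :
    ∑ k ∈ Icc 1 (n + 1), f k * (Real.log k : ℂ) =
      (∑ k ∈ Icc 1 (n + 1), f k) * (Real.log ((n + 1 : ℕ) : ℝ) : ℂ) -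
        ∑ k ∈ Icc 1 n, (∑ i ∈ Icc 1 k, f i) *
          (((Real.log ((k + 1 : ℕ) : ℝ) - Real.log (k : ℝ) : ℝ)) : ℂ) := by
  induction n with
  | zero => simp
  | succ n ih =>
    have e1 := Finset.sum_Icc_succ_top (by omega : 1 ≤ n + 1 + 1)
      (fun k : ℕ => f k * (Real.log k : ℂ))
    have e2 := Finset.sum_Icc_succ_top (by omega : 1 ≤ n + 1 + 1) f
    have e3 := Finset.sum_Icc_succ_top (by omega : 1 ≤ n + 1) (fun k : ℕ =>
      (∑ i ∈ Icc 1 k, f i) * (((Real.log ((k + 1 : ℕ) : ℝ) - Real.log (k : ℝ) : ℝ)) : ℂ))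
    rw [e1, ih, e3, e2]
    generalize ∑ k ∈ Icc 1 n, (∑ i ∈ Icc 1 k, f i) *
      (((Real.log ((k + 1 : ℕ) : ℝ) - Real.log (k : ℝ) : ℝ)) : ℂ) = Z
    generalize ∑ k ∈ Icc 1 (n + 1), f k = Y
    push_cast
    ring

private theorem sum_inv_sqrt (n : ℕ) :
    ∑ k ∈ Icc 1 n, Real.sqrt k * (1 / (k : ℝ)) ≤ 2 * Real.sqrt n := by
  induction n with
  | zero => simp
  | succ n ih =>
    rw [Finset.sum_Icc_succ_top (by omega)]
    have h1 : (0 : ℝ) < ((n + 1 : ℕ) : ℝ) := by positivity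
    have hb : 0 < Real.sqrt ((n + 1 : ℕ) : ℝ) := Real.sqrt_pos.2 h1
    have ha : 0 ≤ Real.sqrt (n : ℝ) := Real.sqrt_nonneg _
    have hb2 : Real.sqrt ((n + 1 : ℕ) : ℝ) ^ 2 = (n : ℝ) + 1 := by
      rw [Real.sq_sqrt h1.le]; push_cast; ring
    have ha2 : Real.sqrt (n : ℝ) ^ 2 = (n : ℝ) := Real.sq_sqrt (Nat.cast_nonneg n)
    have h2 : Real.sqrt ((n + 1 : ℕ) : ℝ) * (1 / ((n + 1 : ℕ) : ℝ)) =
        1 / Real.sqrt ((n + 1 : ℕ) : ℝ) := by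
      rw [mul_one_div, Real.sqrt_div_self']
    have hab : Real.sqrt (n : ℝ) ≤ Real.sqrt ((n + 1 : ℕ) : ℝ) :=
      Real.sqrt_le_sqrt (by push_cast; linarith)
    rw [h2]
    have h4 : 1 / Real.sqrt ((n + 1 : ℕ) : ℝ) ≤
        2 * Real.sqrt ((n + 1 : ℕ) : ℝ) - 2 * Real.sqrt (n : ℝ) := by
      rw [div_le_iff₀ hb]
      nlinarith
    linarith

theorem log_partial (f : ℕ → ℂ) (C : ℝ) (hf : ∀ n : ℕ, ‖∑ k ∈ Icc 1 n, f k‖ ≤ C * Real.sqrt n) :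
    ∃ D : ℝ, ∀ n : ℕ, ‖∑ k ∈ Icc 1 n, f k * (Real.log k : ℂ)‖ ≤ D * (n : ℝ) ^ (3 / 4 : ℝ) := by
  have hC : 0 ≤ C := by
    have h := hf 1
    simp only [Nat.cast_one, Real.sqrt_one, mul_one] at h
    exact (norm_nonneg _).trans h
  refine ⟨6 * C, fun n => ?_⟩
  rcases n with _ | n
  · simp
  rw [abel_log]
  have hN : (1 : ℝ) ≤ ((n + 1 : ℕ) : ℝ) := by
    push_cast
    have : (0 : ℝ) ≤ n := Nat.cast_nonneg n
    linarith
  set N : ℝ := ((n + 1 : ℕ) : ℝ) with hNdef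
  have hN0 : 0 < N := by linarith
  have h1 : ‖(∑ k ∈ Icc 1 (n + 1), f k) * (Real.log N : ℂ)‖ ≤ 4 * C * N ^ (3 / 4 : ℝ) := by
    rw [norm_mul, Complex.norm_real, Real.norm_eq_abs, abs_of_nonneg (Real.log_nonneg hN)]
    have h2 : Real.log N ≤ N ^ (1 / 4 : ℝ) / (1 / 4) :=
      Real.log_le_rpow_div hN0.le (by norm_num)
    have h3 : N ^ (3 / 4 : ℝ) = Real.sqrt N * N ^ (1 / 4 : ℝ) := by
      rw [Real.sqrt_eq_rpow, ← Real.rpow_add hN0]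
      norm_num
    calc ‖∑ k ∈ Icc 1 (n + 1), f k‖ * Real.log N ≤ (C * Real.sqrt N) * (N ^ (1 / 4 : ℝ) / (1 / 4)) :=
          mul_le_mul (hf (n + 1)) h2 (Real.log_nonneg hN) (by positivity)
      _ = 4 * C * N ^ (3 / 4 : ℝ) := by rw [h3]; ring
  have h2 : ‖∑ k ∈ Icc 1 n, (∑ i ∈ Icc 1 k, f i) *
      (((Real.log ((k + 1 : ℕ) : ℝ) - Real.log (k : ℝ) : ℝ)) : ℂ)‖ ≤ 2 * C * N ^ (3 / 4 : ℝ) := by
    refine (norm_sum_le _ _).trans ?_
    have h3 : ∀ k ∈ Icc 1 n, ‖(∑ i ∈ Icc 1 k, f i) *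
        (((Real.log ((k + 1 : ℕ) : ℝ) - Real.log (k : ℝ) : ℝ)) : ℂ)‖ ≤
        C * (Real.sqrt k * (1 / (k : ℝ))) := by
      intro k hk
      have hk1 : (1 : ℝ) ≤ (k : ℝ) := by exact_mod_cast (Finset.mem_Icc.1 hk).1
      have hk0 : (0 : ℝ) < k := by linarith
      have h4 : 0 ≤ Real.log ((k + 1 : ℕ) : ℝ) - Real.log (k : ℝ) := by
        rw [sub_nonneg]
        exact Real.log_le_log hk0 (by push_cast; linarith)
      have h5 : Real.log ((k + 1 : ℕ) : ℝ) - Real.log (k : ℝ) ≤ 1 / (k : ℝ) := by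
        rw [← Real.log_div (by positivity) hk0.ne']
        refine (Real.log_le_sub_one_of_pos (by positivity)).trans (le_of_eq ?_)
        push_cast
        field_simp
        ring
      rw [norm_mul, Complex.norm_real, Real.norm_eq_abs, abs_of_nonneg h4]
      calc ‖∑ i ∈ Icc 1 k, f i‖ * (Real.log ((k + 1 : ℕ) : ℝ) - Real.log (k : ℝ))
          ≤ (C * Real.sqrt k) * (1 / (k : ℝ)) :=
            mul_le_mul (hf k) h5 h4 (by positivity)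
        _ = C * (Real.sqrt k * (1 / (k : ℝ))) := by ring
    refine (Finset.sum_le_sum h3).trans ?_
    rw [← Finset.mul_sum]
    have h6 : Real.sqrt n ≤ N ^ (3 / 4 : ℝ) := by
      have h7 : Real.sqrt n ≤ Real.sqrt N := Real.sqrt_le_sqrt (by rw [hNdef]; push_cast; linarith)
      refine h7.trans ?_
      rw [Real.sqrt_eq_rpow]
      exact Real.rpow_le_rpow_of_exponent_le hN (by norm_num)
    calc C * ∑ k ∈ Icc 1 n, Real.sqrt k * (1 / (k : ℝ)) ≤ C * (2 * Real.sqrt n) :=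
          mul_le_mul_of_nonneg_left (sum_inv_sqrt n) hC
      _ ≤ C * (2 * N ^ (3 / 4 : ℝ)) := by gcongr
      _ = 2 * C * N ^ (3 / 4 : ℝ) := by ring
  refine (norm_sub_le _ _).trans ?_
  linarith

theorem sqrt_le (f : ℕ → ℂ) (C : ℝ) (hf : ∀ n : ℕ, ‖∑ k ∈ Icc 1 n, f k‖ ≤ C * Real.sqrt n) :
    ∀ n : ℕ, ‖∑ k ∈ Icc 1 n, f k‖ ≤ C * (n : ℝ) ^ (3 / 4 : ℝ) := by
  have hC : 0 ≤ C := by
    have h := hf 1
    simp only [Nat.cast_one, Real.sqrt_one, mul_one] at h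
    exact (norm_nonneg _).trans h
  intro n
  refine (hf n).trans (mul_le_mul_of_nonneg_left ?_ hC)
  rcases n with _ | n
  · simp [Real.zero_rpow]
  · rw [Real.sqrt_eq_rpow]
    refine Real.rpow_le_rpow_of_exponent_le ?_ (by norm_num)
    push_cast
    have : (0 : ℝ) ≤ n := Nat.cast_nonneg n
    linarith

end Pool.Agent.Work.MP_a5099b_nt.PrF
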