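import Pool.Agent.Work.MP_a5099b_nt.I.ANv

set_option autoImplicit false

/-!
# AMain (size M, uses the statements of ANv, APart, AProd, ATw, AExp, AOrth): divergence in every class

PROOF. For real `s > 1` put `Z_χ(s) = LSeries (tw lam χ) s`; `Z_χ(s) * LSeries (tw c χ) s = LSeries (tw c χ * log) s` (`lseries_mul` with `tw_conv`). For `χ ≠ 1` the function `Z_χ` is bounded
for `1 < s < s₀`: the right side is bounded (`tw_log_bdd`), the factor is bounded below by `ε` (`nonvanish` if `χ² ≠ 1`, `hreal` otherwise). For `χ = 1`: `‖Z_1(s)‖ ≥ T` for `1 < s < s₀(T)`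
(`one_log`), and `Z_1(s)` is a sum of nonnegative reals. By orthogonality (`sum_over_char`) `∑_χ χ(g)⁻¹ Z_χ(s) = card G * LSeries (lam · g) s`
(`∑_χ χ(g⁻¹) χ(h) = card G * [h = g]`), and `LSeries (lam · g) s = ∑' n, lam n g / n^s` (real part; the term at `n = 0` is `0` on both sides, since `(0 : ℝ) ^ s = 0` and `x / 0 = 0`).
So the real number `card G * ∑' n, lam n g / n^s` is at least `‖Z_1(s)‖ - ∑_{χ ≠ 1} ‖Z_χ(s)‖ ≥ T - const`.
-/

namespace Pool.Agent.Work.MP_a5099b_nt.PrF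

open Finset

variable {G : Type} [CommGroup G] [Fintype G] {c lam : ℕ → G → ℝ} {κ C : ℝ}

private theorem bdd_char (h : Dat c lam κ C)
    (hreal : ∀ χ : G →* ℂˣ, χ ≠ 1 → χ ^ 2 = 1 →
      ∃ ε : ℝ, 0 < ε ∧ ∃ s₀ : ℝ, 1 < s₀ ∧ ∀ s : ℝ, 1 < s → s < s₀ → ε ≤ ‖LSeries (tw c χ) s‖)
    (χ : G →* ℂˣ) (hχ : χ ≠ 1) :
    ∃ B : ℝ, ∀ᶠ s : ℝ in nhdsWithin 1 (Set.Ioi 1), ‖LSeries (tw lam χ) s‖ ≤ B := by
  have hε : ∃ ε : ℝ, 0 < ε ∧ ∃ s₀ : ℝ, 1 < s₀ ∧ ∀ s : ℝ, 1 < s → s < s₀ → ε ≤ ‖LSeries (tw c χ) s‖ := by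
    by_cases h2 : χ ^ 2 = 1
    · exact hreal χ hχ h2
    · exact nonvanish h χ h2
  obtain ⟨ε, hε0, s₀, hs₀, hε⟩ := hε
  obtain ⟨B, hB⟩ := tw_log_bdd h χ hχ
  refine ⟨B / ε, ?_⟩
  have hm : Set.Ioo (1 : ℝ) (min s₀ 2) ∈ nhdsWithin (1 : ℝ) (Set.Ioi 1) :=
    Ioo_mem_nhdsGT (lt_min hs₀ (by norm_num))
  filter_upwards [hm] with s hs
  have h1 : 1 < s := hs.1
  have h2 : s < s₀ := lt_of_lt_of_le hs.2 (min_le_left _ _)
  have h3 : s ≤ 2 := (lt_of_lt_of_le hs.2 (min_le_right _ _)).le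
  have he := hε s h1 h2
  have hb := hB s h1 h3
  rw [lseries_mul (tw c χ) (tw lam χ) (tw_c_summable h χ) (tw_lam_summable h χ) (tw_conv h χ) s h1,
    norm_mul] at hb
  rw [le_div_iff₀ hε0]
  exact le_trans (mul_le_mul_of_nonneg_left he (norm_nonneg _)) hb

private theorem large_one (h : Dat c lam κ C) (T : ℝ) :
    ∀ᶠ s : ℝ in nhdsWithin 1 (Set.Ioi 1), T ≤ ‖LSeries (tw lam (1 : G →* ℂˣ)) s‖ := by
  obtain ⟨s₀, hs₀, hT⟩ := one_log h T
  have hm : Set.Ioo (1 : ℝ) s₀ ∈ nhdsWithin (1 : ℝ) (Set.Ioi 1) := Ioo_mem_nhdsGT hs₀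
  filter_upwards [hm] with s hs
  obtain ⟨hne, hle⟩ := hT s hs.1 hs.2
  rw [lseries_mul (tw c 1) (tw lam 1) (tw_c_summable h 1) (tw_lam_summable h 1) (tw_conv h 1) s hs.1,
    norm_mul] at hle
  exact le_of_mul_le_mul_right hle (norm_pos_iff.2 hne)

private theorem lseries_tw (h : Dat c lam κ C) (χ : G →* ℂˣ) (s : ℝ) (hs : 1 < s) :
    LSeries (tw lam χ) s = ∑ k, ((χ k : ℂˣ) : ℂ) * LSeries (fun n => (lam n k : ℂ)) s := by
  have h1 : tw lam χ = ∑ k, ((χ k : ℂˣ) : ℂ) • (fun n => (lam n k : ℂ)) := by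
    funext n
    simp only [tw, Finset.sum_apply, Pi.smul_apply, smul_eq_mul]
    exact Finset.sum_congr rfl fun k _ => mul_comm _ _
  rw [h1, LSeries_sum (fun k _ => (lam_summable h k s hs).smul _)]
  exact Finset.sum_congr rfl fun k _ => LSeries_smul _ _ _

omit [CommGroup G] [Fintype G] in
private theorem lseries_real (g : G) (s : ℝ) (_hs : 1 < s) :
    LSeries (fun n => (lam n g : ℂ)) s = ((∑' n : ℕ, lam n g / (n : ℝ) ^ s : ℝ) : ℂ) := by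
  rw [LSeries, Complex.ofReal_tsum]
  refine tsum_congr fun n => ?_
  rcases Nat.eq_zero_or_pos n with rfl | hn
  · rw [LSeries.term_zero]
    rw [Nat.cast_zero, Real.zero_rpow (by linarith)]
    simp
  · rw [LSeries.term_of_ne_zero hn.ne']
    rw [Complex.ofReal_div, Complex.ofReal_cpow (Nat.cast_nonneg n)]
    simp

private theorem orth (h : Dat c lam κ C) (g : G) (s : ℝ) (hs : 1 < s) :
    ∑ χ : G →* ℂˣ, ((χ g⁻¹ : ℂˣ) : ℂ) * LSeries (tw lam χ) s =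
      (Fintype.card G : ℂ) * ((∑' n : ℕ, lam n g / (n : ℝ) ^ s : ℝ) : ℂ) := by
  classical
  have h1 : ∀ χ : G →* ℂˣ, ((χ g⁻¹ : ℂˣ) : ℂ) * LSeries (tw lam χ) s =
      ∑ k, ((χ (g⁻¹ * k) : ℂˣ) : ℂ) * LSeries (fun n => (lam n k : ℂ)) s := by
    intro χ
    rw [lseries_tw h χ s hs, Finset.mul_sum]
    refine Finset.sum_congr rfl fun k _ => ?_
    rw [map_mul, Units.val_mul, mul_assoc]
  rw [Finset.sum_congr rfl fun χ _ => h1 χ, Finset.sum_comm]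
  have h2 : ∀ k : G, ∑ χ : G →* ℂˣ, ((χ (g⁻¹ * k) : ℂˣ) : ℂ) * LSeries (fun n => (lam n k : ℂ)) s =
      if k = g then (Fintype.card G : ℂ) * LSeries (fun n => (lam n k : ℂ)) s else 0 := by
    intro k
    rw [← Finset.sum_mul, sum_over_char]
    by_cases hk : k = g
    · rw [if_pos hk, if_pos (by rw [hk, inv_mul_cancel])]
    · rw [if_neg hk, if_neg, zero_mul]
      intro h0
      exact hk (inv_mul_eq_one.1 h0).symm
  rw [Finset.sum_congr rfl fun k _ => h2 k, Finset.sum_ite_eq' Finset.univ g, if_pos (Finset.mem_univ g),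
    lseries_real g s hs]

theorem diverge (h : Dat c lam κ C)
    (hreal : ∀ χ : G →* ℂˣ, χ ≠ 1 → χ ^ 2 = 1 →
      ∃ ε : ℝ, 0 < ε ∧ ∃ s₀ : ℝ, 1 < s₀ ∧ ∀ s : ℝ, 1 < s → s < s₀ → ε ≤ ‖LSeries (tw c χ) s‖)
    (g : G) (M : ℝ) :
    ∃ s₀ : ℝ, 1 < s₀ ∧ ∀ s : ℝ, 1 < s → s < s₀ → M ≤ ∑' n : ℕ, lam n g / (n : ℝ) ^ s := by
  classical
  have hB : ∀ χ : G →* ℂˣ, ∃ B : ℝ, χ ≠ 1 → ∀ᶠ s : ℝ in nhdsWithin 1 (Set.Ioi 1),
      ‖LSeries (tw lam χ) s‖ ≤ B := by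
    intro χ
    by_cases hχ : χ = 1
    · exact ⟨0, fun h0 => absurd hχ h0⟩
    · obtain ⟨B, hB⟩ := bdd_char h hreal χ hχ
      exact ⟨B, fun _ => hB⟩
  choose B hB using hB
  have hall : ∀ᶠ s : ℝ in nhdsWithin 1 (Set.Ioi 1), ∀ χ : G →* ℂˣ, χ ≠ 1 → ‖LSeries (tw lam χ) s‖ ≤ B χ := by
    rw [Filter.eventually_all]
    intro χ
    by_cases hχ : χ = 1
    · exact Filter.Eventually.of_forall fun s h0 => absurd hχ h0
    · exact (hB χ hχ).mono fun s hs _ => hs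
  have hcard : (0 : ℝ) < Fintype.card G := by
    have : 0 < Fintype.card G := Fintype.card_pos
    exact_mod_cast this
  have hlarge := large_one h (M * Fintype.card G + ∑ χ ∈ (Finset.univ : Finset (G →* ℂˣ)).erase 1, B χ)
  have hev : ∀ᶠ s : ℝ in nhdsWithin 1 (Set.Ioi 1), M ≤ ∑' n : ℕ, lam n g / (n : ℝ) ^ s := by
    filter_upwards [hall, hlarge, self_mem_nhdsWithin] with s h1 h2 h3
    have hs : 1 < s := h3
    have ho := orth h g s hs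
    rw [← Finset.add_sum_erase Finset.univ _ (Finset.mem_univ (1 : G →* ℂˣ))] at ho
    have h4 : LSeries (tw lam 1) s = (Fintype.card G : ℂ) * ((∑' n : ℕ, lam n g / (n : ℝ) ^ s : ℝ) : ℂ) -
        ∑ χ ∈ (Finset.univ : Finset (G →* ℂˣ)).erase 1, ((χ g⁻¹ : ℂˣ) : ℂ) * LSeries (tw lam χ) s := by
      rw [← ho]
      simp
    have hR : 0 ≤ ∑' n : ℕ, lam n g / (n : ℝ) ^ s :=
      tsum_nonneg fun n => div_nonneg (h.l0 n g) (Real.rpow_nonneg (Nat.cast_nonneg n) s)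
    have h5 : ‖LSeries (tw lam 1) s‖ ≤ (Fintype.card G : ℝ) * (∑' n : ℕ, lam n g / (n : ℝ) ^ s) +
        ∑ χ ∈ (Finset.univ : Finset (G →* ℂˣ)).erase 1, B χ := by
      rw [h4]
      refine le_trans (norm_sub_le _ _) ?_
      refine add_le_add ?_ ?_
      · rw [norm_mul, Complex.norm_natCast, Complex.norm_real, Real.norm_of_nonneg hR]
      · refine le_trans (norm_sum_le _ _) (Finset.sum_le_sum fun χ hχ => ?_)
        rw [norm_mul, norm_char, one_mul]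
        exact h1 χ (Finset.ne_of_mem_erase hχ)
    have h6 : M * Fintype.card G ≤ (∑' n : ℕ, lam n g / (n : ℝ) ^ s) * Fintype.card G := by
      linarith
    exact le_of_mul_le_mul_right h6 hcard
  rw [eventually_nhdsWithin_iff] at hev
  obtain ⟨δ, hδ, hball⟩ := Metric.eventually_nhds_iff.1 hev
  refine ⟨1 + δ, by linarith, fun s h1 h2 => hball ?_ h1⟩
  rw [Real.dist_eq, abs_lt]
  constructor <;> linarith

end Pool.Agent.Work.MP_a5099b_nt.PrF
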