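import Pool.Agent.Work.MP_a5099b_nt.I.ATw
import Pool.Agent.Work.MP_a5099b_nt.I.AExp

set_option autoImplicit false

/-!
# AProd (size M, uses the statements of ATw, AExp, AOrth): the product of all L-series is at least one

PROOF. By `lseries_exp` (with `tw_one`, `tw_conv`, `tw_c_summable`, `tw_lam_summable`) `‖LSeries (tw c χ) s‖ = exp (Re H_χ)`, `H_χ = LSeries (tw lam χ n / log n) s`. So the
product over `χ` is `exp (Re ∑_χ H_χ)`, and `∑_χ tw lam χ n = ∑_g lam n g ∑_χ χ(g) = card G * lam n 1` (`sum_over_char`), hence `∑_χ H_χ` is the sum of the nonnegative real numbers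
`card G * lam n 1 / log n * n^(-s)` (`n ≥ 1`; `LSeries` has term `0` at `n = 0`), its real part is `≥ 0`. (Summability of `tw lam χ n / log n`: `‖·‖ ≤ ‖tw lam χ n‖ / log 2` for `n ≥ 2`,
zero for `n = 1`.)
-/

namespace Pool.Agent.Work.MP_a5099b_nt.PrF

open Finset

variable {G : Type} [CommGroup G] [Fintype G] {c lam : ℕ → G → ℝ} {κ C : ℝ}

private theorem lser_eq_exp (h : Dat c lam κ C) (χ : G →* ℂˣ) (s : ℝ) (hs : 1 < s) :
    LSeries (tw c χ) s = Complex.exp (LSeries (fun n => tw lam χ n / (Real.log n : ℂ)) s) :=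
  lseries_exp (tw c χ) (tw lam χ) (tw_one h χ) (tw_c_summable h χ) (tw_lam_summable h χ)
    (fun n hn => tw_conv h χ n hn) s hs

private theorem b_summable (h : Dat c lam κ C) (χ : G →* ℂˣ) (s : ℝ) (hs : 1 < s) :
    LSeriesSummable (fun n => tw lam χ n / (Real.log n : ℂ)) s := by
  have h1 := tw_lam_summable h χ s hs
  have hl2 : 0 < Real.log 2 := Real.log_pos (by norm_num)
  refine Summable.of_norm_bounded (g := fun n => (1 / Real.log 2) * ‖LSeries.term (tw lam χ) s n‖)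
    (h1.norm.mul_left _) ?_
  intro n
  rcases Nat.lt_or_ge n 2 with hn | hn
  · have h2 : LSeries.term (fun n => tw lam χ n / (Real.log n : ℂ)) s n = 0 := by
      interval_cases n
      · exact LSeries.term_zero _ _
      · rw [LSeries.term_of_ne_zero one_ne_zero]
        simp
    rw [h2, norm_zero]
    positivity
  · have hn0 : n ≠ 0 := by omega
    rw [LSeries.term_of_ne_zero hn0, LSeries.term_of_ne_zero hn0]
    have hlog : Real.log 2 ≤ Real.log n := Real.log_le_log (by norm_num) (by exact_mod_cast hn)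
    have hlogp : 0 < Real.log n := lt_of_lt_of_le hl2 hlog
    rw [norm_div, norm_div, norm_div, Complex.norm_real, Real.norm_of_nonneg hlogp.le]
    have h3 : ‖tw lam χ n‖ / Real.log n ≤ 1 / Real.log 2 * ‖tw lam χ n‖ := by
      rw [div_eq_mul_one_div, mul_comm]
      exact mul_le_mul_of_nonneg_right (one_div_le_one_div_of_le hl2 hlog) (norm_nonneg _)
    calc ‖tw lam χ n‖ / Real.log n / ‖(n : ℂ) ^ (s : ℂ)‖
        ≤ (1 / Real.log 2 * ‖tw lam χ n‖) / ‖(n : ℂ) ^ (s : ℂ)‖ :=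
          div_le_div_of_nonneg_right h3 (norm_nonneg _)
      _ = 1 / Real.log 2 * (‖tw lam χ n‖ / ‖(n : ℂ) ^ (s : ℂ)‖) := mul_div_assoc _ _ _

private theorem sum_tw (lam : ℕ → G → ℝ) (n : ℕ) :
    ∑ χ : G →* ℂˣ, tw lam χ n = ((Fintype.card G : ℝ) * lam n 1 : ℝ) := by
  classical
  unfold tw
  rw [Finset.sum_comm]
  have h1 : ∀ g : G, ∑ χ : G →* ℂˣ, (lam n g : ℂ) * ((χ g : ℂˣ) : ℂ) =
      if g = 1 then (lam n g : ℂ) * (Fintype.card G : ℂ) else 0 := by
    intro g
    rw [← Finset.mul_sum, sum_over_char g]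
    split_ifs <;> simp
  rw [Finset.sum_congr rfl fun g _ => h1 g, Finset.sum_ite_eq' Finset.univ (1 : G)]
  simp only [Finset.mem_univ, if_true]
  push_cast
  ring

theorem prod_ge_one (h : Dat c lam κ C) (s : ℝ) (hs : 1 < s) :
    1 ≤ ∏ χ : G →* ℂˣ, ‖LSeries (tw c χ) s‖ := by
  classical
  have h1 : ∀ χ : G →* ℂˣ, ‖LSeries (tw c χ) s‖ =
      Real.exp (LSeries (fun n => tw lam χ n / (Real.log n : ℂ)) s).re := by
    intro χ
    rw [lser_eq_exp h χ s hs, Complex.norm_exp]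
  rw [Finset.prod_congr rfl fun χ _ => h1 χ, ← Real.exp_sum]
  apply Real.one_le_exp
  rw [← Complex.re_sum]
  have h2 : ∑ χ : G →* ℂˣ, LSeries (fun n => tw lam χ n / (Real.log n : ℂ)) s =
      ∑' n, ∑ χ : G →* ℂˣ, LSeries.term (fun n => tw lam χ n / (Real.log n : ℂ)) s n := by
    rw [Summable.tsum_finsetSum (fun χ _ => b_summable h χ s hs)]
    rfl
  have hsum : Summable (fun n => ∑ χ : G →* ℂˣ, LSeries.term (fun n => tw lam χ n / (Real.log n : ℂ)) s n) :=
    summable_sum (fun χ _ => b_summable h χ s hs)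
  rw [h2, Complex.re_tsum hsum]
  apply tsum_nonneg
  intro n
  rcases Nat.eq_zero_or_pos n with hn | hn
  · subst hn
    simp [LSeries.term_zero]
  · have hn0 : n ≠ 0 := hn.ne'
    have h3 : ∀ χ : G →* ℂˣ, LSeries.term (fun n => tw lam χ n / (Real.log n : ℂ)) s n =
        tw lam χ n * (((Real.log n)⁻¹ * ((n : ℝ) ^ s)⁻¹ : ℝ) : ℂ) := by
      intro χ
      rw [LSeries.term_of_ne_zero hn0]
      push_cast
      rw [Complex.ofReal_cpow (Nat.cast_nonneg n) s]
      push_cast
      rw [div_eq_mul_inv, div_eq_mul_inv, mul_assoc]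
    rw [Finset.sum_congr rfl fun χ _ => h3 χ, ← Finset.sum_mul, sum_tw, ← Complex.ofReal_mul,
      Complex.ofReal_re]
    have hlog : 0 ≤ Real.log n := Real.log_natCast_nonneg n
    have := h.l0 n 1
    positivity

/-- no zeros for `s > 1` -/
theorem tw_ne_zero (h : Dat c lam κ C) (χ : G →* ℂˣ) (s : ℝ) (hs : 1 < s) : LSeries (tw c χ) s ≠ 0 := by
  rw [lser_eq_exp h χ s hs]
  exact Complex.exp_ne_zero _

end Pool.Agent.Work.MP_a5099b_nt.PrF
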