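import Pool.Agent.Work.MP_a5099b_nt.I.APart
import Pool.Agent.Work.MP_a5099b_nt.I.AProd

set_option autoImplicit false

/-!
# ANv (size S-M, uses the statements of APart, AProd, ATw): nonvanishing at `s = 1` for characters which are not real

PROOF. `χ² ≠ 1` gives `χ ≠ 1`, `χ⁻¹ ≠ χ`, `χ⁻¹ ≠ 1`. Let `L`, `D` be as in `tw_lim` for `χ`. If `L ≠ 0` then `‖LSeries (tw c χ) s‖ ≥ ‖L‖ - D (s - 1) ≥ ‖L‖/2` near `1`. Suppose `L = 0`. Then
`‖LSeries (tw c χ) s‖ ≤ D (s - 1)` and the same for `χ⁻¹` (`lseries_inv`); all other nontrivial characters are bounded by some `B ≥ 1` (`tw_bdd`), the trivial one by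
`B / (s - 1)` (`one_pole`). The product over all characters is at most `D² (s-1)² * B/(s-1) * B^(number)` and tends to `0` as `s → 1`, which contradicts `prod_ge_one`.
(Split the product: `Finset.prod_erase_mul` / `Finset.mul_prod_erase` three times, `1, χ, χ⁻¹` pairwise distinct.)
-/

namespace Pool.Agent.Work.MP_a5099b_nt.PrF

open Finset

variable {G : Type} [CommGroup G] [Fintype G] {c lam : ℕ → G → ℝ} {κ C : ℝ}

private theorem all_bdd (h : Dat c lam κ C) :
    ∃ B : ℝ, 1 ≤ B ∧ ∀ η : G →* ℂˣ, η ≠ 1 → ∀ s : ℝ, 1 < s → s ≤ 2 →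
      ‖LSeries (tw c η) s‖ ≤ B := by
  classical
  have h1 : ∀ η : G →* ℂˣ, ∃ B : ℝ, 0 ≤ B ∧ (η ≠ 1 → ∀ s : ℝ, 1 < s → s ≤ 2 →
      ‖LSeries (tw c η) s‖ ≤ B) := by
    intro η
    by_cases hη : η = 1
    · exact ⟨0, le_rfl, fun h2 => absurd hη h2⟩
    · obtain ⟨B, hB⟩ := tw_bdd h η hη
      exact ⟨B, (norm_nonneg _).trans (hB 2 (by norm_num) le_rfl), fun _ => hB⟩
  choose Bf hB0 hB using h1
  refine ⟨1 + ∑ η, Bf η, ?_, fun η hη s hs hs2 => (hB η hη s hs hs2).trans ?_⟩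
  · have := Finset.sum_nonneg fun η (_ : η ∈ (Finset.univ : Finset (G →* ℂˣ))) => hB0 η
    linarith
  · have := Finset.single_le_sum (f := Bf) (fun η _ => hB0 η) (Finset.mem_univ η)
    linarith

theorem nonvanish (h : Dat c lam κ C) (χ : G →* ℂˣ) (hχ : χ ^ 2 ≠ 1) :
    ∃ ε : ℝ, 0 < ε ∧ ∃ s₀ : ℝ, 1 < s₀ ∧ ∀ s : ℝ, 1 < s → s < s₀ → ε ≤ ‖LSeries (tw c χ) s‖ := by
  classical
  have hχ1 : χ ≠ 1 := by
    intro h1
    refine hχ (MonoidHom.ext fun g => ?_)
    rw [h1, MonoidHom.pow_apply, MonoidHom.one_apply, one_pow]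
  have hχi : χ⁻¹ ≠ 1 := by
    intro h1
    refine hχ1 (MonoidHom.ext fun g => ?_)
    have h2 := DFunLike.congr_fun h1 g
    rw [MonoidHom.inv_apply, MonoidHom.one_apply, inv_eq_one] at h2
    rw [h2, MonoidHom.one_apply]
  have hχχ : χ⁻¹ ≠ χ := by
    intro h1
    refine hχ ?_
    rw [sq]
    nth_rewrite 1 [← h1]
    exact inv_mul_cancel χ
  obtain ⟨D, L, hD, hL⟩ := tw_lim h χ hχ1
  by_cases hL0 : L = 0
  · exfalso
    obtain ⟨B, hB1, hB⟩ := all_bdd h
    obtain ⟨A, hA⟩ := one_pole h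
    have hA0 : 0 ≤ A := by
      have h1 := (norm_nonneg _).trans (hA 2 (by norm_num) le_rfl)
      norm_num at h1
      exact h1
    obtain ⟨R, hR⟩ : ∃ R, R = ((((Finset.univ : Finset (G →* ℂˣ)).erase 1).erase χ).erase χ⁻¹) :=
      ⟨_, rfl⟩
    have key : ∀ s : ℝ, 1 < s → s ≤ 2 → 1 ≤ A * D ^ 2 * B ^ R.card * (s - 1) := by
      intro s hs hs2
      have hs1 : 0 < s - 1 := by linarith
      have h1 := prod_ge_one h s hs
      have m1 : (1 : G →* ℂˣ) ∈ (Finset.univ : Finset (G →* ℂˣ)) := Finset.mem_univ _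
      have m2 : χ ∈ (Finset.univ : Finset (G →* ℂˣ)).erase 1 :=
        Finset.mem_erase.2 ⟨hχ1, Finset.mem_univ _⟩
      have m3 : χ⁻¹ ∈ ((Finset.univ : Finset (G →* ℂˣ)).erase 1).erase χ :=
        Finset.mem_erase.2 ⟨hχχ, Finset.mem_erase.2 ⟨hχi, Finset.mem_univ _⟩⟩
      rw [← Finset.mul_prod_erase _ _ m1, ← Finset.mul_prod_erase _ _ m2,
        ← Finset.mul_prod_erase _ _ m3, ← hR] at h1
      have b1 := hA s hs hs2
      have b2 : ‖LSeries (tw c χ) s‖ ≤ D * (s - 1) := by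
        have h2 := hL s hs hs2
        rwa [hL0, sub_zero] at h2
      have b3 : ‖LSeries (tw c χ⁻¹) s‖ ≤ D * (s - 1) := by
        rw [lseries_inv]
        exact b2
      have b4 : ∏ η ∈ R, ‖LSeries (tw c η) s‖ ≤ B ^ R.card := by
        rw [← Finset.prod_const]
        refine Finset.prod_le_prod (fun _ _ => norm_nonneg _) fun η hη => ?_
        rw [hR] at hη
        exact hB η (Finset.mem_erase.1 (Finset.mem_erase.1 (Finset.mem_erase.1 hη).2).2).1 s hs hs2
      have hDs : 0 ≤ D * (s - 1) := mul_nonneg hD hs1.le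
      have hP : 0 ≤ ∏ η ∈ R, ‖LSeries (tw c η) s‖ := Finset.prod_nonneg fun _ _ => norm_nonneg _
      calc (1 : ℝ) ≤ _ := h1
        _ ≤ A / (s - 1) * ((D * (s - 1)) * ((D * (s - 1)) * B ^ R.card)) := by
          refine mul_le_mul b1 ?_ (mul_nonneg (norm_nonneg _) (mul_nonneg (norm_nonneg _) hP))
            (div_nonneg hA0 hs1.le)
          refine mul_le_mul b2 ?_ (mul_nonneg (norm_nonneg _) hP) hDs
          exact mul_le_mul b3 b4 hP hDs
        _ = A * D ^ 2 * B ^ R.card * (s - 1) := by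
          field_simp
    obtain ⟨K, hK⟩ : ∃ K, K = A * D ^ 2 * B ^ R.card := ⟨_, rfl⟩
    have hK0 : 0 ≤ K := by
      rw [hK]
      have : 0 ≤ B := by linarith
      positivity
    have h2 := key (1 + 1 / (2 * (K + 1))) (by
      have : 0 < 1 / (2 * (K + 1)) := by positivity
      linarith) (by
      have : 1 / (2 * (K + 1)) ≤ 1 := by
        rw [div_le_one (by positivity)]
        linarith
      linarith)
    rw [← hK, add_sub_cancel_left, mul_one_div, le_div_iff₀ (by positivity)] at h2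
    linarith
  · have hLp : 0 < ‖L‖ := norm_pos_iff.2 hL0
    refine ⟨‖L‖ / 2, by positivity, min 2 (1 + ‖L‖ / (2 * (D + 1))), ?_, fun s hs hs0 => ?_⟩
    · refine lt_min (by norm_num) ?_
      have : 0 < ‖L‖ / (2 * (D + 1)) := by positivity
      linarith
    · have hs2 : s ≤ 2 := (hs0.trans_le (min_le_left _ _)).le
      have hs3 : s < 1 + ‖L‖ / (2 * (D + 1)) := hs0.trans_le (min_le_right _ _)
      have h1 := hL s hs hs2
      have h2 : ‖L‖ - ‖LSeries (tw c χ) s‖ ≤ ‖LSeries (tw c χ) s - L‖ := by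
        rw [← norm_neg (LSeries (tw c χ) s - L), neg_sub]
        exact norm_sub_norm_le _ _
      have h3 : D * (s - 1) ≤ (D + 1) * (‖L‖ / (2 * (D + 1))) := by
        refine mul_le_mul (by linarith) (by linarith) (by linarith) (by linarith)
      have h4 : (D + 1) * (‖L‖ / (2 * (D + 1))) = ‖L‖ / 2 := by
        field_simp
      linarith

end Pool.Agent.Work.MP_a5099b_nt.PrF
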