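import Pool.Agent.Work.MP_a5099b_nt.I.ADefs

set_option autoImplicit false

/-!
# AOrth (size S-M, Mathlib only): orthogonality of the characters of a finite abelian group

PROOF. `sum_over_group`: if `χ ≠ 1` take `h` with `χ h ≠ 1`; `∑ g, χ g = ∑ g, χ (h g) = χ h ∑ g, χ g`. `sum_over_char`: if `g ≠ 1` there is `η` with `η g ≠ 1`
(`CommGroup.exists_apply_ne_one_of_hasEnoughRootsOfUnity`), `∑ χ, χ g = ∑ χ, (η χ) g = η g ∑ χ, χ g`; for `g = 1` the sum is the number of characters,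
which is `card G` (`CommGroup.card_monoidHom_of_hasEnoughRootsOfUnity`). `norm_char`: `χ g` has finite order, so it is a root of unity.
`star_char`: complex conjugation is the inverse on complex numbers of absolute value `1`.
-/

namespace Pool.Agent.Work.MP_a5099b_nt.PrF

open Finset

variable {G : Type} [CommGroup G] [Fintype G]

theorem norm_char (χ : G →* ℂˣ) (g : G) : ‖((χ g : ℂˣ) : ℂ)‖ = 1 := by
  have h1 : ((χ g : ℂˣ) : ℂ) ^ Fintype.card G = 1 := by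
    rw [← Units.val_pow_eq_pow_val, ← map_pow, pow_card_eq_one, map_one, Units.val_one]
  exact Complex.norm_eq_one_of_pow_eq_one h1 Fintype.card_ne_zero

theorem star_char (χ : G →* ℂˣ) (g : G) : (starRingEnd ℂ) ((χ g : ℂˣ) : ℂ) = ((χ⁻¹ g : ℂˣ) : ℂ) := by
  rw [MonoidHom.inv_apply, Units.val_inv_eq_inv_val, Complex.inv_eq_conj (norm_char χ g)]

theorem sum_over_group (χ : G →* ℂˣ) (h : χ ≠ 1) : ∑ g, ((χ g : ℂˣ) : ℂ) = 0 := by
  obtain ⟨a, ha⟩ : ∃ a, χ a ≠ 1 := by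
    by_contra hn
    push Not at hn
    exact h (MonoidHom.ext hn)
  have h1 : ∑ g, ((χ g : ℂˣ) : ℂ) = ((χ a : ℂˣ) : ℂ) * ∑ g, ((χ g : ℂˣ) : ℂ) := by
    rw [Finset.mul_sum, ← Equiv.sum_comp (Equiv.mulLeft a)]
    refine Finset.sum_congr rfl fun g _ => ?_
    rw [Equiv.coe_mulLeft, map_mul, Units.val_mul]
  have h2 : (((χ a : ℂˣ) : ℂ) - 1) * ∑ g, ((χ g : ℂˣ) : ℂ) = 0 := by
    rw [sub_mul, one_mul, ← h1, sub_self]
  rcases mul_eq_zero.1 h2 with h3 | h3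
  · exact absurd (Units.ext (by rw [sub_eq_zero.1 h3, Units.val_one])) ha
  · exact h3

open scoped Classical in
theorem sum_over_char (g : G) :
    ∑ χ : G →* ℂˣ, ((χ g : ℂˣ) : ℂ) = if g = 1 then (Fintype.card G : ℂ) else 0 := by
  by_cases hg : g = 1
  · rw [if_pos hg, hg]
    have h1 : ∑ χ : G →* ℂˣ, ((χ 1 : ℂˣ) : ℂ) = ∑ χ : G →* ℂˣ, (1 : ℂ) :=
      Finset.sum_congr rfl fun χ _ => by rw [map_one, Units.val_one]
    rw [h1, Finset.sum_const, nsmul_eq_mul, mul_one, Finset.card_univ, ← Nat.card_eq_fintype_card,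
      CommGroup.card_monoidHom_of_hasEnoughRootsOfUnity, Nat.card_eq_fintype_card]
  · rw [if_neg hg]
    obtain ⟨η, hη⟩ := CommGroup.exists_apply_ne_one_of_hasEnoughRootsOfUnity G ℂ hg
    have h1 : ∑ χ : G →* ℂˣ, ((χ g : ℂˣ) : ℂ) =
        ((η g : ℂˣ) : ℂ) * ∑ χ : G →* ℂˣ, ((χ g : ℂˣ) : ℂ) := by
      rw [Finset.mul_sum, ← Equiv.sum_comp (Equiv.mulLeft η)]
      refine Finset.sum_congr rfl fun χ _ => ?_
      rw [Equiv.coe_mulLeft, MonoidHom.mul_apply, Units.val_mul]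
    have h2 : (((η g : ℂˣ) : ℂ) - 1) * ∑ χ : G →* ℂˣ, ((χ g : ℂˣ) : ℂ) = 0 := by
      rw [sub_mul, one_mul, ← h1, sub_self]
    rcases mul_eq_zero.1 h2 with h3 | h3
    · exact absurd (Units.ext (by rw [sub_eq_zero.1 h3, Units.val_one])) hη
    · exact h3

end Pool.Agent.Work.MP_a5099b_nt.PrF
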