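import Pool.Agent.Work.MP_a5099b_nt.I.ATw
import Pool.Agent.Work.MP_a5099b_nt.I.ALog
import Pool.Agent.Work.MP_a5099b_nt.I.ALip

set_option autoImplicit false

/-!
# APart (size M, uses the statements of ATw, ALog, ALip): partial sums, behaviour at `s = 1`

PROOF. `tw_partial`: `∑_{k ≤ n} tw c χ k = ∑_g χ(g) (∑_{k ≤ n} c k g - κ n)` because `∑_g χ(g) = 0` (`sum_over_group`); `‖χ g‖ = 1`; `D = card G * C`.
`tw_lim`: `sqrt_le`, `lim_exists`, `tw_c_summable`. `tw_log_bdd`: `log_partial`, `bdd`, `tw_log_summable`.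
`one_pole`: `tw c 1 n = ∑_g c n g`, the partial sums divided by `n` tend to `card G * κ > 0`; `LSeries_tendsto_sub_mul_nhds_one_of_tendsto_sum_div_and_nonneg` (Mathlib):
`(s - 1) L(s) → card G * κ`. Hence `‖L(s)‖ ≤ B / (s - 1)` near `1`, and on `[s₀, 2]` the L-series is bounded (`‖L(s)‖ ≤ ∑ |c| n^(-s₀)`), and `‖L(s)‖ → ∞` as `s → 1`.
(For `B`: `L(s)` is real, nonnegative and decreasing in `s`.)
`one_log`: `∑' tw c 1 n log n n^(-s) ≥ T (L(s) - ∑_{n ≤ e^T} tw c 1 n)`, so `(LSeries (tw c 1 * log) s) / (LSeries (tw c 1) s)` has norm `≥ T (1 - K_T / L(s)) ≥ T/2` near `1`;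
all series are sums of nonnegative reals. By `lseries_mul` (AExp) this quotient is `LSeries (tw lam 1) s`; here it is stated for the quotient-free form.
-/

namespace Pool.Agent.Work.MP_a5099b_nt.PrF

open Finset

variable {G : Type} [CommGroup G] [Fintype G] {c lam : ℕ → G → ℝ} {κ C : ℝ}

theorem tw_partial (h : Dat c lam κ C) (χ : G →* ℂˣ) (hχ : χ ≠ 1) :
    ∃ D : ℝ, ∀ n : ℕ, ‖∑ k ∈ Icc 1 n, tw c χ k‖ ≤ D * Real.sqrt n := by
  refine ⟨(Fintype.card G : ℝ) * C, fun n => ?_⟩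
  have e1 : ∑ k ∈ Icc 1 n, tw c χ k
      = ∑ g : G, (((∑ k ∈ Icc 1 n, c k g - κ * n : ℝ)) : ℂ) * ((χ g : ℂˣ) : ℂ) := by
    have e2 : ∑ g : G, (((∑ k ∈ Icc 1 n, c k g - κ * n : ℝ)) : ℂ) * ((χ g : ℂˣ) : ℂ)
        = ∑ g : G, ((∑ k ∈ Icc 1 n, (c k g : ℂ)) * ((χ g : ℂˣ) : ℂ))
          - ((κ : ℂ) * n) * ∑ g : G, ((χ g : ℂˣ) : ℂ) := by
      rw [Finset.mul_sum, ← Finset.sum_sub_distrib]
      refine Finset.sum_congr rfl fun g _ => ?_
      push_cast
      ring
    rw [e2, sum_over_group χ hχ, mul_zero, sub_zero]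
    unfold tw
    rw [Finset.sum_comm]
    refine Finset.sum_congr rfl fun g _ => ?_
    rw [Finset.sum_mul]
  rw [e1]
  calc ‖∑ g : G, (((∑ k ∈ Icc 1 n, c k g - κ * n : ℝ)) : ℂ) * ((χ g : ℂˣ) : ℂ)‖
      ≤ ∑ g : G, ‖(((∑ k ∈ Icc 1 n, c k g - κ * n : ℝ)) : ℂ) * ((χ g : ℂˣ) : ℂ)‖ :=
        norm_sum_le _ _
    _ ≤ ∑ _g : G, C * Real.sqrt n := by
        refine Finset.sum_le_sum fun g _ => ?_
        rw [norm_mul, norm_char, mul_one, Complex.norm_real, Real.norm_eq_abs]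
        exact h.cnt g n
    _ = (Fintype.card G : ℝ) * C * Real.sqrt n := by
        rw [Finset.sum_const, Finset.card_univ, nsmul_eq_mul]
        ring

theorem tw_lim (h : Dat c lam κ C) (χ : G →* ℂˣ) (hχ : χ ≠ 1) :
    ∃ (D : ℝ) (L : ℂ), 0 ≤ D ∧ ∀ s : ℝ, 1 < s → s ≤ 2 → ‖LSeries (tw c χ) s - L‖ ≤ D * (s - 1) := by
  obtain ⟨D, hD⟩ := tw_partial h χ hχ
  exact lim_exists (tw c χ) D (sqrt_le _ _ hD) (tw_c_summable h χ)

theorem tw_bdd (h : Dat c lam κ C) (χ : G →* ℂˣ) (hχ : χ ≠ 1) :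
    ∃ B : ℝ, ∀ s : ℝ, 1 < s → s ≤ 2 → ‖LSeries (tw c χ) s‖ ≤ B := by
  obtain ⟨D, hD⟩ := tw_partial h χ hχ
  exact bdd (tw c χ) D (sqrt_le _ _ hD) (tw_c_summable h χ)

theorem tw_log_bdd (h : Dat c lam κ C) (χ : G →* ℂˣ) (hχ : χ ≠ 1) :
    ∃ B : ℝ, ∀ s : ℝ, 1 < s → s ≤ 2 → ‖LSeries (fun n => tw c χ n * (Real.log n : ℂ)) s‖ ≤ B := by
  obtain ⟨D, hD⟩ := tw_partial h χ hχ
  obtain ⟨D', hD'⟩ := log_partial _ _ hD
  exact bdd _ D' hD' (tw_log_summable h χ)

/-- real coefficients of the trivial character -/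
private theorem tw_one_real (c : ℕ → G → ℝ) (n : ℕ) :
    tw c 1 n = ((∑ g, c n g : ℝ) : ℂ) := by
  unfold tw
  push_cast
  refine Finset.sum_congr rfl fun g _ => ?_
  simp

private theorem tw_one_fun (c : ℕ → G → ℝ) :
    tw c (1 : G →* ℂˣ) = fun n => ((∑ g, c n g : ℝ) : ℂ) := funext (tw_one_real c)

/-- real terms -/
private noncomputable def rt (a : ℕ → ℝ) (s : ℝ) (n : ℕ) : ℝ := if n = 0 then 0 else a n / (n : ℝ) ^ s

private theorem term_eq (a : ℕ → ℝ) (s : ℝ) (n : ℕ) :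
    LSeries.term (fun n => (a n : ℂ)) s n = ((rt a s n : ℝ) : ℂ) := by
  unfold rt
  rw [LSeries.term_def]
  split_ifs with hn
  · simp
  · rw [Complex.ofReal_div, Complex.ofReal_cpow (Nat.cast_nonneg n)]
    simp

private theorem summable_rt (a : ℕ → ℝ) (s : ℝ) (hs : LSeriesSummable (fun n => (a n : ℂ)) s) :
    Summable (rt a s) := by
  unfold LSeriesSummable at hs
  have : (LSeries.term (fun n => (a n : ℂ)) s) = fun n => ((rt a s n : ℝ) : ℂ) :=
    funext (term_eq a s)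
  rw [this] at hs
  exact Complex.summable_ofReal.mp hs

private theorem lseries_rt (a : ℕ → ℝ) (s : ℝ) :
    LSeries (fun n => (a n : ℂ)) s = ((∑' n, rt a s n : ℝ) : ℂ) := by
  unfold LSeries
  rw [Complex.ofReal_tsum]
  exact tsum_congr (term_eq a s)

private theorem rt_nonneg (a : ℕ → ℝ) (ha : ∀ n, 0 ≤ a n) (s : ℝ) (n : ℕ) : 0 ≤ rt a s n := by
  unfold rt
  split_ifs
  · exact le_rfl
  · exact div_nonneg (ha n) (Real.rpow_nonneg (Nat.cast_nonneg n) s)

private theorem rt_anti (a : ℕ → ℝ) (ha : ∀ n, 0 ≤ a n) (s t : ℝ) (hst : s ≤ t) (n : ℕ) :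
    rt a t n ≤ rt a s n := by
  unfold rt
  split_ifs with hn
  · exact le_rfl
  · have h1 : (1 : ℝ) ≤ n := by exact_mod_cast Nat.one_le_iff_ne_zero.mpr hn
    exact div_le_div_of_nonneg_left (ha n) (Real.rpow_pos_of_pos (by linarith) s)
      (Real.rpow_le_rpow_of_exponent_le h1 hst)

open Filter Topology

private theorem real_tendsto (h : Dat c lam κ C) :
    Tendsto (fun s : ℝ => (s - 1) * ∑' n, rt (fun n => ∑ g, c n g) s n) (𝓝[>] 1)
      (𝓝 ((Fintype.card G : ℝ) * κ)) := by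
  have h1 : Tendsto (fun n : ℕ ↦ (∑ k ∈ Icc 1 n, (∑ g, c k g)) / (n : ℝ)) atTop
      (𝓝 ((Fintype.card G : ℝ) * κ)) := by
    have hb : ∀ n : ℕ, 1 ≤ n → |(∑ k ∈ Icc 1 n, (∑ g, c k g)) / (n : ℝ) - (Fintype.card G : ℝ) * κ|
        ≤ (Fintype.card G : ℝ) * C * (Real.sqrt n / n) := by
      intro n hn
      have hn0 : (0 : ℝ) < n := by exact_mod_cast hn
      have e : (∑ k ∈ Icc 1 n, (∑ g, c k g)) / (n : ℝ) - (Fintype.card G : ℝ) * κ
          = (∑ g, (∑ k ∈ Icc 1 n, c k g - κ * n)) / n := by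
        rw [Finset.sum_sub_distrib, Finset.sum_const, Finset.card_univ, nsmul_eq_mul,
          Finset.sum_comm]
        field_simp
      rw [e, abs_div, abs_of_pos hn0, ← mul_div_assoc]
      refine div_le_div_of_nonneg_right ?_ hn0.le
      calc |∑ g, (∑ k ∈ Icc 1 n, c k g - κ * n)| ≤ ∑ g, |(∑ k ∈ Icc 1 n, c k g - κ * n)| :=
            Finset.abs_sum_le_sum_abs _ _
        _ ≤ ∑ _g : G, C * Real.sqrt n := Finset.sum_le_sum fun g _ => h.cnt g n
        _ = (Fintype.card G : ℝ) * C * Real.sqrt n := by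
            rw [Finset.sum_const, Finset.card_univ, nsmul_eq_mul]
            ring
    have hz : Tendsto (fun n : ℕ => (Fintype.card G : ℝ) * C * (Real.sqrt n / n)) atTop (𝓝 0) := by
      have : Tendsto (fun n : ℕ => Real.sqrt n / n) atTop (𝓝 0) := by
        have e : (fun n : ℕ => Real.sqrt (n : ℝ) / n) = fun n : ℕ => (Real.sqrt (n : ℝ))⁻¹ := by
          funext n
          exact Real.sqrt_div_self
        rw [e]
        exact tendsto_inv_atTop_zero.comp
          (Real.tendsto_sqrt_atTop.comp tendsto_natCast_atTop_atTop)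
      simpa using this.const_mul ((Fintype.card G : ℝ) * C)
    rw [tendsto_iff_norm_sub_tendsto_zero]
    refine squeeze_zero' (Eventually.of_forall fun n => norm_nonneg _) ?_ hz
    filter_upwards [eventually_ge_atTop 1] with n hn
    rw [Real.norm_eq_abs]
    exact hb n hn
  have h2 := LSeries_tendsto_sub_mul_nhds_one_of_tendsto_sum_div_and_nonneg
    (fun n => ∑ g, c n g) h1 (fun n => Finset.sum_nonneg fun g _ => h.c0 n g)
  have h3 := (Complex.continuous_re.tendsto _).comp h2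
  simp only [Complex.ofReal_re] at h3
  refine h3.congr fun s => ?_
  simp only [Function.comp]
  rw [lseries_rt, ← Complex.ofReal_one, ← Complex.ofReal_sub, ← Complex.ofReal_mul,
    Complex.ofReal_re]

private theorem norm_one_eq (h : Dat c lam κ C) (s : ℝ) :
    ‖LSeries (tw c (1 : G →* ℂˣ)) s‖ = ∑' n, rt (fun n => ∑ g, c n g) s n := by
  rw [tw_one_fun, lseries_rt, Complex.norm_real, Real.norm_eq_abs, abs_of_nonneg]
  exact tsum_nonneg (rt_nonneg _ (fun n => Finset.sum_nonneg fun g _ => h.c0 n g) s)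

private theorem one_summable (h : Dat c lam κ C) (s : ℝ) (hs : 1 < s) :
    Summable (rt (fun n => ∑ g, c n g) s) := by
  refine summable_rt _ s ?_
  rw [← tw_one_fun]
  exact tw_c_summable h 1 s hs

theorem one_pole (h : Dat c lam κ C) :
    ∃ B : ℝ, ∀ s : ℝ, 1 < s → s ≤ 2 → ‖LSeries (tw c 1) s‖ ≤ B / (s - 1) := by
  have hT := real_tendsto h
  have hev : ∀ᶠ s in 𝓝[>] (1 : ℝ), (s - 1) * ∑' n, rt (fun n => ∑ g, c n g) s n
      < (Fintype.card G : ℝ) * κ + 1 := hT.eventually_lt_const (by linarith)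
  obtain ⟨s₁, hs₁, hs₁'⟩ := mem_nhdsGT_iff_exists_Ioo_subset.mp hev
  have hs₁1 : (1 : ℝ) < s₁ := hs₁
  set s₀ : ℝ := (1 + s₁) / 2 with hs₀
  have h0 : 1 < s₀ := by rw [hs₀]; linarith
  have h01 : s₀ < s₁ := by rw [hs₀]; linarith
  set M : ℝ := ∑' n, rt (fun n => ∑ g, c n g) s₀ n with hM
  have hM0 : 0 ≤ M := tsum_nonneg (rt_nonneg _ (fun n => Finset.sum_nonneg fun g _ => h.c0 n g) s₀)
  refine ⟨max ((Fintype.card G : ℝ) * κ + 1) M, fun s hs hs2 => ?_⟩
  have hpos : 0 < s - 1 := by linarith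
  rw [norm_one_eq h, le_div_iff₀ hpos]
  rcases lt_or_ge s s₁ with hlt | hge
  · have := hs₁' ⟨hs, hlt⟩
    simp only [Set.mem_ofPred_eq] at this
    rw [mul_comm]
    exact this.le.trans (le_max_left _ _)
  · have hle : ∑' n, rt (fun n => ∑ g, c n g) s n ≤ M :=
      (one_summable h s hs).tsum_le_tsum
        (rt_anti _ (fun n => Finset.sum_nonneg fun g _ => h.c0 n g) s₀ s (by linarith))
        (one_summable h s₀ h0)
    have h1 : (∑' n, rt (fun n => ∑ g, c n g) s n) * (s - 1) ≤ M * 1 :=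
      mul_le_mul hle (by linarith) hpos.le hM0
    exact (h1.trans (by rw [mul_one])).trans (le_max_right _ _)

theorem one_log (h : Dat c lam κ C) (T : ℝ) :
    ∃ s₀ : ℝ, 1 < s₀ ∧ ∀ s : ℝ, 1 < s → s < s₀ → LSeries (tw c 1) s ≠ 0 ∧
      T * ‖LSeries (tw c 1) s‖ ≤ ‖LSeries (fun n => tw c 1 n * (Real.log n : ℂ)) s‖ := by
  set a : ℕ → ℝ := fun n => ∑ g, c n g with ha
  have ha0 : ∀ n, 0 ≤ a n := fun n => Finset.sum_nonneg fun g _ => h.c0 n g
  set T' : ℝ := max T 0 + 1 with hT'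
  have hT'0 : 0 < T' := by
    have := le_max_right T 0
    rw [hT']; linarith
  have hT'T : T + 1 ≤ T' := by
    have := le_max_left T 0
    rw [hT']; linarith
  obtain ⟨N, hN⟩ := exists_nat_ge (Real.exp T')
  set M : ℝ := ∑ n ∈ Finset.range N, a n * T' with hM
  have hM0 : 0 ≤ M := Finset.sum_nonneg fun n _ => mul_nonneg (ha0 n) hT'0.le
  have hl : 0 < (Fintype.card G : ℝ) * κ :=
    mul_pos (by exact_mod_cast Fintype.card_pos) h.kpos
  set l : ℝ := (Fintype.card G : ℝ) * κ with hlD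
  have hT1 := real_tendsto h
  have hev : ∀ᶠ s in 𝓝[>] (1 : ℝ), l / 2 < (s - 1) * ∑' n, rt a s n :=
    hT1.eventually_const_lt (by linarith)
  have hev2 : ∀ᶠ s in 𝓝[>] (1 : ℝ), (s - 1) * (M + 1) < l / 2 := by
    have : Tendsto (fun s : ℝ => (s - 1) * (M + 1)) (𝓝[>] 1) (𝓝 0) := by
      have hc : Continuous (fun s : ℝ => (s - 1) * (M + 1)) := by fun_prop
      have := hc.tendsto 1
      simp only [sub_self, zero_mul] at this
      exact this.mono_left nhdsWithin_le_nhds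
    exact this.eventually_lt_const (by linarith)
  obtain ⟨s₀, hs₀, hs₀'⟩ := mem_nhdsGT_iff_exists_Ioo_subset.mp (hev.and hev2)
  refine ⟨s₀, hs₀, fun s hs hs' => ?_⟩
  have hss := hs₀' ⟨hs, hs'⟩
  simp only [Set.mem_ofPred_eq] at hss
  have hpos : 0 < s - 1 := by linarith
  have hbig : M + 1 < ∑' n, rt a s n := by
    have : (s - 1) * (M + 1) < (s - 1) * ∑' n, rt a s n := hss.2.trans hss.1
    exact lt_of_mul_lt_mul_left this hpos.le
  have hnorm := norm_one_eq h s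
  refine ⟨?_, ?_⟩
  · intro h0
    rw [h0, norm_zero] at hnorm
    change 0 = ∑' n, rt a s n at hnorm
    linarith
  have hfun : (fun n => tw c (1 : G →* ℂˣ) n * (Real.log n : ℂ))
      = fun n => ((a n * Real.log n : ℝ) : ℂ) := by
    funext n
    rw [tw_one_real, Complex.ofReal_mul]
  have hal0 : ∀ n : ℕ, 0 ≤ a n * Real.log n := fun n =>
    mul_nonneg (ha0 n) (Real.log_natCast_nonneg n)
  have hsum2 : Summable (rt (fun n => a n * Real.log n) s) := by
    refine summable_rt _ s ?_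
    rw [← hfun]
    exact tw_log_summable h 1 s hs
  have hsum1 : Summable (rt a s) := one_summable h s hs
  rw [hnorm, hfun, lseries_rt, Complex.norm_real, Real.norm_eq_abs,
    abs_of_nonneg (tsum_nonneg (rt_nonneg _ hal0 s))]
  change T * ∑' n, rt a s n ≤ _
  -- comparison termwise
  have hterm : ∀ n, T' * rt a s n ≤ rt (fun n => a n * Real.log n) s n
      + (if n < N then a n * T' else 0) := by
    intro n
    unfold rt
    split_ifs with hn hnN hnN
    · subst hn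
      have := mul_nonneg (ha0 0) hT'0.le
      linarith
    · simp
    · have h1 : (1 : ℝ) ≤ n := by exact_mod_cast Nat.one_le_iff_ne_zero.mpr hn
      have hp : (1 : ℝ) ≤ (n : ℝ) ^ s := Real.one_le_rpow h1 (by linarith)
      have hp0 : (0 : ℝ) < (n : ℝ) ^ s := by linarith
      have h2 : T' * (a n / (n : ℝ) ^ s) ≤ a n * T' := by
        rw [mul_comm]
        exact mul_le_mul_of_nonneg_right (div_le_self (ha0 n) hp) hT'0.le
      have h3 : 0 ≤ a n * Real.log n / (n : ℝ) ^ s := div_nonneg (hal0 n) hp0.le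
      linarith
    · have h1 : (1 : ℝ) ≤ n := by exact_mod_cast Nat.one_le_iff_ne_zero.mpr hn
      have hp0 : (0 : ℝ) < (n : ℝ) ^ s := Real.rpow_pos_of_pos (by linarith) s
      have hlog : T' ≤ Real.log n := by
        rw [Real.le_log_iff_exp_le (by linarith)]
        refine hN.trans ?_
        exact_mod_cast (not_lt.mp hnN)
      rw [add_zero, ← mul_div_assoc]
      refine div_le_div_of_nonneg_right ?_ hp0.le
      rw [mul_comm]
      exact mul_le_mul_of_nonneg_left hlog (ha0 n)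
  have hfin : Summable (fun n => if n < N then a n * T' else (0 : ℝ)) := by
    refine summable_of_ne_finset_zero (s := Finset.range N) fun n hn => ?_
    rw [Finset.mem_range] at hn
    simp [hn]
  have hfinM : ∑' n, (if n < N then a n * T' else (0 : ℝ)) = M := by
    rw [tsum_eq_sum (s := Finset.range N), hM]
    · refine Finset.sum_congr rfl fun n hn => ?_
      rw [Finset.mem_range] at hn
      simp [hn]
    · intro n hn
      rw [Finset.mem_range] at hn
      simp [hn]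
  have hmain : T' * ∑' n, rt a s n ≤ ∑' n, rt (fun n => a n * Real.log n) s n + M := by
    rw [← hfinM, ← hsum2.tsum_add hfin, ← tsum_mul_left]
    exact (hsum1.mul_left T').tsum_le_tsum hterm (hsum2.add hfin)
  have hLpos : 0 ≤ ∑' n, rt a s n := by linarith
  have : (T + 1) * ∑' n, rt a s n ≤ T' * ∑' n, rt a s n := mul_le_mul_of_nonneg_right hT'T hLpos
  nlinarith

end Pool.Agent.Work.MP_a5099b_nt.PrF
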