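import Pool.Agent.Work.MP_a5099b_nt.I.AOrth

set_option autoImplicit false

/-!
# ATw (size M, uses the statement of AOrth): twisted coefficients

PROOF. `tw_conv`: multiply `conv` by `χ g = χ h χ (h⁻¹ g)` and sum over `g`; for fixed `h` the map `g ↦ h⁻¹ g` is a bijection.
`tw_one`: `c 1 g = [g = 1]`. `lam_le`: in `conv` all terms are nonnegative, the term `p = (n, 1)`, `h = g` is `lam n g * c 1 1 = lam n g` (`n ≥ 1`; for `n = 1` the left side is `0`).
`sum_c`: `∑_{k ≤ n} c k g ≤ κ n + C √n ≤ (κ + |C|) n`. `c_summable`: `LSeriesSummable_of_sum_norm_bigO_and_nonneg` (Mathlib) with exponent `1`.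
`lam_summable`: `0 ≤ lam n g ≤ c n g log n`, and `log n ≤ n^((s-1)/2) * 2/(s-1)`; or: the abscissa of absolute convergence does not change by `log` (`LSeries.abscissaOfAbsConv_logMul`,
`LSeriesSummable_logMul_of_lt_re`). The twisted versions are finite sums of these (`‖χ g‖ = 1`, `LSeriesSummable.sum` or norm comparison).
`tw_log_summable`: the same with one more `log` is not needed; this is `c` with `log`.
-/

namespace Pool.Agent.Work.MP_a5099b_nt.PrF

open Finset

variable {G : Type} [CommGroup G] [Fintype G] {c lam : ℕ → G → ℝ} {κ C : ℝ}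

theorem tw_conv (h : Dat c lam κ C) (χ : G →* ℂˣ) (n : ℕ) (hn : 1 ≤ n) :
    tw c χ n * (Real.log n : ℂ) = ∑ p ∈ n.divisorsAntidiagonal, tw lam χ p.1 * tw c χ p.2 := by
  have h1 : ∀ g : G, (c n g : ℂ) * ((χ g : ℂˣ) : ℂ) * (Real.log n : ℂ) =
      ∑ p ∈ n.divisorsAntidiagonal, ∑ k : G,
        (lam p.1 k : ℂ) * (c p.2 (k⁻¹ * g) : ℂ) * ((χ g : ℂˣ) : ℂ) := by
    intro g
    have h2 : (c n g : ℂ) * (Real.log n : ℂ) = ∑ p ∈ n.divisorsAntidiagonal, ∑ k : G,
        (lam p.1 k : ℂ) * (c p.2 (k⁻¹ * g) : ℂ) := by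
      rw [← Complex.ofReal_mul, h.conv n hn g]
      push_cast
      rfl
    rw [mul_right_comm, h2, Finset.sum_mul]
    exact Finset.sum_congr rfl fun p _ => Finset.sum_mul _ _ _
  unfold tw
  rw [Finset.sum_mul, Finset.sum_congr rfl fun g _ => h1 g, Finset.sum_comm]
  refine Finset.sum_congr rfl fun p _ => ?_
  rw [Finset.sum_comm, Finset.sum_mul]
  refine Finset.sum_congr rfl fun k _ => ?_
  rw [Finset.mul_sum]
  refine Fintype.sum_equiv (Equiv.mulLeft k⁻¹) _ _ fun g => ?_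
  have h2 : ((χ g : ℂˣ) : ℂ) = ((χ k : ℂˣ) : ℂ) * ((χ (k⁻¹ * g) : ℂˣ) : ℂ) := by
    rw [← Units.val_mul, ← map_mul, mul_inv_cancel_left]
  rw [Equiv.coe_mulLeft, h2]
  ring

theorem tw_one (h : Dat c lam κ C) (χ : G →* ℂˣ) : tw c χ 1 = 1 := by
  classical
  unfold tw
  rw [Finset.sum_eq_single (1 : G)]
  · rw [h.one 1, if_pos rfl, map_one]
    simp
  · intro g _ hg
    rw [h.one g, if_neg hg]
    simp
  · intro h1
    exact absurd (Finset.mem_univ _) h1

theorem lam_le (h : Dat c lam κ C) (n : ℕ) (hn : 1 ≤ n) (g : G) : lam n g ≤ c n g * Real.log n := by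
  classical
  rw [h.conv n hn g]
  have h1 : lam n g = lam n g * c 1 (g⁻¹ * g) := by
    rw [inv_mul_cancel, h.one 1, if_pos rfl, mul_one]
  have h2 : ∑ k, lam n k * c 1 (k⁻¹ * g) ≤
      ∑ p ∈ n.divisorsAntidiagonal, ∑ k, lam p.1 k * c p.2 (k⁻¹ * g) :=
    Finset.single_le_sum (f := fun p : ℕ × ℕ => ∑ k, lam p.1 k * c p.2 (k⁻¹ * g))
      (fun p _ => Finset.sum_nonneg fun k _ => mul_nonneg (h.l0 _ _) (h.c0 _ _))
      (Nat.mem_divisorsAntidiagonal.2 ⟨mul_one n, by omega⟩ : (n, 1) ∈ n.divisorsAntidiagonal)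
  refine le_trans ?_ h2
  calc lam n g = lam n g * c 1 (g⁻¹ * g) := h1
    _ ≤ _ := Finset.single_le_sum (f := fun k => lam n k * c 1 (k⁻¹ * g))
      (fun k _ => mul_nonneg (h.l0 _ _) (h.c0 _ _)) (Finset.mem_univ g)

private theorem summ_of_le {f g : ℕ → ℂ} {s : ℂ} (hg : LSeriesSummable g s)
    (h : ∀ n, n ≠ 0 → ‖f n‖ ≤ ‖g n‖) : LSeriesSummable f s := by
  refine Summable.of_norm_bounded (g := fun n => ‖LSeries.term g s n‖) hg.norm fun n => ?_
  rcases eq_or_ne n 0 with rfl | hn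
  · simp
  · exact LSeries.norm_term_le s (h n hn)

theorem c_summable (h : Dat c lam κ C) (g : G) (s : ℝ) (hs : 1 < s) :
    LSeriesSummable (fun n => (c n g : ℂ)) s := by
  refine LSeriesSummable_of_sum_norm_bigO_and_nonneg (f := fun n => c n g) (r := 1) ?_
    (fun n => h.c0 n g) zero_le_one (by simpa using hs)
  refine Asymptotics.IsBigO.of_bound (κ + |C|) ?_
  filter_upwards [Filter.eventually_ge_atTop 1] with n hn
  have hn' : (1 : ℝ) ≤ n := by exact_mod_cast hn
  have h1 := h.cnt g n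
  have h2 : Real.sqrt n ≤ n := by
    rw [Real.sqrt_le_left (by linarith)]
    nlinarith
  have h3 : C * Real.sqrt n ≤ |C| * n :=
    (mul_le_mul_of_nonneg_right (le_abs_self C) (Real.sqrt_nonneg _)).trans
      (mul_le_mul_of_nonneg_left h2 (abs_nonneg C))
  have h4 : 0 ≤ ∑ k ∈ Icc 1 n, c k g := Finset.sum_nonneg fun k _ => h.c0 k g
  rw [Real.norm_eq_abs, abs_of_nonneg h4, Real.rpow_one, Real.norm_eq_abs, Nat.abs_cast]
  have h5 := (abs_le.1 h1).2
  linarith

private theorem c_log_summable (h : Dat c lam κ C) (g : G) (s : ℝ) (hs : 1 < s) :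
    LSeriesSummable (LSeries.logMul fun n => (c n g : ℂ)) s := by
  refine LSeriesSummable_logMul_of_lt_re ?_
  refine lt_of_le_of_lt (LSeries.abscissaOfAbsConv_le_of_forall_lt_LSeriesSummable
    (x := 1) fun y hy => c_summable h g y hy) ?_
  rw [Complex.ofReal_re]
  exact_mod_cast hs

theorem lam_summable (h : Dat c lam κ C) (g : G) (s : ℝ) (hs : 1 < s) :
    LSeriesSummable (fun n => (lam n g : ℂ)) s := by
  refine summ_of_le (c_log_summable h g s hs) fun n hn => ?_
  have hn' : 1 ≤ n := by omega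
  have h1 := lam_le h n hn' g
  have h2 : LSeries.logMul (fun n => (c n g : ℂ)) n = ((Real.log n * c n g : ℝ) : ℂ) := by
    unfold LSeries.logMul
    rw [Complex.ofReal_mul, Complex.natCast_log]
  have h3 : 0 ≤ Real.log n := Real.log_natCast_nonneg n
  rw [h2, Complex.norm_real, Complex.norm_real, Real.norm_eq_abs, Real.norm_eq_abs,
    abs_of_nonneg (h.l0 _ _), abs_of_nonneg (mul_nonneg h3 (h.c0 _ _)), mul_comm]
  exact h1

private theorem tw_summable {f : ℕ → G → ℝ} {s : ℂ}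
    (h : ∀ g, LSeriesSummable (fun n => (f n g : ℂ)) s) (χ : G →* ℂˣ) :
    LSeriesSummable (tw f χ) s := by
  have h1 : tw f χ = ∑ g : G, fun n => (f n g : ℂ) * ((χ g : ℂˣ) : ℂ) := by
    funext n
    rw [Finset.sum_apply]
    rfl
  rw [h1]
  refine LSeriesSummable.sum fun g _ => summ_of_le (h g) fun n _ => ?_
  rw [norm_mul, norm_char, mul_one]

theorem tw_c_summable (h : Dat c lam κ C) (χ : G →* ℂˣ) (s : ℝ) (hs : 1 < s) :
    LSeriesSummable (tw c χ) s := tw_summable (fun g => c_summable h g s hs) χ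

theorem tw_lam_summable (h : Dat c lam κ C) (χ : G →* ℂˣ) (s : ℝ) (hs : 1 < s) :
    LSeriesSummable (tw lam χ) s := tw_summable (fun g => lam_summable h g s hs) χ

theorem tw_log_summable (h : Dat c lam κ C) (χ : G →* ℂˣ) (s : ℝ) (hs : 1 < s) :
    LSeriesSummable (fun n => tw c χ n * (Real.log n : ℂ)) s := by
  have h1 : LSeriesSummable (LSeries.logMul (tw c χ)) s := by
    refine LSeriesSummable_logMul_of_lt_re ?_
    refine lt_of_le_of_lt (LSeries.abscissaOfAbsConv_le_of_forall_lt_LSeriesSummable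
      (x := 1) fun y hy => tw_c_summable h χ y hy) ?_
    rw [Complex.ofReal_re]
    exact_mod_cast hs
  refine summ_of_le h1 fun n _ => le_of_eq ?_
  unfold LSeries.logMul
  rw [Complex.natCast_log, mul_comm]

theorem tw_inv (c : ℕ → G → ℝ) (χ : G →* ℂˣ) (n : ℕ) :
    tw c χ⁻¹ n = (starRingEnd ℂ) (tw c χ n) := by
  unfold tw
  rw [map_sum]
  refine Finset.sum_congr rfl fun g _ => ?_
  rw [map_mul, Complex.conj_ofReal, star_char]

/-- the L-series of the inverse character is the complex conjugate (real `s`) -/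
theorem lseries_inv (c : ℕ → G → ℝ) (χ : G →* ℂˣ) (s : ℝ) :
    ‖LSeries (tw c χ⁻¹) s‖ = ‖LSeries (tw c χ) s‖ := by
  have h1 : LSeries (tw c χ⁻¹) s = (starRingEnd ℂ) (LSeries (tw c χ) s) := by
    unfold LSeries
    rw [Complex.conj_tsum]
    refine tsum_congr fun n => ?_
    rcases eq_or_ne n 0 with rfl | hn
    · simp
    · rw [LSeries.term_of_ne_zero hn, LSeries.term_of_ne_zero hn, map_div₀, tw_inv]
      congr 1
      have h2 : ((n : ℂ) ^ (s : ℂ)) = (((n : ℝ) ^ s : ℝ) : ℂ) := by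
        rw [Complex.ofReal_cpow (Nat.cast_nonneg n)]
        simp
      rw [h2, Complex.conj_ofReal]
  rw [h1, Complex.norm_conj]

end Pool.Agent.Work.MP_a5099b_nt.PrF
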