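import Mathlib

set_option autoImplicit false

/-!
# Definitions for the ideals of a number field
-/

namespace Pool.Agent.Work.MP_a5099b_nt.PrF

open Finset NumberField

variable {K : Type} [Field K] [NumberField K]

/-- `I` is a nonzero ideal whose norm is prime to `N` -/
def Sm (N : ℕ) (I : Ideal (𝓞 K)) : Prop := I ≠ ⊥ ∧ (Ideal.absNorm I).Coprime N

open scoped Classical in
/-- von Mangoldt function of the ideals: `log (absNorm P)` for `I = P ^ k`, `k ≥ 1`, `P` a nonzero prime ideal -/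
noncomputable def LamK (I : Ideal (𝓞 K)) : ℝ :=
  if h : ∃ P : Ideal (𝓞 K), P.IsPrime ∧ P ≠ ⊥ ∧ ∃ k : ℕ, 1 ≤ k ∧ I = P ^ k then
    Real.log (Ideal.absNorm h.choose) else 0

/-- the ideals of norm `n` -/
noncomputable def ids (K : Type) [Field K] [NumberField K] (n : ℕ) : Finset (Ideal (𝓞 K)) :=
  (Ideal.finite_setOfPred_absNorm_eq (S := 𝓞 K) n).toFinset

theorem mem_ids (n : ℕ) (I : Ideal (𝓞 K)) : I ∈ ids K n ↔ Ideal.absNorm I = n := by
  simp [ids]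

open scoped Classical in
/-- number of ideals of norm `n` (prime to `N`) in the class `g` -/
noncomputable def cK {G : Type} (N : ℕ) (cl : Ideal (𝓞 K) → G) (n : ℕ) (g : G) : ℝ :=
  (((ids K n).filter fun I => Sm N I ∧ cl I = g).card : ℝ)

open scoped Classical in
/-- sum of `LamK` over the ideals of norm `n` (prime to `N`) in the class `g` -/
noncomputable def lK {G : Type} (N : ℕ) (cl : Ideal (𝓞 K) → G) (n : ℕ) (g : G) : ℝ :=
  ∑ I ∈ (ids K n).filter fun I => Sm N I ∧ cl I = g, LamK I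

theorem Sm.ne {N : ℕ} {I : Ideal (𝓞 K)} (h : Sm N I) : I ≠ ⊥ := h.1

theorem Sm.cop {N : ℕ} {I : Ideal (𝓞 K)} (h : Sm N I) : (Ideal.absNorm I).Coprime N := h.2

theorem Sm.pos {N : ℕ} {I : Ideal (𝓞 K)} (h : Sm N I) : 0 < Ideal.absNorm I :=
  Nat.pos_of_ne_zero fun h0 => h.1 (Ideal.absNorm_eq_zero_iff.1 h0)

theorem Sm_iff {N : ℕ} {I : Ideal (𝓞 K)} : Sm N I ↔ 0 < Ideal.absNorm I ∧ (Ideal.absNorm I).Coprime N := by
  refine ⟨fun h => ⟨h.pos, h.2⟩, fun h => ⟨fun h0 => ?_, h.2⟩⟩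
  rw [h0, Ideal.absNorm_bot] at h
  exact lt_irrefl _ h.1

theorem Sm_mul {N : ℕ} {I J : Ideal (𝓞 K)} : Sm N (I * J) ↔ Sm N I ∧ Sm N J := by
  rw [Sm_iff, Sm_iff, Sm_iff, map_mul, Nat.coprime_mul_iff_left]
  constructor
  · rintro ⟨h1, h2, h3⟩
    exact ⟨⟨pos_of_mul_pos_left h1 (Nat.zero_le _), h2⟩, pos_of_mul_pos_right h1 (Nat.zero_le _), h3⟩
  · rintro ⟨⟨h1, h2⟩, h3, h4⟩
    exact ⟨Nat.mul_pos h1 h3, h2, h4⟩

theorem Sm_top {N : ℕ} : Sm N (⊤ : Ideal (𝓞 K)) := by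
  rw [Sm_iff, Ideal.absNorm_top]
  exact ⟨one_pos, Nat.coprime_one_left _⟩

theorem Sm_pow {N : ℕ} {I : Ideal (𝓞 K)} (h : Sm N I) (k : ℕ) : Sm N (I ^ k) := by
  induction k with
  | zero =>
    rw [pow_zero, Ideal.one_eq_top]
    exact Sm_top
  | succ k ih =>
    rw [pow_succ]
    exact Sm_mul.2 ⟨ih, h⟩

end Pool.Agent.Work.MP_a5099b_nt.PrF
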