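import Pool.Agent.Work.MP_a5099b_nt.I.BDefs

set_option autoImplicit false

/-!
# BLam (size M, Mathlib only): the von Mangoldt function of the ideals

PROOF. `LamK_pow`: the chosen `P'` with `P ^ k = P' ^ k'` is equal to `P` (unique factorization: `P' ∣ P' ^ k' = P ^ k`, so `P' ∣ P`, both are maximal, `P' = P`).
`LamK_nonneg`, `LamK_le`: `1 ≤ absNorm P ≤ absNorm (P ^ k)`. `LamK_eq_zero`: definition.
`sum_LamK`: for `I ≠ ⊥` the set of divisors is finite (`J ∣ I` gives `absNorm J ∣ absNorm I`; `Ideal.finite_setOfPred_absNorm_le` or `UniqueFactorizationMonoid`).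
Only the divisors `P ^ k` with `P ∣ I` prime, `1 ≤ k ≤ v_P(I)` (multiplicity of `P` in `normalizedFactors I`) contribute, `P ^ k ∣ I` iff `k ≤ v_P(I)`, and different pairs `(P, k)` give different
ideals. So the sum is `∑_P v_P(I) log (absNorm P) = log (∏_P absNorm P ^ v_P(I)) = log (absNorm I)` (`Ideal.absNorm` is multiplicative, `UniqueFactorizationMonoid`:
`I = ∏ P ^ v_P(I)`). Alternative: induction `UniqueFactorizationMonoid.induction_on_coprime`: for coprime `I₁, I₂` the prime power divisors `≠ 1` of `I₁ I₂` are the disjoint union of those of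
`I₁` and `I₂`; for `I = P ^ n` the divisors are the `P ^ k`, `k ≤ n`.
-/

namespace Pool.Agent.Work.MP_a5099b_nt.PrF

open Finset NumberField

variable {K : Type} [Field K] [NumberField K]

theorem LamK_pow (P : Ideal (𝓞 K)) (hP : P.IsPrime) (h0 : P ≠ ⊥) (k : ℕ) (hk : 1 ≤ k) :
    LamK (P ^ k) = Real.log (Ideal.absNorm P) := by
  have h : ∃ Q : Ideal (𝓞 K), Q.IsPrime ∧ Q ≠ ⊥ ∧ ∃ j : ℕ, 1 ≤ j ∧ P ^ k = Q ^ j :=
    ⟨P, hP, h0, k, hk, rfl⟩
  have hL : LamK (P ^ k) = Real.log (Ideal.absNorm h.choose) := by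
    rw [LamK, dif_pos h]
  rw [hL]
  obtain ⟨hQ, hQ0, j, hj, hj2⟩ := h.choose_spec
  have hQP : Prime h.choose := Ideal.prime_of_isPrime hQ0 hQ
  have hd : h.choose ∣ P ^ k := (dvd_pow_self _ (by omega)).trans (dvd_of_eq hj2.symm)
  have hd2 : h.choose ∣ P := hQP.dvd_of_dvd_pow hd
  have hle : P ≤ h.choose := Ideal.dvd_iff_le.1 hd2
  have hmax : P.IsMaximal := hP.isMaximal h0
  have heq : P = h.choose := hmax.eq_of_le hQ.ne_top hle
  rw [← heq]

theorem LamK_eq_zero (I : Ideal (𝓞 K))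
    (h : ¬ ∃ P : Ideal (𝓞 K), P.IsPrime ∧ P ≠ ⊥ ∧ ∃ k : ℕ, 1 ≤ k ∧ I = P ^ k) : LamK I = 0 := by
  rw [LamK, dif_neg h]

theorem LamK_nonneg (I : Ideal (𝓞 K)) : 0 ≤ LamK I := by
  rw [LamK]
  split_ifs with h
  · exact Real.log_natCast_nonneg _
  · exact le_rfl

theorem LamK_top : LamK (⊤ : Ideal (𝓞 K)) = 0 := by
  refine LamK_eq_zero _ ?_
  rintro ⟨P, hP, h0, k, hk, h⟩
  have h1 : P ^ k ≤ P := Ideal.pow_le_self (by omega)
  rw [← h] at h1
  exact hP.ne_top (top_le_iff.1 h1)

theorem finite_dvd (I : Ideal (𝓞 K)) (hI : I ≠ ⊥) : {J : Ideal (𝓞 K) | J ∣ I}.Finite := by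
  have h := UniqueFactorizationMonoid.fintypeSubtypeDvd I (by simpa using hI)
  exact Set.finite_coe_iff.1 (Finite.of_fintype {J // J ∣ I})

private theorem mem_dv (I : Ideal (𝓞 K)) (hI : I ≠ ⊥) (J : Ideal (𝓞 K)) :
    J ∈ (finite_dvd I hI).toFinset ↔ J ∣ I := by
  simp

theorem sum_LamK (I : Ideal (𝓞 K)) (hI : I ≠ ⊥) :
    ∑ J ∈ (finite_dvd I hI).toFinset, LamK J = Real.log (Ideal.absNorm I) := by
  classical
  refine UniqueFactorizationMonoid.induction_on_coprime
    (P := fun I : Ideal (𝓞 K) => ∀ hI : I ≠ ⊥,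
      ∑ J ∈ (finite_dvd I hI).toFinset, LamK J = Real.log (Ideal.absNorm I)) I ?_ ?_ ?_ ?_ hI
  · intro h
    exact absurd rfl h
  · intro x hx h
    have hx' : x = ⊤ := Ideal.isUnit_iff.1 hx
    subst hx'
    rw [Ideal.absNorm_top, Nat.cast_one, Real.log_one]
    refine Finset.sum_eq_zero fun J hJ => ?_
    have hJ' := (mem_dv _ h J).1 hJ
    have : J = ⊤ := by
      rw [Ideal.dvd_iff_le] at hJ'
      exact top_le_iff.1 hJ'
    rw [this, LamK_top]
  · intro P i hP h
    have hPp : P.IsPrime := Ideal.isPrime_of_prime hP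
    have hP0 : P ≠ ⊥ := by simpa using hP.ne_zero
    have hset : (finite_dvd (P ^ i) h).toFinset = (Finset.range (i + 1)).image fun k => P ^ k := by
      ext J
      rw [mem_dv _ h, dvd_prime_pow hP]
      simp only [Finset.mem_image, Finset.mem_range, associated_iff_eq]
      constructor
      · rintro ⟨j, hj, hj2⟩
        exact ⟨j, by omega, hj2.symm⟩
      · rintro ⟨j, hj, hj2⟩
        exact ⟨j, by omega, hj2.symm⟩
    rw [hset, Finset.sum_image]
    · rw [Finset.sum_range_succ']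
      rw [Finset.sum_congr rfl fun k _ => LamK_pow P hPp hP0 (k + 1) (by omega)]
      rw [pow_zero, Ideal.one_eq_top, LamK_top, map_pow, Nat.cast_pow, Real.log_pow]
      simp
    · intro a _ b _ hab
      exact (pow_inj_of_not_isUnit hP.not_isUnit hP.ne_zero).1 hab
  · intro x y hxy hx hy h
    have hx0 : x ≠ ⊥ := by
      rintro rfl
      exact h (by simp)
    have hy0 : y ≠ ⊥ := by
      rintro rfl
      exact h (by simp)
    have h1 : ∑ J ∈ (finite_dvd (x * y) h).toFinset, LamK J =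
        ∑ J ∈ (finite_dvd x hx0).toFinset ∪ (finite_dvd y hy0).toFinset, LamK J := by
      symm
      refine Finset.sum_subset ?_ ?_
      · intro J hJ
        rw [Finset.mem_union, mem_dv x hx0, mem_dv y hy0] at hJ
        rw [mem_dv _ h]
        rcases hJ with hJ | hJ
        · exact dvd_mul_of_dvd_left hJ _
        · exact dvd_mul_of_dvd_right hJ _
      · intro J hJ hJ2
        rw [Finset.mem_union, mem_dv x hx0, mem_dv y hy0] at hJ2
        rw [mem_dv _ h] at hJ
        refine LamK_eq_zero _ ?_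
        rintro ⟨P, hP, h0, k, hk, rfl⟩
        have hPp : Prime P := Ideal.prime_of_isPrime h0 hP
        push Not at hJ2
        by_cases hdx : P ∣ x
        · have hdy : ¬ P ∣ y := by
            intro hdy
            exact hPp.not_isUnit (hxy hdx hdy)
          exact hJ2.1 (hPp.pow_dvd_of_dvd_mul_right k hdy hJ)
        · exact hJ2.2 (hPp.pow_dvd_of_dvd_mul_left k hdx hJ)
    have h2 := Finset.sum_union_inter (s₁ := (finite_dvd x hx0).toFinset)
      (s₂ := (finite_dvd y hy0).toFinset) (f := fun J : Ideal (𝓞 K) => LamK J)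
    have h3 : ∑ J ∈ (finite_dvd x hx0).toFinset ∩ (finite_dvd y hy0).toFinset, LamK J = 0 := by
      refine Finset.sum_eq_zero fun J hJ => ?_
      rw [Finset.mem_inter, mem_dv x hx0, mem_dv y hy0] at hJ
      have hu : IsUnit J := hxy hJ.1 hJ.2
      rw [Ideal.isUnit_iff.1 hu, LamK_top]
    rw [h1]
    rw [h3, add_zero, hx hx0, hy hy0] at h2
    rw [h2, map_mul, Nat.cast_mul, Real.log_mul]
    · exact_mod_cast fun h0 => hx0 (Ideal.absNorm_eq_zero_iff.1 h0)
    · exact_mod_cast fun h0 => hy0 (Ideal.absNorm_eq_zero_iff.1 h0)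

end Pool.Agent.Work.MP_a5099b_nt.PrF
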