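import Mathlib

set_option autoImplicit false

/-!
# CLat (size M, Mathlib only): lattice points in discs

PROOF. Let `Λ = span ℤ (range b)`, `P = ZSpan.fundamentalDomain b` (bounded, measurable, volume `A > 0`), `D` with `‖p‖ ≤ D` for `p ∈ P`. Let `S = {z : z - v ∈ Λ, ‖z‖ ≤ r}`: it is finite (discreteness:
`ZSpan`/`Bornology` finiteness of a lattice in a bounded set). The sets `z + P`, `z ∈ v + Λ`, are pairwise disjoint and cover `ℂ` (`ZSpan.isAddFundamentalDomain`, or `ZSpan.fract`: every `w`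
has `w - v = ⌊⌋ + fract`). Hence `#S * A = volume (⋃_{z ∈ S} (z + P))`. This union is contained in the closed ball of radius `r + D` and contains the closed ball of radius `r - D` (if `w` is in this ball, `w ∈ z + P`, then
`‖z‖ ≤ ‖w‖ + D ≤ r`). Areas of balls: `Complex.volume_closedBall` (`π r²`). So `π (r - D)² ≤ #S A ≤ π (r + D)²` if `r ≥ D`, and `0 ≤ #S A ≤ π (r + D)²` if `r < D`; in both cases
`|#S A - π r²| ≤ π (2 r D + D²) + π D²`. Uniform in `v`.
-/

namespace Pool.Agent.Work.MP_a5099b_nt.PrF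

open MeasureTheory

theorem lattice_finite (b : Module.Basis (Fin 2) ℝ ℂ) (v : ℂ) (r : ℝ) :
    {z : ℂ | z - v ∈ Submodule.span ℤ (Set.range b) ∧ ‖z‖ ≤ r}.Finite := by
  have h1 : (Metric.closedBall (0 : ℂ) (r + ‖v‖) ∩ (Submodule.span ℤ (Set.range b) : Set ℂ)).Finite :=
    ZSpan.setFinite_inter b Metric.isBounded_closedBall
  refine Set.Finite.of_finite_image (f := fun z => z - v) (h1.subset ?_) (by
    intro x _ y _ h
    simpa using h)
  rintro _ ⟨z, ⟨hz1, hz2⟩, rfl⟩
  refine ⟨?_, hz1⟩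
  rw [mem_closedBall_zero_iff]
  exact (norm_sub_le _ _).trans (by linarith)

theorem lattice_count (b : Module.Basis (Fin 2) ℝ ℂ) : ∃ A C : ℝ, 0 < A ∧ ∀ (v : ℂ) (r : ℝ), 0 ≤ r →
    |(({z : ℂ | z - v ∈ Submodule.span ℤ (Set.range b) ∧ ‖z‖ ≤ r}.ncard : ℕ) : ℝ) - A * r ^ 2| ≤ C * (1 + r) := by
  classical
  set P : Set ℂ := ZSpan.fundamentalDomain b with hP
  have hPm : MeasurableSet P := ZSpan.fundamentalDomain_measurableSet b
  have hPb : Bornology.IsBounded P := ZSpan.fundamentalDomain_isBounded b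
  obtain ⟨D, hD⟩ := hPb.exists_norm_le
  have hfr : ∀ w : ℂ, ZSpan.fract b w ∈ P := fun w => ZSpan.fract_mem_fundamentalDomain b w
  have hD0 : 0 ≤ D := (norm_nonneg _).trans (hD _ (hfr 0))
  have hV0 : volume P ≠ 0 := ZSpan.measure_fundamentalDomain_ne_zero b
  have hV1 : volume P ≠ ⊤ := hPb.measure_lt_top.ne
  set V : ℝ := (volume P).toReal with hV
  have hVpos : 0 < V := ENNReal.toReal_pos hV0 hV1
  have hball : ∀ R : ℝ, 0 ≤ R → (volume (Metric.closedBall (0 : ℂ) R)).toReal = Real.pi * R ^ 2 := by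
    intro R hR
    rw [Complex.volume_closedBall, ENNReal.toReal_mul, ENNReal.toReal_pow, ENNReal.toReal_ofReal hR]
    simp [mul_comm]
  refine ⟨Real.pi / V, Real.pi * (2 * D + 2 * D ^ 2) / V, by positivity, fun v r hr => ?_⟩
  set S : Set ℂ := {z : ℂ | z - v ∈ Submodule.span ℤ (Set.range b) ∧ ‖z‖ ≤ r} with hS
  have hSf : S.Finite := lattice_finite b v r
  set Q : ℂ → Set ℂ := fun z => (fun w => w + (-z)) ⁻¹' P with hQ
  have hQm : ∀ z, MeasurableSet (Q z) := fun z => hPm.preimage (measurable_id.add_const _)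
  have hQv : ∀ z, volume (Q z) = volume P := fun z => measure_preimage_add_right volume (-z) P
  have hdisj : (hSf.toFinset : Set ℂ).PairwiseDisjoint Q := by
    intro z hz z' hz' hne
    rw [Function.onFun, Set.disjoint_left]
    intro w hw hw'
    apply hne
    have e1 : ZSpan.fract b (w + -z) = w + -z := ZSpan.fract_eq_self.2 hw
    have e2 : ZSpan.fract b (w + -z') = w + -z' := ZSpan.fract_eq_self.2 hw'
    have e3 : ZSpan.fract b (w + -z) = ZSpan.fract b (w + -z') := by
      rw [ZSpan.fract_eq_fract]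
      have h1 : z - v ∈ Submodule.span ℤ (Set.range b) := (hSf.mem_toFinset.1 hz).1
      have h2 : z' - v ∈ Submodule.span ℤ (Set.range b) := (hSf.mem_toFinset.1 hz').1
      have h3 := Submodule.sub_mem _ h1 h2
      convert h3 using 1
      ring
    rw [e1, e2] at e3
    have e4 := add_left_cancel e3
    simpa using e4
  have hcard : (S.ncard : ℝ) * V = (volume (⋃ z ∈ hSf.toFinset, Q z)).toReal := by
    rw [measure_biUnion_finset hdisj fun z _ => hQm z, Finset.sum_congr rfl fun z _ => hQv z, Finset.sum_const,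
      Set.ncard_eq_toFinset_card S hSf, nsmul_eq_mul, ENNReal.toReal_mul, ENNReal.toReal_natCast]
  have hup : (S.ncard : ℝ) * V ≤ Real.pi * (r + D) ^ 2 := by
    rw [hcard, ← hball (r + D) (by linarith)]
    refine ENNReal.toReal_mono Metric.isBounded_closedBall.measure_lt_top.ne (measure_mono ?_)
    intro w hw
    simp only [Set.mem_iUnion] at hw
    obtain ⟨z, hz, hw⟩ := hw
    have h1 : ‖z‖ ≤ r := (hSf.mem_toFinset.1 hz).2
    have h2 : ‖w + -z‖ ≤ D := hD _ hw
    rw [mem_closedBall_zero_iff]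
    calc ‖w‖ = ‖z + (w + -z)‖ := by ring_nf
      _ ≤ ‖z‖ + ‖w + -z‖ := norm_add_le _ _
      _ ≤ r + D := add_le_add h1 h2
  have hlow : D ≤ r → Real.pi * (r - D) ^ 2 ≤ (S.ncard : ℝ) * V := by
    intro hDr
    rw [hcard, ← hball (r - D) (by linarith)]
    refine ENNReal.toReal_mono ?_ (measure_mono ?_)
    · rw [measure_biUnion_finset hdisj fun z _ => hQm z, Finset.sum_congr rfl fun z _ => hQv z]
      exact ENNReal.sum_ne_top.2 fun _ _ => hV1
    · intro w hw
      rw [mem_closedBall_zero_iff] at hw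
      simp only [Set.mem_iUnion]
      refine ⟨w - ZSpan.fract b (w - v), ?_, ?_⟩
      · rw [hSf.mem_toFinset]
        refine ⟨?_, ?_⟩
        · have h3 : w - ZSpan.fract b (w - v) - v = (ZSpan.floor b (w - v) : ℂ) := by
            rw [ZSpan.fract_apply]
            ring
          rw [h3]
          exact (ZSpan.floor b (w - v)).2
        · refine (norm_sub_le _ _).trans ?_
          have := hD _ (hfr (w - v))
          linarith
      · show w + -(w - ZSpan.fract b (w - v)) ∈ P
        have h4 : w + -(w - ZSpan.fract b (w - v)) = ZSpan.fract b (w - v) := by ring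
        rw [h4]
        exact hfr _
  have hpi := Real.pi_pos
  have key : |(S.ncard : ℝ) * V - Real.pi * r ^ 2| ≤ Real.pi * (2 * D + 2 * D ^ 2) * (1 + r) := by
    rw [abs_le]
    constructor
    · by_cases hDr : D ≤ r
      · have := hlow hDr
        nlinarith [mul_nonneg hpi.le (mul_nonneg hD0 hr), mul_nonneg hpi.le (sq_nonneg D),
          mul_nonneg hpi.le (mul_nonneg (sq_nonneg D) hr), mul_nonneg hpi.le hD0]
      · push Not at hDr
        have h5 : 0 ≤ (S.ncard : ℝ) * V := by positivity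
        have h6 : r ^ 2 ≤ D ^ 2 := by nlinarith
        nlinarith [mul_nonneg hpi.le (mul_nonneg hD0 hr), mul_nonneg hpi.le (sq_nonneg D),
          mul_nonneg hpi.le (mul_nonneg (sq_nonneg D) hr), mul_nonneg hpi.le hD0,
          mul_le_mul_of_nonneg_left h6 hpi.le]
    · nlinarith [mul_nonneg hpi.le (mul_nonneg hD0 hr), mul_nonneg hpi.le (sq_nonneg D),
        mul_nonneg hpi.le (mul_nonneg (sq_nonneg D) hr), mul_nonneg hpi.le hD0]
  have e7 : (S.ncard : ℝ) - Real.pi / V * r ^ 2 = ((S.ncard : ℝ) * V - Real.pi * r ^ 2) / V := by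
    field_simp
  rw [e7, abs_div, abs_of_pos hVpos, div_le_iff₀ hVpos]
  have e8 : Real.pi * (2 * D + 2 * D ^ 2) / V * (1 + r) * V = Real.pi * (2 * D + 2 * D ^ 2) * (1 + r) := by
    field_simp
  rw [e8]
  exact key

end Pool.Agent.Work.MP_a5099b_nt.PrF
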