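import Pool.Agent.Work.MP_a5099b_nt.I.CInt
import Pool.Agent.Work.MP_a5099b_nt.I.CLat

set_option autoImplicit false

/-!
# CCos (size M-L, uses the statements of CInt, CLat): elements of bounded norm in a coset of an ideal

PROOF. Embed `σ : 𝓞 K → ℂ`, `σ x = (u + v i √q)/2` for `2 x = u + v δ` (additive, injective), `‖σ x‖² = norm x` (`four_norm`). For an ideal `J ≠ ⊥` of index `m = absNorm J`, `J` is a free `ℤ`-module of rank
`2` (`m 𝓞 ⊆ J`; `Ideal.selfBasis` or `Submodule` of `𝓞`), the images of a `ℤ`-basis are `ℝ`-linearly independent in `ℂ` (their span contains `m` and `m σ δ`), so they form a basis `b_J : Basis (Fin 2) ℝ ℂ` with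
`span ℤ (range b_J) = σ(J)`. `lattice_count` gives `A_J > 0`, `C_J` with `|#{x ∈ v + J : norm x ≤ T} - A_J T| ≤ C_J (1 + √T)` for all `v` (`r = √T`).
Apply it to `J` and to `⊤`: `𝓞 K` is the disjoint union of the `m` cosets of `J`, so `|A_⊤ T - m A_J T| ≤ C (1 + √T)` for all `T ≥ 0`, hence `A_⊤ = m A_J`. Put `κ = A_⊤`.
-/

namespace Pool.Agent.Work.MP_a5099b_nt.PrF

open Finset NumberField

variable {K : Type} [Field K] [NumberField K] {q : ℕ} {δ : 𝓞 K}

private noncomputable def emb (K : Type) [Field K] [NumberField K] : 𝓞 K →+* ℂ :=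
  (Classical.arbitrary (K →+* ℂ)).comp (algebraMap (𝓞 K) K)

private theorem emb_inj : Function.Injective (emb K) := by
  intro x y hxy
  simp only [emb, RingHom.comp_apply] at hxy
  exact RingOfIntegers.coe_injective ((Classical.arbitrary (K →+* ℂ)).injective hxy)

private theorem emb_delta (h : Quad K q δ) : (emb K δ).re = 0 ∧ (emb K δ).im ^ 2 = q := by
  have h1 : emb K δ * emb K δ = -(q : ℂ) := by
    rw [← map_mul, h.sq, map_neg, map_natCast]
  have hre := congrArg Complex.re h1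
  have him := congrArg Complex.im h1
  simp only [Complex.mul_re, Complex.mul_im, Complex.neg_re, Complex.neg_im, Complex.natCast_re,
    Complex.natCast_im, neg_zero] at hre him
  have hq : (0 : ℝ) < q := by exact_mod_cast h.prime.pos
  have hre0 : (emb K δ).re = 0 := by
    have h2 : (emb K δ).re * (emb K δ).im = 0 := by linarith
    rcases mul_eq_zero.1 h2 with h3 | h3
    · exact h3
    · rw [h3] at hre
      nlinarith [mul_self_nonneg (emb K δ).re]
  refine ⟨hre0, ?_⟩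
  rw [hre0] at hre
  nlinarith

private theorem emb_norm (h : Quad K q δ) (x : 𝓞 K) : ‖emb K x‖ ^ 2 = ((Algebra.norm ℤ x : ℤ) : ℝ) := by
  obtain ⟨u, v, hx, -⟩ := coords h x
  have h4 := four_norm h x u v hx
  obtain ⟨hr, hi⟩ := emb_delta h
  have h5 : (2 : ℂ) * emb K x = u + v * emb K δ := by
    have := congrArg (emb K) hx
    simpa only [map_mul, map_add, map_intCast, map_ofNat] using this
  have h6 := congrArg Complex.normSq h5
  rw [Complex.normSq_mul, Complex.normSq_apply (_ + _)] at h6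
  simp only [Complex.add_re, Complex.add_im, Complex.intCast_re, Complex.intCast_im, Complex.mul_re,
    Complex.mul_im, hr] at h6
  rw [← Complex.normSq_eq_norm_sq]
  have h7 : Complex.normSq (2 : ℂ) = 4 := by
    rw [Complex.normSq_apply]
    norm_num
  rw [h7] at h6
  have h8 : (4 : ℝ) * ((Algebra.norm ℤ x : ℤ) : ℝ) = (u : ℝ) ^ 2 + q * (v : ℝ) ^ 2 := by exact_mod_cast h4
  nlinarith

private theorem exists_basis (h : Quad K q δ) (J : Ideal (𝓞 K)) (hJ : J ≠ ⊥) :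
    ∃ b : Module.Basis (Fin 2) ℝ ℂ, ∀ z : ℂ, z ∈ Submodule.span ℤ (Set.range b) ↔ ∃ x ∈ J, emb K x = z := by
  have hrk : Module.finrank ℤ (𝓞 K) = 2 := by rw [RingOfIntegers.rank, h.deg]
  set e : Module.Basis (Fin 2) ℤ (𝓞 K) := Module.finBasisOfFinrankEq ℤ (𝓞 K) hrk with he
  set c : Module.Basis (Fin 2) ℤ J := Ideal.selfBasis e J hJ with hc
  set f : J →ₗ[ℤ] ℂ := ((emb K).toAddMonoidHom.toIntLinearMap).comp (J.subtype.restrictScalars ℤ) with hf
  have hfx : ∀ x : J, f x = emb K (x : 𝓞 K) := fun x => rfl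
  have hspan : Submodule.span ℤ (Set.range (f ∘ c)) = Submodule.map f ⊤ := by
    rw [Set.range_comp, ← Submodule.map_span, c.span_eq]
  have hmem : ∀ z : ℂ, z ∈ Submodule.span ℤ (Set.range (f ∘ c)) ↔ ∃ x ∈ J, emb K x = z := by
    intro z
    rw [hspan, Submodule.mem_map]
    constructor
    · rintro ⟨x, -, hx⟩
      exact ⟨x, x.2, by rw [← hx, hfx]⟩
    · rintro ⟨x, hx, hz⟩
      exact ⟨⟨x, hx⟩, trivial, by rw [hfx]; exact hz⟩
  have htop : ⊤ ≤ Submodule.span ℝ (Set.range (f ∘ c)) := by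
    intro z _
    have hle : ∀ w : ℂ, w ∈ Submodule.span ℤ (Set.range (f ∘ c)) → w ∈ Submodule.span ℝ (Set.range (f ∘ c)) :=
      fun w hw => Submodule.span_le_restrictScalars ℤ ℝ _ hw
    obtain ⟨hr, hi⟩ := emb_delta h
    have hm0 : (Ideal.absNorm J : ℝ) ≠ 0 := by
      have : Ideal.absNorm J ≠ 0 := fun h0 => hJ (Ideal.absNorm_eq_zero_iff.1 h0)
      exact_mod_cast this
    have hq : (0 : ℝ) < q := by exact_mod_cast h.prime.pos
    have hi0 : (emb K δ).im ≠ 0 := by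
      intro h0
      rw [h0] at hi
      simp at hi
      exact hq.ne hi
    have h1 : ((Ideal.absNorm J : ℕ) : ℂ) ∈ Submodule.span ℝ (Set.range (f ∘ c)) := by
      apply hle
      rw [hmem]
      exact ⟨(Ideal.absNorm J : 𝓞 K), Ideal.absNorm_mem J, by simp⟩
    have h2 : ((Ideal.absNorm J : ℕ) : ℂ) * emb K δ ∈ Submodule.span ℝ (Set.range (f ∘ c)) := by
      apply hle
      rw [hmem]
      exact ⟨(Ideal.absNorm J : 𝓞 K) * δ, J.mul_mem_right _ (Ideal.absNorm_mem J), by simp⟩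
    have h3 : z = (z.re / (Ideal.absNorm J : ℝ)) • ((Ideal.absNorm J : ℕ) : ℂ) +
        (z.im / ((Ideal.absNorm J : ℝ) * (emb K δ).im)) • (((Ideal.absNorm J : ℕ) : ℂ) * emb K δ) := by
      apply Complex.ext
      · rw [Complex.add_re, Complex.smul_re, Complex.smul_re, Complex.mul_re, Complex.natCast_re,
          Complex.natCast_im, hr]
        simp only [smul_eq_mul, mul_zero, zero_mul, sub_zero, add_zero]
        field_simp
      · rw [Complex.add_im, Complex.smul_im, Complex.smul_im, Complex.mul_im, Complex.natCast_re,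
          Complex.natCast_im, hr]
        simp only [smul_eq_mul, mul_zero, add_zero, zero_add]
        field_simp
    rw [h3]
    exact Submodule.add_mem _ (Submodule.smul_mem _ _ h1) (Submodule.smul_mem _ _ h2)
  have hcard : Fintype.card (Fin 2) = Module.finrank ℝ ℂ := by
    rw [Complex.finrank_real_complex, Fintype.card_fin]
  refine ⟨basisOfTopLeSpanOfCardEqFinrank (f ∘ c) htop hcard, fun z => ?_⟩
  rw [coe_basisOfTopLeSpanOfCardEqFinrank]
  exact hmem z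

private theorem img_eq (h : Quad K q δ) (J : Ideal (𝓞 K)) (b : Module.Basis (Fin 2) ℝ ℂ)
    (hb : ∀ z : ℂ, z ∈ Submodule.span ℤ (Set.range b) ↔ ∃ x ∈ J, emb K x = z) (v : 𝓞 K) (T : ℝ) (hT : 0 ≤ T) :
    emb K '' {x : 𝓞 K | x - v ∈ J ∧ ((Algebra.norm ℤ x : ℤ) : ℝ) ≤ T} =
      {z : ℂ | z - emb K v ∈ Submodule.span ℤ (Set.range b) ∧ ‖z‖ ≤ Real.sqrt T} := by
  have hn : ∀ x : 𝓞 K, ‖emb K x‖ ≤ Real.sqrt T ↔ ((Algebra.norm ℤ x : ℤ) : ℝ) ≤ T := by
    intro x
    rw [Real.le_sqrt (_root_.norm_nonneg _) hT, emb_norm h]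
  ext z
  constructor
  · rintro ⟨x, ⟨hx1, hx2⟩, rfl⟩
    exact ⟨(hb _).2 ⟨x - v, hx1, by rw [map_sub]⟩, (hn x).2 hx2⟩
  · rintro ⟨h1, h2⟩
    obtain ⟨y, hy, hyz⟩ := (hb _).1 h1
    have h3 : emb K (y + v) = z := by
      rw [map_add, hyz]
      ring
    refine ⟨y + v, ⟨by simpa using hy, ?_⟩, h3⟩
    rw [← hn, h3]
    exact h2

theorem norm_le_finite (h : Quad K q δ) (T : ℝ) : {x : 𝓞 K | ((Algebra.norm ℤ x : ℤ) : ℝ) ≤ T}.Finite := by
  rcases le_or_gt 0 T with hT | hT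
  · obtain ⟨b, hb⟩ := exists_basis h ⊤ top_ne_bot
    have h1 := lattice_finite b (emb K 0) (Real.sqrt T)
    rw [← img_eq h ⊤ b hb 0 T hT] at h1
    have h2 := h1.of_finite_image emb_inj.injOn
    refine h2.subset fun x hx => ⟨Submodule.mem_top, hx⟩
  · convert Set.finite_empty
    ext x
    simp only [Set.mem_ofPred_eq, Set.mem_empty_iff_false, iff_false, not_le]
    refine lt_of_lt_of_le hT ?_
    exact_mod_cast norm_nonneg h x

private theorem count_J (h : Quad K q δ) (J : Ideal (𝓞 K)) (hJ : J ≠ ⊥) :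
    ∃ A C : ℝ, 0 < A ∧ ∀ (v : 𝓞 K) (T : ℝ), 0 ≤ T →
      |(({x : 𝓞 K | x - v ∈ J ∧ ((Algebra.norm ℤ x : ℤ) : ℝ) ≤ T}.ncard : ℕ) : ℝ) - A * T| ≤
        C * (1 + Real.sqrt T) := by
  obtain ⟨b, hb⟩ := exists_basis h J hJ
  obtain ⟨A, C, hA, hAC⟩ := lattice_count b
  refine ⟨A, C, hA, fun v T hT => ?_⟩
  have h1 := hAC (emb K v) (Real.sqrt T) (Real.sqrt_nonneg T)
  rw [← img_eq h J b hb v T hT, Set.ncard_image_of_injective _ emb_inj, Real.sq_sqrt hT] at h1
  exact h1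

private theorem lin_zero (a C : ℝ) (hC : ∀ T : ℝ, 0 ≤ T → |a * T| ≤ C * (1 + Real.sqrt T)) : a = 0 := by
  by_contra ha
  have ha' : 0 < |a| := abs_pos.2 ha
  have hC0 : 0 ≤ C := by
    have := hC 0 le_rfl
    simpa using this
  have h1 := hC ((2 * C / |a| + 1) ^ 2) (by positivity)
  have h2 : 0 ≤ 2 * C / |a| + 1 := by positivity
  rw [Real.sqrt_sq h2, abs_mul, abs_of_nonneg (sq_nonneg (2 * C / |a| + 1))] at h1
  set s := 2 * C / |a| + 1 with hs
  have h3 : |a| * (s - 1) = 2 * C := by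
    rw [hs]
    field_simp
    ring
  have h4 : 1 ≤ s := by
    rw [hs]
    have : 0 ≤ 2 * C / |a| := by positivity
    linarith
  nlinarith [mul_nonneg ha'.le (sub_nonneg.2 h4), mul_pos ha' (lt_of_lt_of_le one_pos h4)]

theorem coset_count (h : Quad K q δ) : ∃ κ : ℝ, 0 < κ ∧ ∀ J : Ideal (𝓞 K), J ≠ ⊥ → ∃ C : ℝ,
    ∀ (v : 𝓞 K) (T : ℝ), 0 ≤ T →
      |(({x : 𝓞 K | x - v ∈ J ∧ ((Algebra.norm ℤ x : ℤ) : ℝ) ≤ T}.ncard : ℕ) : ℝ) -
        κ * T / (Ideal.absNorm J : ℝ)| ≤ C * (1 + Real.sqrt T) := by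
  classical
  obtain ⟨κ, C₀, hκ, hC₀⟩ := count_J h ⊤ top_ne_bot
  refine ⟨κ, hκ, fun J hJ => ?_⟩
  obtain ⟨A, C, hA, hC⟩ := count_J h J hJ
  have hm0 : Ideal.absNorm J ≠ 0 := fun h0 => hJ (Ideal.absNorm_eq_zero_iff.1 h0)
  have hcardQ : Nat.card (𝓞 K ⧸ J) = Ideal.absNorm J := by
    rw [Ideal.absNorm_apply, Submodule.cardQuot_apply]
  have : Finite (𝓞 K ⧸ J) := by
    apply Nat.finite_of_card_ne_zero
    rw [hcardQ]
    exact hm0
  have : Fintype (𝓞 K ⧸ J) := Fintype.ofFinite _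
  have hcard' : Fintype.card (𝓞 K ⧸ J) = Ideal.absNorm J := by
    rw [← hcardQ, Nat.card_eq_fintype_card]
  have hdec : ∀ T : ℝ, (({x : 𝓞 K | x - 0 ∈ (⊤ : Ideal (𝓞 K)) ∧ ((Algebra.norm ℤ x : ℤ) : ℝ) ≤ T}.ncard : ℕ) : ℝ) =
      ∑ c : 𝓞 K ⧸ J, (({x : 𝓞 K | x - c.out ∈ J ∧ ((Algebra.norm ℤ x : ℤ) : ℝ) ≤ T}.ncard : ℕ) : ℝ) := by
    intro T
    have hE := norm_le_finite h T
    have e1 : {x : 𝓞 K | x - 0 ∈ (⊤ : Ideal (𝓞 K)) ∧ ((Algebra.norm ℤ x : ℤ) : ℝ) ≤ T} = (hE.toFinset : Set (𝓞 K)) := by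
      ext x
      simp
    have e2 : ∀ c : 𝓞 K ⧸ J, {x : 𝓞 K | x - c.out ∈ J ∧ ((Algebra.norm ℤ x : ℤ) : ℝ) ≤ T} =
        ((hE.toFinset.filter fun x => Ideal.Quotient.mk J x = c : Finset (𝓞 K)) : Set (𝓞 K)) := by
      intro c
      ext x
      simp only [Set.mem_ofPred_eq, Finset.coe_filter, Set.Finite.mem_toFinset]
      rw [← Ideal.Quotient.eq]
      have : Ideal.Quotient.mk J c.out = c := Quotient.out_eq' c
      rw [this]
      exact and_comm
    rw [e1, Set.ncard_coe_finset]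
    have e3 := Finset.card_eq_sum_card_fiberwise (f := fun x => Ideal.Quotient.mk J x) (s := hE.toFinset)
      (t := Finset.univ) (fun x _ => Finset.mem_univ _)
    rw [e3]
    push_cast
    refine Finset.sum_congr rfl fun c _ => ?_
    rw [e2, Set.ncard_coe_finset]
  have hmain : κ - (Ideal.absNorm J : ℝ) * A = 0 := by
    refine lin_zero _ (C₀ + (Ideal.absNorm J : ℝ) * C) fun T hT => ?_
    have h1 := hC₀ 0 T hT
    rw [hdec T] at h1
    have h2 : |∑ c : 𝓞 K ⧸ J, ((({x : 𝓞 K | x - c.out ∈ J ∧ ((Algebra.norm ℤ x : ℤ) : ℝ) ≤ T}.ncard : ℕ) : ℝ) - A * T)| ≤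
        (Ideal.absNorm J : ℝ) * (C * (1 + Real.sqrt T)) := by
      refine (Finset.abs_sum_le_sum_abs _ _).trans ?_
      refine (Finset.sum_le_sum fun c _ => hC c.out T hT).trans ?_
      rw [Finset.sum_const, nsmul_eq_mul, Finset.card_univ, hcard']
    rw [Finset.sum_sub_distrib, Finset.sum_const, nsmul_eq_mul, Finset.card_univ, hcard'] at h2
    rw [abs_le] at h1 h2 ⊢
    constructor <;> nlinarith
  have hmR : (Ideal.absNorm J : ℝ) ≠ 0 := by exact_mod_cast hm0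
  refine ⟨C, fun v T hT => ?_⟩
  have h3 := hC v T hT
  have h4 : κ * T / (Ideal.absNorm J : ℝ) = A * T := by
    have : κ = (Ideal.absNorm J : ℝ) * A := by linarith
    rw [this]
    field_simp
  rw [h4]
  exact h3

end Pool.Agent.Work.MP_a5099b_nt.PrF
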