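import Pool.Agent.Work.MP_a5099b_nt.I.BDefs

set_option autoImplicit false

/-!
# Definitions for the imaginary quadratic field `K = ℚ(√-q)`, `q ≡ 3 mod 4` prime, `q ≥ 7`
-/

namespace Pool.Agent.Work.MP_a5099b_nt.PrF

open Finset NumberField

variable {K : Type} [Field K] [NumberField K]

/-- `K = ℚ(√-q)`, `δ = √-q` -/
structure Quad (K : Type) [Field K] [NumberField K] (q : ℕ) (δ : 𝓞 K) : Prop where
  prime : q.Prime
  mod4 : q % 4 = 3
  seven : 7 ≤ q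
  deg : Module.finrank ℚ K = 2
  sq : δ * δ = -(q : 𝓞 K)

/-- `x ≡ 1 mod 2` -/
def U2 (x : 𝓞 K) : Prop := ∃ y : 𝓞 K, x = 1 + 2 * y

theorem U2.mul {x y : 𝓞 K} (hx : U2 x) (hy : U2 y) : U2 (x * y) := by
  obtain ⟨a, rfl⟩ := hx
  obtain ⟨b, rfl⟩ := hy
  exact ⟨a + b + 2 * a * b, by ring⟩

theorem U2_one : U2 (1 : 𝓞 K) := ⟨0, by ring⟩

theorem U2.neg {x : 𝓞 K} (hx : U2 x) : U2 (-x) := by
  obtain ⟨a, rfl⟩ := hx
  exact ⟨-a - 1, by ring⟩

theorem U2.of_mul {x y : 𝓞 K} (hx : U2 x) (hxy : U2 (x * y)) : U2 y := by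
  obtain ⟨a, rfl⟩ := hx
  obtain ⟨b, hb⟩ := hxy
  exact ⟨b - a * y, by linear_combination hb⟩

theorem U2.pow {x : 𝓞 K} (hx : U2 x) (n : ℕ) : U2 (x ^ n) := by
  induction n with
  | zero => simpa using U2_one
  | succ n ih =>
    rw [pow_succ]
    exact ih.mul hx

/-- equivalence of ideals: multiplication by elements `≡ 1 mod 2` whose norms are prime to `N` and congruent modulo `N` -/
def Rel (N : ℕ) (I J : Ideal (𝓞 K)) : Prop :=
  ∃ α β : 𝓞 K, U2 α ∧ U2 β ∧ IsCoprime (Algebra.norm ℤ α) (N : ℤ) ∧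
    Algebra.norm ℤ α ≡ Algebra.norm ℤ β [ZMOD (N : ℤ)] ∧ Ideal.span {α} * I = Ideal.span {β} * J

/-- `cl` is the class map of the group of ideals prime to `N` modulo `Rel N` -/
structure Cls (N : ℕ) (G : Type) [CommGroup G] (cl : Ideal (𝓞 K) → G) : Prop where
  mul : ∀ I J, Sm N I → Sm N J → cl (I * J) = cl I * cl J
  eq_iff : ∀ I J, Sm N I → Sm N J → (cl I = cl J ↔ Rel N I J)
  surj : ∀ g, ∃ I, Sm N I ∧ cl I = g

end Pool.Agent.Work.MP_a5099b_nt.PrF
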