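import Pool.Agent.Work.MP_a5099b_nt.I.DPr
import Pool.Agent.Work.MP_a5099b_nt.I.BLam

set_option autoImplicit false

/-!
# DSpl (size M, uses the statements of DPr, BLam): the von Mangoldt function of `K` on norms

PROOF. Only the ideals `I = P ^ k` (`P` prime, `k ≥ 1`) contribute, `absNorm I = (absNorm P) ^ k`, `LamK I = log (absNorm P)` (`LamK_pow`). If `n` is not a prime power then no such ideal has norm `n`
(`absNorm P` is `p` or `p²`, `prime_norm`) and `Λ(n) = 0`. Let `n = p ^ m`, `m ≥ 1`, `p ∤ 2 q`. If `I = P ^ k` has norm `p ^ m` then `p ∈ P`. Split case: `P ∈ {P₁, P₂}`, norm `p`, `k = m`: two ideals `P₁ ^ m ≠ P₂ ^ m`, sum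
`2 log p`; `legendreSym q (p^m) = 1`. Inert case: `P = (p)`, norm `p²`, `2 k = m`: for `m` odd no ideal, `1 + (-1)^m = 0`; for `m` even one ideal with `LamK = log p² = 2 log p = (1 + 1) log p`.
(`legendreSym q (p ^ m) = (legendreSym q p) ^ m`, `legendreSym q p = ± 1` as `p ≠ q`.)
-/

namespace Pool.Agent.Work.MP_a5099b_nt.PrF

open Finset NumberField

variable {K : Type} [Field K] [NumberField K] {q : ℕ} {δ : 𝓞 K}

private theorem sp_key (h : Quad K q δ) (I : Ideal (𝓞 K)) (hI : LamK I ≠ 0) :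
    ∃ (P : Ideal (𝓞 K)) (k p : ℕ), P.IsPrime ∧ P ≠ ⊥ ∧ 1 ≤ k ∧ I = P ^ k ∧ p.Prime ∧ (p : 𝓞 K) ∈ P ∧
      (Ideal.absNorm P = p ∨ (Ideal.absNorm P = p ^ 2 ∧ P = Ideal.span {(p : 𝓞 K)})) := by
  by_contra hcon
  apply hI
  apply LamK_eq_zero
  rintro ⟨P, hP, h0, k, hk, rfl⟩
  obtain ⟨p, hp, hmem, hor⟩ := prime_norm h P hP h0
  exact hcon ⟨P, k, p, hP, h0, hk, rfl, hp, hmem, hor⟩

private theorem sp_prime_eq {p p' m k j : ℕ} (hp : p.Prime) (hp' : p'.Prime) (hk : 1 ≤ k) (hj : 1 ≤ j)
    (he : (p' ^ j) ^ k = p ^ m) : p' = p := by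
  have h1 : p' ∣ p ^ m := by
    rw [← he, ← pow_mul]
    exact dvd_pow_self _ (by positivity)
  exact (Nat.prime_dvd_prime_iff_eq hp' hp).1 (hp'.dvd_of_dvd_pow h1)

theorem sum_ids_LamK (h : Quad K q δ) [Fact q.Prime] (n : ℕ) (hn : n ≠ 0) (h2 : ¬ 2 ∣ n) (hq : ¬ q ∣ n) :
    ∑ I ∈ ids K n, LamK I = ArithmeticFunction.vonMangoldt n * (1 + (legendreSym q (n : ℤ) : ℝ)) := by
  by_cases hpp : IsPrimePow n
  swap
  · rw [ArithmeticFunction.vonMangoldt_eq_zero_iff.2 hpp, zero_mul]
    apply Finset.sum_eq_zero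
    intro I hI
    by_contra hne
    obtain ⟨P, k, p, hP, h0, hk, rfl, hp, hmem, hor⟩ := sp_key h I hne
    apply hpp
    rw [mem_ids, map_pow] at hI
    rw [← hI]
    rcases hor with h1 | ⟨h1, -⟩
    · rw [h1]
      exact hp.isPrimePow.pow (by omega)
    · rw [h1]
      exact (hp.isPrimePow.pow (by norm_num)).pow (by omega)
  obtain ⟨p, m, hp, hm, rfl⟩ := (isPrimePow_nat_iff n).1 hpp
  have hp2 : p ≠ 2 := by
    rintro rfl
    exact h2 (dvd_pow_self 2 hm.ne')
  have hpq : p ≠ q := by
    rintro rfl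
    exact hq (dvd_pow_self p hm.ne')
  have hL : ArithmeticFunction.vonMangoldt (p ^ m) = Real.log p := by
    rw [ArithmeticFunction.vonMangoldt_apply_pow hm.ne', ArithmeticFunction.vonMangoldt_apply_prime hp]
  have hleg : legendreSym q ((p ^ m : ℕ) : ℤ) = legendreSym q p ^ m := by
    unfold legendreSym
    push_cast
    rw [map_pow]
  have hpz : ((p : ℤ) : ZMod q) ≠ 0 := by
    rw [Int.cast_natCast, Ne, ZMod.natCast_eq_zero_iff]
    intro h3
    exact hpq ((Nat.prime_dvd_prime_iff_eq h.prime hp).1 h3).symm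
  have hpinj : ∀ a b : ℕ, p ^ a = p ^ b → a = b := fun a b hab => Nat.pow_right_injective hp.two_le hab
  rw [hL, hleg]
  rcases legendreSym.eq_one_or_neg_one q hpz with hl | hl
  · obtain ⟨P₁, P₂, hne, hP1, hP2, n1, n2, hall⟩ := split h p hp hp2 hpq hl
    have hb1 : P₁ ≠ ⊥ := by
      rintro rfl
      rw [Ideal.absNorm_bot] at n1
      exact hp.ne_zero n1.symm
    have hb2 : P₂ ≠ ⊥ := by
      rintro rfl
      rw [Ideal.absNorm_bot] at n2
      exact hp.ne_zero n2.symm
    have hne' : P₁ ^ m ≠ P₂ ^ m := by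
      intro he
      apply hne
      have h3 : P₁ ≤ P₂ := by
        have h4 : P₁ ^ m ≤ P₂ := by
          rw [he]
          exact Ideal.pow_le_self hm.ne'
        exact Ideal.IsPrime.le_of_pow_le h4
      have h5 : P₂ ≤ P₁ := by
        have h4 : P₂ ^ m ≤ P₁ := by
          rw [← he]
          exact Ideal.pow_le_self hm.ne'
        exact Ideal.IsPrime.le_of_pow_le h4
      exact le_antisymm h3 h5
    classical
    have hsum : ∑ I ∈ ids K (p ^ m), LamK I = ∑ I ∈ ({P₁ ^ m, P₂ ^ m} : Finset (Ideal (𝓞 K))), LamK I := by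
      symm
      apply Finset.sum_subset
      · intro I hI
        rw [Finset.mem_insert, Finset.mem_singleton] at hI
        rcases hI with rfl | rfl
        · rw [mem_ids, map_pow, n1]
        · rw [mem_ids, map_pow, n2]
      · intro I hI hI'
        by_contra hne2
        obtain ⟨P, k, p', hP, h0, hk, rfl, hp', hmem, hor⟩ := sp_key h I hne2
        rw [mem_ids, map_pow] at hI
        have hpp' : p' = p := by
          rcases hor with h1 | ⟨h1, -⟩
          · rw [h1] at hI
            exact sp_prime_eq (j := 1) hp hp' hk le_rfl (by rw [pow_one]; exact hI)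
          · rw [h1] at hI
            exact sp_prime_eq (j := 2) hp hp' hk (by norm_num) hI
        subst hpp'
        apply hI'
        rw [Finset.mem_insert, Finset.mem_singleton]
        rcases hall P hP hmem with rfl | rfl
        · rw [n1] at hI
          left
          rw [hpinj _ _ hI]
        · rw [n2] at hI
          right
          rw [hpinj _ _ hI]
    rw [hsum, Finset.sum_pair hne', LamK_pow P₁ hP1 hb1 m hm, LamK_pow P₂ hP2 hb2 m hm, n1, n2, hl]
    push_cast
    rw [one_pow]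
    ring
  · obtain ⟨hpr, hnorm, hall⟩ := inert h p hp hp2 hpq hl
    have hb : Ideal.span {(p : 𝓞 K)} ≠ ⊥ := by
      intro h3
      rw [h3, Ideal.absNorm_bot] at hnorm
      exact (pow_pos hp.pos 2).ne hnorm
    have hkey : ∀ I ∈ ids K (p ^ m), LamK I ≠ 0 → ∃ k : ℕ, m = 2 * k ∧ I = Ideal.span {(p : 𝓞 K)} ^ k := by
      intro I hI hne2
      obtain ⟨P, k, p', hP, h0, hk, rfl, hp', hmem, hor⟩ := sp_key h I hne2
      rw [mem_ids, map_pow] at hI
      have hpp' : p' = p := by
        rcases hor with h1 | ⟨h1, -⟩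
        · rw [h1] at hI
          exact sp_prime_eq (j := 1) hp hp' hk le_rfl (by rw [pow_one]; exact hI)
        · rw [h1] at hI
          exact sp_prime_eq (j := 2) hp hp' hk (by norm_num) hI
      subst hpp'
      have h3 := hall P hP hmem
      subst h3
      rw [hnorm, ← pow_mul] at hI
      exact ⟨k, (hpinj _ _ hI).symm, rfl⟩
    rw [hl]
    rcases Nat.even_or_odd' m with ⟨k, hk | hk⟩
    · have hk1 : 1 ≤ k := by omega
      rw [Finset.sum_eq_single (Ideal.span {(p : 𝓞 K)} ^ k)]
      · rw [LamK_pow _ hpr hb k hk1, hnorm, hk]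
        push_cast
        rw [pow_mul, neg_one_sq, one_pow, Real.log_pow]
        push_cast
        ring
      · intro I hI hIne
        by_contra hne2
        obtain ⟨k', hk', rfl⟩ := hkey I hI hne2
        apply hIne
        have : k' = k := by omega
        rw [this]
      · intro hnot
        exfalso
        apply hnot
        rw [mem_ids, map_pow, hnorm, ← pow_mul, hk]
    · have hz : ∑ I ∈ ids K (p ^ m), LamK I = 0 := by
        apply Finset.sum_eq_zero
        intro I hI
        by_contra hne2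
        obtain ⟨k', hk', -⟩ := hkey I hI hne2
        omega
      rw [hz, hk]
      push_cast
      rw [pow_succ, pow_mul, neg_one_sq, one_pow]
      ring

end Pool.Agent.Work.MP_a5099b_nt.PrF
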