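import Pool.Agent.Work.MP_a5099b_nt.I.DReal
import Pool.Agent.Work.MP_a5099b_nt.I.DSpl
import Pool.Agent.Work.MP_a5099b_nt.I.AExp
import Pool.Agent.Work.MP_a5099b_nt.I.ATw

set_option autoImplicit false

/-!
# DDir (size M-L, uses the statements of DReal, DPow, DSpl, AExp, ATw): nonvanishing for the real characters

PROOF. Let `ψ` be the Dirichlet character of `real_char` for `χ`, and `η` the Dirichlet character modulo `N` with `η(n) = legendreSym q n` for `n` prime to `N` (`quadraticChar (ZMod q)` composed with `ℤ → ℂ`, level `q`, changed to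
level `N`: `DirichletCharacter.changeLevel`, `q ∣ N`). For all `n`: `tw (cK N cl) χ n = ∑_{I ∈ ids n, Sm N I} ψ(n)`, `tw (lK N cl) χ n = ψ(n) ∑_{I ∈ ids n, Sm N I} LamK I = ψ(n) Λ(n) (1 + η(n))` (`sum_ids_LamK` if `n` is
prime to `N`, `n ≠ 0`; otherwise no ideal of norm `n` satisfies `Sm N`, and `ψ(n) = 0` or `Λ(0) = 0`; `N` is divisible by `2` and `q`).
By `lseries_exp` (with `tw_one`, `tw_conv`, `tw_c_summable`, `tw_lam_summable`) for `s > 1`: `LSeries (tw (cK N cl) χ) s = exp (∑ ψ Λ / log + ∑ ψ η Λ / log)`. By `lseries_exp` for `f n = ψ n`, `g n = ψ n Λ n`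
(`hfg`: `ArithmeticFunction.vonMangoldt_sum`, `ψ` multiplicative; Mathlib: `DirichletCharacter.LSeriesSummable_of_one_lt_re`, `LSeriesSummable_twist_vonMangoldt`): `LSeries ψ s = exp (∑ ψ Λ / log)`, the same for `ψ η`. Hence
`LSeries (tw (cK N cl) χ) s = LSeries ψ s * LSeries (ψ η) s = LFunction ψ s * LFunction (ψ η) s` for `s > 1` (`DirichletCharacter.LFunction_eq_LSeries`).
`ψ ≠ 1`: otherwise `χ (cl I) = 1` for all `I` with `Sm N I` (units), and `cl` is surjective (`hc.surj`), so `χ = 1`. `ψ η ≠ 1`: otherwise `ψ(n) = η(n)⁻¹ = η(n)` for `n` prime to `N` and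
`χ(cl I) = legendreSym q (absNorm I) = 1` (`legendre_one`), again `χ = 1`. So both `LFunction`s are continuous at `1` (`DirichletCharacter.differentiable_LFunction`) with nonzero
values there (`DirichletCharacter.LFunction_apply_one_ne_zero`); the product is bounded away from `0` near `1`.
-/

namespace Pool.Agent.Work.MP_a5099b_nt.PrF

open Finset NumberField

variable {K : Type} [Field K] [NumberField K] {q : ℕ} {δ : 𝓞 K} {N : ℕ} {G : Type} [CommGroup G] [Fintype G]
  {cl : Ideal (𝓞 K) → G} {κ C : ℝ}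

private theorem div_log_summable (g : ℕ → ℂ) (s : ℂ) (hg : LSeriesSummable g s) :
    LSeriesSummable (fun n => g n / (Real.log n : ℂ)) s := by
  have hl2 : 0 < Real.log 2 := Real.log_pos (by norm_num)
  refine Summable.of_norm_bounded (g := fun n => ‖LSeries.term g s n‖ / Real.log 2)
    (hg.norm.div_const _) fun n => ?_
  rcases Nat.eq_zero_or_pos n with rfl | hn
  · rw [LSeries.term_zero, LSeries.term_zero]
    simp
  · rw [LSeries.term_of_ne_zero hn.ne', LSeries.term_of_ne_zero hn.ne']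
    rcases Nat.lt_or_ge n 2 with h2 | h2
    · have h1 : n = 1 := by omega
      subst h1
      simp only [Nat.cast_one, Real.log_one, Complex.ofReal_zero, div_zero, zero_div, norm_zero]
      positivity
    · have hlog : Real.log 2 ≤ Real.log n := Real.log_le_log (by norm_num) (by exact_mod_cast h2)
      have hlp : 0 < Real.log n := lt_of_lt_of_le hl2 hlog
      rw [div_right_comm, norm_div _ (Real.log n : ℂ), Complex.norm_real, Real.norm_of_nonneg hlp.le]
      exact div_le_div_of_nonneg_left (_root_.norm_nonneg _) hl2 hlog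

/-- the identity `L(ψ) = exp (∑ ψ Λ / log)` for a Dirichlet character -/
private theorem dir_exp {N : ℕ} (ψ : DirichletCharacter ℂ N) (s : ℝ) (hs : 1 < s) :
    LSeries (fun n : ℕ => ψ (n : ZMod N)) s =
      Complex.exp (LSeries (fun n : ℕ => ψ (n : ZMod N) * (ArithmeticFunction.vonMangoldt n : ℂ) /
        (Real.log n : ℂ)) s) := by
  refine lseries_exp (fun n : ℕ => ψ (n : ZMod N))
    (fun n : ℕ => ψ (n : ZMod N) * (ArithmeticFunction.vonMangoldt n : ℂ)) ?_ ?_ ?_ ?_ s hs
  · simp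
  · intro t ht
    exact DirichletCharacter.LSeriesSummable_of_one_lt_re ψ (by simpa using ht)
  · intro t ht
    exact DirichletCharacter.LSeriesSummable_twist_vonMangoldt ψ (s := (t : ℂ)) (by simpa using ht)
  · intro n _
    have h1 : ∀ p ∈ n.divisorsAntidiagonal, ψ (p.1 : ZMod N) * (ArithmeticFunction.vonMangoldt p.1 : ℂ) *
        ψ (p.2 : ZMod N) = ψ (n : ZMod N) * (ArithmeticFunction.vonMangoldt p.1 : ℂ) := by
      intro p hp
      have hp1 : p.1 * p.2 = n := (Nat.mem_divisorsAntidiagonal.1 hp).1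
      rw [← hp1, Nat.cast_mul, map_mul]
      ring
    rw [Finset.sum_congr rfl h1, ← Finset.mul_sum,
      Nat.sum_divisorsAntidiagonal (fun i _ => (ArithmeticFunction.vonMangoldt i : ℂ)),
      ← Complex.ofReal_sum, ArithmeticFunction.vonMangoldt_sum]

private theorem dir_summable {N : ℕ} (ψ : DirichletCharacter ℂ N) (s : ℝ) (hs : 1 < s) :
    LSeriesSummable (fun n : ℕ => ψ (n : ZMod N) * (ArithmeticFunction.vonMangoldt n : ℂ) /
      (Real.log n : ℂ)) s := by
  exact div_log_summable (fun n : ℕ => ψ (n : ZMod N) * (ArithmeticFunction.vonMangoldt n : ℂ)) s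
    (DirichletCharacter.LSeriesSummable_twist_vonMangoldt ψ (s := (s : ℂ)) (by simpa using hs))

/-- the quadratic character modulo `q` as a character of level `N` -/
private theorem exists_eta (q N : ℕ) [Fact q.Prime] (hq : q ∣ N) :
    ∃ η : DirichletCharacter ℂ N, ∀ n : ℕ, n.Coprime N → η (n : ZMod N) = ((legendreSym q n : ℤ) : ℂ) := by
  refine ⟨DirichletCharacter.changeLevel hq ((quadraticChar (ZMod q)).ringHomComp (Int.castRingHom ℂ)), ?_⟩
  intro n hn
  have h1 : ((n : ℕ) : ZMod N) = ((ZMod.unitOfCoprime n hn : (ZMod N)ˣ) : ZMod N) := by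
    rw [ZMod.coe_unitOfCoprime]
  rw [h1, DirichletCharacter.changeLevel_eq_cast_of_dvd, ← h1]
  have h2 : (ZMod.cast ((n : ℕ) : ZMod N) : ZMod q) = (n : ZMod q) := by
    rw [ZMod.cast_natCast hq]
  rw [h2, legendreSym]
  simp

/-- twisted von Mangoldt sums -/
private theorem tw_lK (h : Quad K q δ) [Fact q.Prime] (hN : 2 ∣ N) (hq : q ∣ N)
    (χ : G →* ℂˣ) (ψ η : DirichletCharacter ℂ N)
    (hψ : ∀ I : Ideal (𝓞 K), Sm N I → ((χ (cl I) : ℂˣ) : ℂ) = ψ ((Ideal.absNorm I : ℕ) : ZMod N))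
    (hη : ∀ n : ℕ, n.Coprime N → η (n : ZMod N) = ((legendreSym q n : ℤ) : ℂ)) (n : ℕ) :
    tw (lK N cl) χ n = ψ (n : ZMod N) * (ArithmeticFunction.vonMangoldt n : ℂ) +
      (ψ * η) (n : ZMod N) * (ArithmeticFunction.vonMangoldt n : ℂ) := by
  classical
  have h1 : tw (lK N cl) χ n = ∑ I ∈ (ids K n).filter (fun I => Sm N I), (LamK I : ℂ) * ψ (n : ZMod N) := by
    have h2 : ∀ g : G, ((lK N cl n g : ℝ) : ℂ) * ((χ g : ℂˣ) : ℂ) =
        ∑ I ∈ ((ids K n).filter (fun I => Sm N I)).filter (fun I => cl I = g),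
          (LamK I : ℂ) * ψ (n : ZMod N) := by
      intro g
      rw [lK, Complex.ofReal_sum, Finset.sum_mul, Finset.filter_filter]
      refine Finset.sum_congr rfl fun I hI => ?_
      obtain ⟨hI1, hI2, hI3⟩ := Finset.mem_filter.1 hI
      rw [← hI3, hψ I hI2, (mem_ids n I).1 hI1]
    rw [tw, Finset.sum_congr rfl fun g _ => h2 g]
    exact Finset.sum_fiberwise _ _ _
  rw [h1]
  by_cases hn0 : n = 0
  · subst hn0
    rw [Finset.filter_eq_empty_iff.2]
    · simp
    · intro I hI hS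
      have := (Sm_iff.1 hS).1
      rw [(mem_ids 0 I).1 hI] at this
      exact lt_irrefl _ this
  by_cases hc : n.Coprime N
  · have h3 : (ids K n).filter (fun I => Sm N I) = ids K n := by
      refine Finset.filter_true_of_mem fun I hI => ?_
      rw [Sm_iff, (mem_ids n I).1 hI]
      exact ⟨Nat.pos_of_ne_zero hn0, hc⟩
    have h4 : ¬ 2 ∣ n := fun h2 => by
      have := Nat.dvd_gcd h2 hN
      rw [Nat.Coprime] at hc
      rw [hc] at this
      omega
    have h5 : ¬ q ∣ n := fun h2 => by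
      have := Nat.dvd_gcd h2 hq
      rw [Nat.Coprime] at hc
      rw [hc] at this
      exact h.prime.one_lt.ne' (Nat.dvd_one.1 this)
    rw [h3, ← Finset.sum_mul, ← Complex.ofReal_sum, sum_ids_LamK h n hn0 h4 h5, MulChar.mul_apply, hη n hc]
    push_cast
    ring
  · have h3 : (ids K n).filter (fun I => Sm N I) = ∅ := by
      refine Finset.filter_eq_empty_iff.2 fun I hI hS => hc ?_
      have := hS.2
      rwa [(mem_ids n I).1 hI] at this
    have h4 : ψ (n : ZMod N) = 0 := by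
      apply MulChar.map_nonunit
      rwa [ZMod.isUnit_iff_coprime]
    rw [h3, MulChar.mul_apply, h4]
    simp

/-- factorisation into two Dirichlet L-series -/
private theorem factor (h : Quad K q δ) [Fact q.Prime] (hN : 2 ∣ N) (hq : q ∣ N)
    (hd : Dat (cK N cl) (lK N cl) κ C) (χ : G →* ℂˣ) (ψ η : DirichletCharacter ℂ N)
    (hψ : ∀ I : Ideal (𝓞 K), Sm N I → ((χ (cl I) : ℂˣ) : ℂ) = ψ ((Ideal.absNorm I : ℕ) : ZMod N))
    (hη : ∀ n : ℕ, n.Coprime N → η (n : ZMod N) = ((legendreSym q n : ℤ) : ℂ)) (s : ℝ) (hs : 1 < s) :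
    LSeries (tw (cK N cl) χ) s = LSeries (fun n : ℕ => ψ (n : ZMod N)) s *
      LSeries (fun n : ℕ => (ψ * η) (n : ZMod N)) s := by
  rw [lseries_exp (tw (cK N cl) χ) (tw (lK N cl) χ) (tw_one hd χ) (tw_c_summable hd χ)
    (tw_lam_summable hd χ) (tw_conv hd χ) s hs, dir_exp ψ s hs, dir_exp (ψ * η) s hs, ← Complex.exp_add,
    ← LSeries_add (dir_summable ψ s hs) (dir_summable (ψ * η) s hs)]
  congr 2
  funext n
  rw [tw_lK h hN hq χ ψ η hψ hη n, add_div]
  rfl

theorem real_nonvanish (h : Quad K q δ) (hN : 2 ∣ N) (hq : q ∣ N) (h0 : N ≠ 0) (hc : Cls N G cl)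
    (hd : Dat (cK N cl) (lK N cl) κ C) (χ : G →* ℂˣ) (h1 : χ ≠ 1) (h2 : χ ^ 2 = 1) :
    ∃ ε : ℝ, 0 < ε ∧ ∃ s₀ : ℝ, 1 < s₀ ∧ ∀ s : ℝ, 1 < s → s < s₀ → ε ≤ ‖LSeries (tw (cK N cl) χ) s‖ := by
  have : Fact q.Prime := ⟨h.prime⟩
  have : NeZero N := ⟨h0⟩
  obtain ⟨ψ, hψ⟩ := real_char h hN h0 hc χ h2
  obtain ⟨η, hη⟩ := exists_eta q N hq
  have hψ1 : ψ ≠ 1 := by
    intro hp
    refine h1 (MonoidHom.ext fun g => ?_)
    obtain ⟨I, hI, hIg⟩ := hc.surj g
    have h3 := hψ I hI
    rw [hIg, hp, MulChar.one_apply ((ZMod.isUnit_iff_coprime _ _).2 hI.2)] at h3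
    exact Units.ext (by simpa using h3)
  have hψη : ψ * η ≠ 1 := by
    intro hp
    refine h1 (MonoidHom.ext fun g => ?_)
    obtain ⟨I, hI, hIg⟩ := hc.surj g
    have h3 := hψ I hI
    have h4 : (ψ * η) ((Ideal.absNorm I : ℕ) : ZMod N) = 1 := by
      rw [hp, MulChar.one_apply ((ZMod.isUnit_iff_coprime _ _).2 hI.2)]
    rw [MulChar.mul_apply, hη _ hI.2, legendre_one h hN hq hc I hI, ← h3, hIg] at h4
    exact Units.ext (by simpa using h4)
  set F : ℝ → ℝ := fun s => ‖DirichletCharacter.LFunction ψ s * DirichletCharacter.LFunction (ψ * η) s‖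
    with hF
  have hcont : Continuous F := by
    have c1 : Continuous (DirichletCharacter.LFunction ψ) :=
      (DirichletCharacter.differentiable_LFunction hψ1).continuous
    have c2 : Continuous (DirichletCharacter.LFunction (ψ * η)) :=
      (DirichletCharacter.differentiable_LFunction hψη).continuous
    exact ((c1.comp Complex.continuous_ofReal).mul (c2.comp Complex.continuous_ofReal)).norm
  have hpos : 0 < F 1 := by
    have e1 : F 1 = ‖DirichletCharacter.LFunction ψ 1 * DirichletCharacter.LFunction (ψ * η) 1‖ := by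
      simp only [hF, Complex.ofReal_one]
    rw [e1, norm_pos_iff]
    exact mul_ne_zero (DirichletCharacter.LFunction_apply_one_ne_zero hψ1)
      (DirichletCharacter.LFunction_apply_one_ne_zero hψη)
  have hev : ∀ᶠ s in nhds (1 : ℝ), F 1 / 2 < F s :=
    hcont.continuousAt.eventually (lt_mem_nhds (by linarith))
  obtain ⟨r, hr, hball⟩ := Metric.eventually_nhds_iff.1 hev
  refine ⟨F 1 / 2, by linarith, 1 + r, by linarith, fun s hs1 hs2 => ?_⟩
  have h3 : F 1 / 2 < F s := hball (by rw [Real.dist_eq, abs_lt]; constructor <;> linarith)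
  have h4 : ‖LSeries (tw (cK N cl) χ) s‖ = F s := by
    have hre : 1 < (s : ℂ).re := by simpa using hs1
    rw [factor h hN hq hd χ ψ η hψ hη s hs1, hF]
    simp only
    rw [DirichletCharacter.LFunction_eq_LSeries ψ hre, DirichletCharacter.LFunction_eq_LSeries (ψ * η) hre]
  rw [h4]
  exact h3.le

end Pool.Agent.Work.MP_a5099b_nt.PrF
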