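import Pool.Agent.Work.MP_a5099b_nt.I.DStab

set_option autoImplicit false

/-!
# DOdd (size M, uses the statements of DStab, CConj, CInt): no elements of order two

PROOF. `sqrt_principal`: let `m = absNorm I` (odd, nonzero), `I² = (γ)`, so `norm γ = m²`, `γ conj γ = m²` (`mul_conj`, `norm_gen`). `I conj I = (m)` (`map_conj_mul`), hence
`(γ) conj I = I² conj I = (m) I`. Put `μ = m + conj γ`; `conj μ * m = m² + γ m = γ (conj γ + m) = γ μ`. If `μ ≠ 0` let `J = (μ) I`: `(γ) conj J = (γ conj μ) conj I = (conj μ)(m) I = (γ)(μ) I = (γ) J`, so `conj J = J`.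
If `μ = 0` then `γ = -m` (apply `conj`), `(γ) = (m)`, `conj I = I` and we take `μ = 1`, `J = I`. By `stable_ideal` `(μ) I = (ε)` with `ε = d` or `d δ`; so `ε = μ γ'` with `γ' ∈ I`... (`ε ∈ (μ) I`), `I = (γ')`. Now
`(γ'²) = I² = (γ)`, so `γ'² = ± γ` (`unit_eq`), `γ'² ≡ 1 mod 2` (`U2.neg`). Then `γ' ≡ 1 mod 2`: `(γ' - 1)² ∈ 2 𝓞`, write `2 (γ' - 1) = u + v δ`, norm of `(γ'-1)²` is divisible by `4`,
so `(u² + q v²)/4 = norm (γ' - 1)` is even. More simply with `γ' - 1 = z`, `z² = 2 w`: `z = (u + v δ)/2`; `4 z² = u² - q v² + 2 u v δ`, so `8 w = (u² - q v²) + 2 u v δ` and by `coords` for `w`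
(`2 w = u₁ + v₁ δ`, `u₁ ≡ v₁ mod 2`): `u² - q v² = 4 u₁`, `2 u v = 4 v₁`. So `u v` is even, `u ≡ v mod 2` so both are even, `u = 2 a`, `v = 2 b`: `a² - q b² = u₁`, `2 a b = v₁`, so `a² - q b² ≡ 0 mod 2`,
`a ≡ b mod 2` and `z = a + b δ ∈ 2 𝓞` (`half_mem`).
`odd_power`: `n = card G = 2^t e`, `e` odd. `cl (I ^ n) = 1`, so `I ^ n = (γ)` with `γ ≡ 1 mod 2` (`cls_one_iff`; `cls_pow`). Apply `sqrt_principal` `t` times to `I ^ (2^j e)` (absolute norms are odd since `2 ∣ N`).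
-/

namespace Pool.Agent.Work.MP_a5099b_nt.PrF

open Finset NumberField

variable {K : Type} [Field K] [NumberField K] {q : ℕ} {δ : 𝓞 K}

private theorem U2_of_sq (h : Quad K q δ) (g : 𝓞 K) (hg : U2 (g * g)) : U2 g := by
  obtain ⟨y, hy⟩ := hg
  obtain ⟨u, v, huv, hd⟩ := coords h (g - 1)
  obtain ⟨u1, v1, huv1, hd1⟩ := coords h (y - g + 1)
  have hsq := h.sq
  have h1 : ((u ^ 2 - q * v ^ 2 : ℤ) : 𝓞 K) + ((2 * u * v : ℤ) : 𝓞 K) * δ =
      ((4 * u1 : ℤ) : 𝓞 K) + ((4 * v1 : ℤ) : 𝓞 K) * δ := by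
    push_cast
    have e1 : (2 * (g - 1)) * (2 * (g - 1)) = 4 * (2 * (y - g + 1)) := by linear_combination 4 * hy
    rw [huv, huv1] at e1
    linear_combination e1 - (v : 𝓞 K) ^ 2 * hsq
  obtain ⟨e1, e2⟩ := unique h _ _ _ _ h1
  have hu : Even u := by
    by_contra hu
    have hu' : Odd u := Int.not_even_iff_odd.1 hu
    have hv : Odd v := by
      obtain ⟨k, hk⟩ := hd
      obtain ⟨l, hl⟩ := hu'
      exact ⟨l - k, by linarith⟩
    have h3 : Odd (u * v) := hu'.mul hv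
    have h4 : u * v = 2 * v1 := by linarith
    rw [h4] at h3
    exact absurd h3 (by rw [Int.not_odd_iff_even]; exact even_two_mul v1)
  have hv : Even v := by
    obtain ⟨k, hk⟩ := hd
    obtain ⟨l, hl⟩ := hu
    exact ⟨l - k, by linarith⟩
  obtain ⟨a, rfl⟩ := hu
  obtain ⟨b, rfl⟩ := hv
  have h5 : a ^ 2 - q * b ^ 2 = u1 := by nlinarith
  have h6 : 2 * a * b = v1 := by nlinarith
  have h7 : Even (a ^ 2 - q * b ^ 2) := by
    obtain ⟨k, hk⟩ := hd1
    exact ⟨k + a * b, by rw [h5]; linarith⟩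
  have hq : Odd (q : ℤ) := by
    have := h.mod4
    exact ⟨((q / 2 : ℕ) : ℤ), by omega⟩
  have h8 : (2 : ℤ) ∣ a - b := by
    rw [Int.even_sub, Int.even_pow' two_ne_zero, Int.even_mul, Int.even_pow' two_ne_zero] at h7
    have hq' : ¬ Even (q : ℤ) := Int.not_even_iff_odd.2 hq
    have h9 : Even a ↔ Even b := by simpa [hq'] using h7
    exact even_iff_two_dvd.1 (Int.even_sub.2 h9)
  obtain ⟨x, hx⟩ := half_mem h a b h8
  refine ⟨x, ?_⟩
  have h2 : (2 : 𝓞 K) ≠ 0 := two_ne_zero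
  apply mul_left_cancel₀ h2
  push_cast at huv
  linear_combination huv - 2 * hx

private theorem exists_gen (h : Quad K q δ) (I : Ideal (𝓞 K)) (hodd : Odd (Ideal.absNorm I)) (γ : 𝓞 K)
    (hI : I * I = Ideal.span {γ}) : ∃ γ' : 𝓞 K, I = Ideal.span {γ'} := by
  set m : ℕ := Ideal.absNorm I with hm
  have hm0 : m ≠ 0 := by
    intro h0
    rw [h0] at hodd
    exact absurd hodd (by decide)
  have hI0 : I ≠ ⊥ := by
    rintro rfl
    exact hm0 (by rw [hm, Ideal.absNorm_bot])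
  have hγ0 : γ ≠ 0 := by
    rintro rfl
    rw [Ideal.span_singleton_eq_bot.2 rfl] at hI
    exact mul_ne_zero hI0 hI0 hI
  have hspan0 : Ideal.span {γ} ≠ ⊥ := by
    rw [Ne, Ideal.span_singleton_eq_bot]
    exact hγ0
  set cI : Ideal (𝓞 K) := I.map (conj h : 𝓞 K →+* 𝓞 K) with hcI
  have h1 : I * cI = Ideal.span {(m : 𝓞 K)} := map_conj_mul h I hI0
  have h2 : γ * conj h γ = (m : 𝓞 K) * m := by
    rw [mul_conj h, ← norm_gen h, ← hI, map_mul]
    push_cast
    rfl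
  have h3 : Ideal.span {γ} * cI = Ideal.span {(m : 𝓞 K)} * I := by
    rw [← hI, mul_assoc, h1, mul_comm]
  -- a stable ideal gives a generator
  have key : ∀ μ : 𝓞 K, μ ≠ 0 → (Ideal.span {μ} * I).map (conj h : 𝓞 K →+* 𝓞 K) = Ideal.span {μ} * I →
      ∃ γ' : 𝓞 K, I = Ideal.span {γ'} := by
    intro μ hμ hst
    have hμs : Ideal.span {μ} ≠ ⊥ := by
      rw [Ne, Ideal.span_singleton_eq_bot]
      exact hμ
    obtain ⟨d, -, hd⟩ := stable_ideal h _ (mul_ne_zero hμs hI0) hst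
    have hε : ∃ ε : 𝓞 K, Ideal.span {μ} * I = Ideal.span {ε} := by
      rcases hd with hd | hd
      · exact ⟨_, hd⟩
      · exact ⟨_, hd⟩
    obtain ⟨ε, hε⟩ := hε
    have hmem : ε ∈ Ideal.span {μ} * I := by
      rw [hε]
      exact Ideal.mem_span_singleton_self ε
    obtain ⟨γ', -, hγ'⟩ := Ideal.mem_span_singleton_mul.1 hmem
    refine ⟨γ', mul_left_cancel₀ hμs ?_⟩
    rw [hε, ← hγ', Ideal.span_singleton_mul_span_singleton]
  by_cases hμ : (m : 𝓞 K) + conj h γ = 0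
  · have hg : γ = -(m : 𝓞 K) := by
      have h4 : conj h γ = -(m : 𝓞 K) := by linear_combination hμ
      have h5 := congrArg (conj h) h4
      rw [conj_conj, map_neg, map_natCast] at h5
      exact h5
    have h4 : cI = I := by
      apply mul_left_cancel₀ hspan0
      rw [h3, hg, Ideal.span_singleton_neg]
    refine key 1 one_ne_zero ?_
    rw [Ideal.span_singleton_one, Ideal.top_mul]
    exact h4
  · refine key _ hμ ?_
    apply mul_left_cancel₀ hspan0
    rw [Ideal.map_mul, Ideal.map_span, Set.image_singleton, mul_left_comm, ← hcI, h3, ← mul_assoc, ← mul_assoc,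
      Ideal.span_singleton_mul_span_singleton, Ideal.span_singleton_mul_span_singleton]
    congr 3
    change conj h ((m : 𝓞 K) + conj h γ) * m = γ * ((m : 𝓞 K) + conj h γ)
    rw [map_add, map_natCast, conj_conj]
    linear_combination -h2

theorem sqrt_principal (h : Quad K q δ) (I : Ideal (𝓞 K)) (hodd : Odd (Ideal.absNorm I)) (γ : 𝓞 K) (hγ : U2 γ)
    (hI : I * I = Ideal.span {γ}) : ∃ γ' : 𝓞 K, U2 γ' ∧ I = Ideal.span {γ'} := by
  obtain ⟨g, hg⟩ := exists_gen h I hodd γ hI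
  refine ⟨g, U2_of_sq h g ?_, hg⟩
  rw [hg, Ideal.span_singleton_mul_span_singleton, Ideal.span_singleton_eq_span_singleton] at hI
  obtain ⟨u, hu⟩ := hI.symm
  rcases unit_eq h (u : 𝓞 K) u.isUnit with h1 | h1
  · rw [h1, mul_one] at hu
    rwa [← hu]
  · rw [h1] at hu
    have : g * g = -γ := by rw [← hu]; ring
    rw [this]
    exact hγ.neg

end Pool.Agent.Work.MP_a5099b_nt.PrF
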