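import Pool.Agent.Work.MP_a5099b_nt.I.DPow

set_option autoImplicit false

/-!
# DReal (size M, uses the statements of DPow, CCls, CConj): real characters factor through the norm

PROOF. Let `e`, `γ_I` be as in `odd_power`. `χ(cl I) = χ(cl I)^e` (`χ² = 1`, `e` odd) `= χ(cl (I^e)) = χ(cl (γ_I))`. Let `U ⊆ (ZMod N)ˣ` be the set of the units `u` for which there is `γ ≡ 1 mod 2` with
`(norm γ : ZMod N) = u`; it is closed under products and contains `1`, so (finite group) it is a subgroup. For `u ∈ U` put `ψ₀(u) = χ(cl (γ))`; it does not depend on the choice of `γ`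
(`cls_span_eq`; `Sm N (γ)` because `norm γ` is prime to `N`) and is multiplicative. Extend `ψ₀` to a character `ψ₁ : (ZMod N)ˣ →* ℂˣ` (`CommGroup`: `MonoidHom.domRestrict_surjective` in
Mathlib `GroupTheory/FiniteAbelian/Duality`, ℂ has enough roots of unity). Let `ψ = (MulChar.ofUnitHom ψ₁) ^ e`. Then for `I` with `Sm N I`:
`ψ(absNorm I) = ψ₁(absNorm I ^ e) = ψ₁(norm γ_I) = ψ₀(..) = χ(cl I)` (`absNorm (I^e) = norm γ_I`, `norm_gen`).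
-/

namespace Pool.Agent.Work.MP_a5099b_nt.PrF

open Finset NumberField

variable {K : Type} [Field K] [NumberField K] {q : ℕ} {δ : 𝓞 K} {N : ℕ} {G : Type} [CommGroup G] [Fintype G]
  {cl : Ideal (𝓞 K) → G}

private theorem dr_sm (h : Quad K q δ) (hN : 2 ∣ N) (h0 : N ≠ 0) (γ : 𝓞 K) (u : (ZMod N)ˣ)
    (hu : ((Algebra.norm ℤ γ : ℤ) : ZMod N) = u) : Sm N (Ideal.span {γ}) := by
  have h1 : IsUnit (((Ideal.absNorm (Ideal.span {γ}) : ℕ)) : ZMod N) := by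
    have h2 : (((Ideal.absNorm (Ideal.span {γ}) : ℕ) : ℤ) : ZMod N) = u := by rw [norm_gen h γ, hu]
    rw [Int.cast_natCast] at h2
    rw [h2]
    exact u.isUnit
  have h2 : (Ideal.absNorm (Ideal.span {γ})).Coprime N := (ZMod.isUnit_iff_coprime _ _).1 h1
  refine Sm_iff.2 ⟨?_, h2⟩
  rcases Nat.eq_zero_or_pos (Ideal.absNorm (Ideal.span {γ})) with h3 | h3
  · exfalso
    rw [h3, Nat.coprime_zero_left] at h2
    rw [h2] at hN
    omega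
  · exact h3

private theorem dr_eq (h : Quad K q δ) (hN : 2 ∣ N) (h0 : N ≠ 0) (hc : Cls N G cl) (γ₁ γ₂ : 𝓞 K)
    (h1 : U2 γ₁) (h2 : U2 γ₂) (u : (ZMod N)ˣ) (hu1 : ((Algebra.norm ℤ γ₁ : ℤ) : ZMod N) = u)
    (hu2 : ((Algebra.norm ℤ γ₂ : ℤ) : ZMod N) = u) :
    cl (Ideal.span {γ₁}) = cl (Ideal.span {γ₂}) := by
  refine cls_span_eq h hc γ₁ γ₂ h1 h2 (dr_sm h hN h0 γ₁ u hu1) (dr_sm h hN h0 γ₂ u hu2) ?_
  rw [← ZMod.intCast_eq_intCast_iff, hu1, hu2]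

private theorem dr_mul (h : Quad K q δ) (hN : 2 ∣ N) (h0 : N ≠ 0) (hc : Cls N G cl) (γ₁ γ₂ : 𝓞 K)
    (u₁ u₂ : (ZMod N)ˣ) (hu1 : ((Algebra.norm ℤ γ₁ : ℤ) : ZMod N) = u₁)
    (hu2 : ((Algebra.norm ℤ γ₂ : ℤ) : ZMod N) = u₂) :
    cl (Ideal.span {γ₁ * γ₂}) = cl (Ideal.span {γ₁}) * cl (Ideal.span {γ₂}) := by
  rw [← Ideal.span_singleton_mul_span_singleton]
  exact hc.mul _ _ (dr_sm h hN h0 γ₁ u₁ hu1) (dr_sm h hN h0 γ₂ u₂ hu2)

private theorem dr_nmul (γ₁ γ₂ : 𝓞 K) (u₁ u₂ : (ZMod N)ˣ) (hu1 : ((Algebra.norm ℤ γ₁ : ℤ) : ZMod N) = u₁)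
    (hu2 : ((Algebra.norm ℤ γ₂ : ℤ) : ZMod N) = u₂) :
    ((Algebra.norm ℤ (γ₁ * γ₂) : ℤ) : ZMod N) = ((u₁ * u₂ : (ZMod N)ˣ) : ZMod N) := by
  rw [map_mul, Int.cast_mul, hu1, hu2, Units.val_mul]

private theorem dr_npow (γ : 𝓞 K) (u : (ZMod N)ˣ) (hu : ((Algebra.norm ℤ γ : ℤ) : ZMod N) = u) (k : ℕ) :
    ((Algebra.norm ℤ (γ ^ k) : ℤ) : ZMod N) = ((u ^ k : (ZMod N)ˣ) : ZMod N) := by
  rw [map_pow, Int.cast_pow, hu, Units.val_pow_eq_pow_val]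

/-- the units which are norms of elements `≡ 1 mod 2` -/
private def drU (K : Type) [Field K] [NumberField K] (N : ℕ) [NeZero N] : Subgroup (ZMod N)ˣ where
  carrier := {u | ∃ γ : 𝓞 K, U2 γ ∧ ((Algebra.norm ℤ γ : ℤ) : ZMod N) = u}
  mul_mem' := by
    rintro u v ⟨γ, h1, h2⟩ ⟨γ', h3, h4⟩
    exact ⟨γ * γ', h1.mul h3, dr_nmul γ γ' u v h2 h4⟩
  one_mem' := ⟨1, U2_one, by simp⟩
  inv_mem' := by
    rintro u ⟨γ, h1, h2⟩
    refine ⟨γ ^ (Fintype.card (ZMod N)ˣ - 1), h1.pow _, ?_⟩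
    rw [dr_npow γ u h2]
    congr 1
    rw [eq_inv_iff_mul_eq_one, ← pow_succ, Nat.sub_add_cancel Fintype.card_pos, pow_card_eq_one]

open Classical in
private noncomputable def drγ (N : ℕ) [NeZero N] (u : drU K N) : 𝓞 K := Classical.choose u.2

private theorem drγ_U2 (N : ℕ) [NeZero N] (u : drU K N) : U2 (drγ N u) := (Classical.choose_spec u.2).1

private theorem drγ_norm (N : ℕ) [NeZero N] (u : drU K N) :
    ((Algebra.norm ℤ (drγ N u) : ℤ) : ZMod N) = (u : (ZMod N)ˣ) := (Classical.choose_spec u.2).2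

private noncomputable def drψ (h : Quad K q δ) (hN : 2 ∣ N) (h0 : N ≠ 0) [NeZero N] (hc : Cls N G cl)
    (χ : G →* ℂˣ) : drU K N →* ℂˣ where
  toFun u := χ (cl (Ideal.span {drγ N u}))
  map_one' := by
    have h1 : cl (Ideal.span {drγ N (1 : drU K N)}) = cl (Ideal.span {(1 : 𝓞 K)}) :=
      dr_eq h hN h0 hc _ _ (drγ_U2 N 1) U2_one 1 (by simpa using drγ_norm N (1 : drU K N)) (by simp)
    rw [h1, Ideal.span_singleton_one, cls_top hc, map_one]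
  map_mul' u v := by
    have h1 : cl (Ideal.span {drγ N (u * v)}) = cl (Ideal.span {drγ N u * drγ N v}) :=
      dr_eq h hN h0 hc _ _ (drγ_U2 N _) ((drγ_U2 N u).mul (drγ_U2 N v)) ((u : (ZMod N)ˣ) * v)
        (by simpa using drγ_norm N (u * v)) (dr_nmul _ _ _ _ (drγ_norm N u) (drγ_norm N v))
    rw [h1, dr_mul h hN h0 hc _ _ _ _ (drγ_norm N u) (drγ_norm N v), map_mul]

theorem real_char (h : Quad K q δ) (hN : 2 ∣ N) (h0 : N ≠ 0) (hc : Cls N G cl) (χ : G →* ℂˣ) (hχ : χ ^ 2 = 1) :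
    ∃ ψ : DirichletCharacter ℂ N, ∀ I : Ideal (𝓞 K), Sm N I →
      ((χ (cl I) : ℂˣ) : ℂ) = ψ ((Ideal.absNorm I : ℕ) : ZMod N) := by
  haveI : NeZero N := ⟨h0⟩
  obtain ⟨e, he, H⟩ := odd_power h hN hc
  obtain ⟨ψ₁, hψ₁⟩ := MonoidHom.domRestrict_surjective (M := ℂ) (drU K N) (drψ h hN h0 hc χ)
  refine ⟨(MulChar.ofUnitHom ψ₁) ^ e, fun I hI => ?_⟩
  obtain ⟨γ, h1, h2⟩ := H I hI
  have hunit : IsUnit ((Ideal.absNorm I : ℕ) : ZMod N) := (ZMod.isUnit_iff_coprime _ _).2 hI.2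
  obtain ⟨u, hu⟩ := hunit
  rw [← hu, MulChar.pow_apply_coe, MulChar.ofUnitHom_coe, ← Units.val_pow_eq_pow_val, ← map_pow]
  have hnu : ((Algebra.norm ℤ γ : ℤ) : ZMod N) = ((u ^ e : (ZMod N)ˣ) : ZMod N) := by
    rw [← norm_gen h γ, ← h2, map_pow, Units.val_pow_eq_pow_val, hu]
    push_cast
    rfl
  have hmem : u ^ e ∈ drU K N := ⟨γ, h1, hnu⟩
  have h3 : ψ₁ (u ^ e) = drψ h hN h0 hc χ ⟨u ^ e, hmem⟩ := by
    rw [← hψ₁]
    rfl
  have h4 : drψ h hN h0 hc χ ⟨u ^ e, hmem⟩ = χ (cl (Ideal.span {γ})) := by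
    change χ (cl (Ideal.span {drγ N ⟨u ^ e, hmem⟩})) = _
    rw [dr_eq h hN h0 hc _ _ (drγ_U2 N _) h1 (u ^ e) (drγ_norm N _) hnu]
  have h5 : χ (cl I) = χ (cl (Ideal.span {γ})) := by
    rw [← h2, cls_pow hc I hI, map_pow]
    obtain ⟨k, rfl⟩ := he
    have h6 : χ (cl I) ^ 2 = 1 := by
      rw [← MonoidHom.pow_apply, hχ, MonoidHom.one_apply]
    rw [pow_succ, pow_mul, h6, one_pow, one_mul]
  rw [h3, h4, h5]

end Pool.Agent.Work.MP_a5099b_nt.PrF
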