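import Pool.Agent.Work.MP_a5099b_nt.I.CConj

set_option autoImplicit false

/-!
# DStab (size M, uses the statements of CInt, CConj): ideals stable under complex conjugation
-/

namespace Pool.Agent.Work.MP_a5099b_nt.PrF

open Finset NumberField

variable {K : Type} [Field K] [NumberField K] {q : ℕ} {δ : 𝓞 K}

/-- the ideal of the coordinates of the elements of `J` at `ω` -/
private def cIdl (J : Ideal (𝓞 K)) (ω : 𝓞 K) : Ideal ℤ where
  carrier := {v | ∃ a : ℤ, (a : 𝓞 K) + (v : 𝓞 K) * ω ∈ J}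
  add_mem' := by
    rintro v w ⟨a, ha⟩ ⟨b, hb⟩
    refine ⟨a + b, ?_⟩
    have := J.add_mem ha hb
    have e : ((a + b : ℤ) : 𝓞 K) + ((v + w : ℤ) : 𝓞 K) * ω = ((a : 𝓞 K) + (v : 𝓞 K) * ω) + ((b : 𝓞 K) + (w : 𝓞 K) * ω) := by
      push_cast; ring
    rw [e]
    exact this
  zero_mem' := ⟨0, by
    have e : ((0 : ℤ) : 𝓞 K) + ((0 : ℤ) : 𝓞 K) * ω = 0 := by push_cast; ring
    rw [e]
    exact J.zero_mem⟩
  smul_mem' := by
    rintro c v ⟨a, ha⟩
    refine ⟨c * a, ?_⟩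
    have := J.mul_mem_left (c : 𝓞 K) ha
    have e : ((c * a : ℤ) : 𝓞 K) + ((c • v : ℤ) : 𝓞 K) * ω = (c : 𝓞 K) * ((a : 𝓞 K) + (v : 𝓞 K) * ω) := by
      rw [smul_eq_mul]; push_cast; ring
    rw [e]
    exact this

theorem stable_ideal (h : Quad K q δ) (J : Ideal (𝓞 K)) (hJ : J ≠ ⊥)
    (hst : J.map (conj h : 𝓞 K →+* 𝓞 K) = J) :
    ∃ d : ℕ, d ≠ 0 ∧ (J = Ideal.span {(d : 𝓞 K)} ∨ J = Ideal.span {(d : 𝓞 K) * δ}) := by
  obtain ⟨ω, hω⟩ := half_mem h 1 1 (by norm_num)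
  have hω' : 2 * ω = 1 + δ := by rw [hω]; push_cast; ring
  have two_ne : (2 : 𝓞 K) ≠ 0 := two_ne_zero
  have hsq := h.sq
  -- q = 4 m - 1
  obtain ⟨m, hm⟩ : ∃ m : ℤ, (q : ℤ) = 4 * m - 1 := ⟨q / 4 + 1, by
    have := h.mod4
    omega⟩
  have hqm : (q : 𝓞 K) = 4 * (m : 𝓞 K) - 1 := by
    exact_mod_cast congrArg (Int.cast (R := 𝓞 K)) hm
  have hω2 : ω * ω = ω - m := by
    apply mul_left_cancel₀ two_ne
    apply mul_left_cancel₀ two_ne
    linear_combination (2 * ω + (1 + δ) - 2) * hω' + hsq - hqm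
  -- coordinates
  have hco : ∀ x : 𝓞 K, ∃ a v : ℤ, x = (a : 𝓞 K) + (v : 𝓞 K) * ω := by
    intro x
    obtain ⟨u, v, hx, c, hc⟩ := coords h x
    refine ⟨c, v, mul_left_cancel₀ two_ne ?_⟩
    have hc' : (u : 𝓞 K) - v = 2 * c := by
      exact_mod_cast congrArg (Int.cast (R := 𝓞 K)) hc
    linear_combination hx + hc' - (v : 𝓞 K) * hω'
  set A := cIdl J ω with hA
  obtain ⟨g, hg⟩ : ∃ g : ℤ, A = Ideal.span {g} := by
    obtain ⟨g, hg⟩ := (IsPrincipalIdealRing.principal A).1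
    exact ⟨g, hg⟩
  have hmem : ∀ v : ℤ, (∃ a : ℤ, (a : 𝓞 K) + (v : 𝓞 K) * ω ∈ J) ↔ g ∣ v := by
    intro v
    rw [← Ideal.mem_span_singleton, ← hg]
    exact Iff.rfl
  have hmulω : ∀ a v : ℤ, (a : 𝓞 K) + (v : 𝓞 K) * ω ∈ J → ((-(v * m) : ℤ) : 𝓞 K) + ((a + v : ℤ) : 𝓞 K) * ω ∈ J := by
    intro a v hav
    have h1 := J.mul_mem_left ω hav
    have e : ω * ((a : 𝓞 K) + (v : 𝓞 K) * ω) = ((-(v * m) : ℤ) : 𝓞 K) + ((a + v : ℤ) : 𝓞 K) * ω := by
      push_cast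
      linear_combination (v : 𝓞 K) * hω2
    rwa [e] at h1
  have hga : ∀ a v : ℤ, (a : 𝓞 K) + (v : 𝓞 K) * ω ∈ J → g ∣ a ∧ g ∣ v := by
    intro a v hav
    have h1 : g ∣ v := (hmem v).1 ⟨a, hav⟩
    have h2 : g ∣ a + v := (hmem (a + v)).1 ⟨_, hmulω a v hav⟩
    exact ⟨(Int.dvd_add_left h1).1 h2, h1⟩
  have hg0 : g ≠ 0 := by
    intro hg0
    apply hJ
    rw [eq_bot_iff]
    intro x hx
    obtain ⟨a, v, rfl⟩ := hco x
    obtain ⟨h1, h2⟩ := hga a v hx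
    rw [hg0, zero_dvd_iff] at h1 h2
    rw [h1, h2]
    simp
  have hle : J ≤ Ideal.span {(g : 𝓞 K)} := by
    intro x hx
    obtain ⟨a, v, rfl⟩ := hco x
    obtain ⟨⟨b, hb⟩, ⟨w, hw⟩⟩ := hga a v hx
    rw [Ideal.mem_span_singleton]
    refine ⟨(b : 𝓞 K) + (w : 𝓞 K) * ω, ?_⟩
    rw [hb, hw]
    push_cast
    ring
  obtain ⟨J', hJ'⟩ := Ideal.dvd_iff_le.2 hle
  have hgK : (g : 𝓞 K) ≠ 0 := by exact_mod_cast hg0
  have hspan0 : Ideal.span {(g : 𝓞 K)} ≠ ⊥ := by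
    rw [Ne, Ideal.span_singleton_eq_bot]
    exact hgK
  have hcg : (Ideal.span {(g : 𝓞 K)}).map (conj h : 𝓞 K →+* 𝓞 K) = Ideal.span {(g : 𝓞 K)} := by
    rw [Ideal.map_span, Set.image_singleton]
    congr 2
    exact map_intCast _ _
  have hst' : J'.map (conj h : 𝓞 K →+* 𝓞 K) = J' := by
    have h1 := hst
    rw [hJ', Ideal.map_mul, hcg] at h1
    exact mul_left_cancel₀ hspan0 h1
  obtain ⟨a, ha⟩ := (hmem g).2 dvd_rfl
  obtain ⟨⟨b, hb⟩, -⟩ := hga a g ha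
  have hx' : (b : 𝓞 K) + ω ∈ J' := by
    rw [hJ', Ideal.mem_span_singleton_mul] at ha
    obtain ⟨z, hz, hz'⟩ := ha
    have : z = (b : 𝓞 K) + ω := by
      apply mul_left_cancel₀ hgK
      rw [hz', hb]
      push_cast
      ring
    rwa [this] at hz
  have hcω : conj h ω = 1 - ω := by
    apply mul_left_cancel₀ two_ne
    have := conj_coords h ω 1 1 hω
    rw [this]
    push_cast
    linear_combination hω'
  have hδ : δ ∈ J' := by
    have h1 : conj h ((b : 𝓞 K) + ω) ∈ J' := by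
      have := Ideal.mem_map_of_mem (conj h : 𝓞 K →+* 𝓞 K) hx'
      rwa [hst'] at this
    have h2 := J'.sub_mem hx' h1
    rw [map_add, map_intCast, hcω] at h2
    have e : (b : 𝓞 K) + ω - ((b : 𝓞 K) + (1 - ω)) = δ := by
      linear_combination hω'
    rwa [e] at h2
  have hle' : Ideal.span {δ} ≤ J' := by
    rw [Ideal.span_singleton_le_iff_mem]
    exact hδ
  obtain ⟨L, hL⟩ := Ideal.dvd_iff_le.2 hle'
  have hnδ : Ideal.absNorm (Ideal.span {δ}) = q := by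
    have h1 := norm_gen h δ
    have h2 := norm_int h 0 1
    have e : ((0 : ℤ) : 𝓞 K) + ((1 : ℤ) : 𝓞 K) * δ = δ := by push_cast; ring
    rw [e] at h2
    rw [h2] at h1
    have : ((Ideal.absNorm (Ideal.span {δ}) : ℕ) : ℤ) = (q : ℤ) := by rw [h1]; ring
    exact_mod_cast this
  have hn : q = Ideal.absNorm J' * Ideal.absNorm L := by
    rw [← map_mul, ← hL, hnδ]
  have hcases : J' = ⊤ ∨ J' = Ideal.span {δ} := by
    rcases (Nat.dvd_prime h.prime).1 ⟨_, hn⟩ with h1 | h1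
    · left
      exact Ideal.absNorm_eq_one_iff.1 h1
    · right
      have h2 : Ideal.absNorm L = 1 := by
        have hq : 0 < q := h.prime.pos
        rw [h1] at hn
        exact (Nat.eq_of_mul_eq_mul_left hq (by rw [mul_one]; exact hn)).symm
      rw [Ideal.absNorm_eq_one_iff] at h2
      rw [hL, h2, Ideal.mul_top]
  have hgabs : Ideal.span {(g : 𝓞 K)} = Ideal.span {((g.natAbs : ℕ) : 𝓞 K)} := by
    rcases Int.natAbs_eq g with h1 | h1
    · conv_lhs => rw [h1]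
      rw [Int.cast_natCast]
    · conv_lhs => rw [h1]
      rw [Int.cast_neg, Ideal.span_singleton_neg, Int.cast_natCast]
  refine ⟨g.natAbs, Int.natAbs_ne_zero.2 hg0, ?_⟩
  rcases hcases with h1 | h1
  · left
    rw [hJ', h1, Ideal.mul_top, hgabs]
  · right
    rw [hJ', h1, hgabs, Ideal.span_singleton_mul_span_singleton]

end Pool.Agent.Work.MP_a5099b_nt.PrF
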