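import Pool.Agent.Work.MP_a5099b_nt.I.AMain
import Pool.Agent.Work.MP_a5099b_nt.I.BConv
import Pool.Agent.Work.MP_a5099b_nt.I.BPrim
import Pool.Agent.Work.MP_a5099b_nt.I.CCnt
import Pool.Agent.Work.MP_a5099b_nt.I.CRel
import Pool.Agent.Work.MP_a5099b_nt.I.DDir

set_option autoImplicit false

/-!
# ECls (assembly): infinitely many prime ideals of degree one in every class
-/

namespace Pool.Agent.Work.MP_a5099b_nt.PrF

open Finset NumberField

variable {K : Type} [Field K] [NumberField K] {q : ℕ} {δ : 𝓞 K} {N : ℕ} {G : Type} [CommGroup G] [Fintype G]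
  {cl : Ideal (𝓞 K) → G}

theorem primes_in_class (h : Quad K q δ) (hN : 2 ∣ N) (hq : q ∣ N) (h0 : N ≠ 0) (hc : Cls N G cl) (g : G) :
    {P : Ideal (𝓞 K) | P.IsPrime ∧ (Ideal.absNorm P).Prime ∧ Sm N P ∧ cl P = g}.Infinite := by
  obtain ⟨κ, C, hκ, hcnt⟩ := cls_count h hN h0 hc
  have hd : Dat (cK N cl) (lK N cl) κ C :=
    { c0 := cK_nonneg N cl
      l0 := lK_nonneg N cl
      one := cK_one N cl hc.mul
      conv := cK_conv N cl hc.mul
      kpos := hκ
      cnt := hcnt }
  exact infinite_primes N cl g fun M =>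
    diverge hd (fun χ h1 h2 => real_nonvanish h hN hq h0 hc hd χ h1 h2) g M

end Pool.Agent.Work.MP_a5099b_nt.PrF
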