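import Pool.Agent.Work.MP_a5099b_nt.I.CConj

set_option autoImplicit false

/-!
# EIdl (size M, uses the statements of CInt, CConj): the ideal of a form

Let `a c - b² = q`, `a > 0` odd, `I₀ = (a, δ - b)`.
PROOF. `I₀ conj I₀ = (a, δ - b)(a, -δ - b)` contains `a²`, `a (δ - b)`, `a (δ + b)`, `b² + q = a c`; it is contained in `(a)` and it contains `a * (a, 2 b, c)`; `gcd (a, 2 b, c) = gcd (a, b, c)` for `a` odd and
`gcd(a,b,c)² ∣ a c - b² = q`, a prime, so it is `1`: hence `I₀ conj I₀ = (a)` and by `map_conj_mul` `absNorm I₀ = a` (two positive integers generating the same ideal are equal).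
`mem_norm`: let `γ ∈ I₀`, `γ ≡ 1 mod 2`, so `γ = u + v δ` with `u, v ∈ ℤ` (`U2_iff`). Claim `a ∣ u + v b`: `γ (δ + b) ∈ I₀ (δ + b) ⊆ (a)` because `a (δ + b) ∈ (a)` and `(δ - b)(δ + b) = -(q + b²) = - a c`. And
`γ (δ + b) = (u b - q v) + (u + v b) δ = a z`; `2 z = s + t δ` (`coords`), so `2 (u + v b) = a t` (`unique`), `a` odd gives `a ∣ u + v b`. Write `u + v b = a x`. Then
`norm γ = u² + q v² = (a x - b v)² + (a c - b²) v² = a (a x² - 2 b x v + c v²)`; take `y = -v`.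
-/

namespace Pool.Agent.Work.MP_a5099b_nt.PrF

open Finset NumberField

variable {K : Type} [Field K] [NumberField K] {q : ℕ} {δ : 𝓞 K}

private theorem bez (q : ℕ) (hq : q.Prime) (a b c : ℤ) (hodd : Odd a) (hd : a * c - b ^ 2 = q) :
    ∃ r s t : ℤ, r * a + s * (2 * b) + t * c = 1 := by
  have hqi : Irreducible (q : ℤ) := (Nat.prime_iff_prime_int.1 hq).irreducible
  have hcop : IsCoprime a ((Int.gcd (2 * b) c : ℕ) : ℤ) := by
    refine isCoprime_of_prime_dvd ?_ ?_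
    · rintro ⟨h1, _⟩
      rw [h1] at hodd
      exact absurd hodd (by decide)
    · intro p hp h1 h2
      have h3 : p ∣ 2 * b := h2.trans (Int.gcd_dvd_left _ _)
      have h4 : p ∣ c := h2.trans (Int.gcd_dvd_right _ _)
      have h5 : p ∣ b := by
        rcases hp.dvd_or_dvd h3 with h6 | h6
        · exfalso
          have h7 : Irreducible (2 : ℤ) := Int.prime_two.irreducible
          have h8 : Associated p 2 := hp.irreducible.associated_of_dvd h7 h6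
          have h9 : (2 : ℤ) ∣ a := h8.symm.dvd.trans h1
          exact (Int.not_even_iff_odd.2 hodd) (even_iff_two_dvd.2 h9)
        · exact h6
      obtain ⟨a', ha'⟩ := h1
      obtain ⟨b', hb'⟩ := h5
      obtain ⟨c', hc'⟩ := h4
      have e : (q : ℤ) = p * (p * (a' * c' - b' ^ 2)) := by
        rw [← hd, ha', hb', hc']
        ring
      rcases hqi.isUnit_or_isUnit e with h6 | h6
      · exact hp.not_isUnit h6
      · exact hp.not_isUnit (isUnit_of_mul_isUnit_left h6)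
  obtain ⟨r, s, hrs⟩ := hcop
  refine ⟨r, s * Int.gcdA (2 * b) c, s * Int.gcdB (2 * b) c, ?_⟩
  rw [Int.gcd_eq_gcd_ab] at hrs
  linear_combination hrs

private theorem sq' (h : Quad K q δ) (a b c : ℤ) (hd : a * c - b ^ 2 = q) :
    δ * δ = (b : 𝓞 K) * b - (a : 𝓞 K) * c := by
  have h1 : ((a * c - b ^ 2 : ℤ) : 𝓞 K) = ((q : ℤ) : 𝓞 K) := by rw [hd]
  push_cast at h1
  rw [h.sq]
  linear_combination h1

private theorem conj_mul_form (h : Quad K q δ) (a b c : ℤ) (hodd : Odd a) (hd : a * c - b ^ 2 = q) :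
    Ideal.span {(a : 𝓞 K), δ - (b : 𝓞 K)} * (Ideal.span {(a : 𝓞 K), δ - (b : 𝓞 K)}).map (conj h : 𝓞 K →+* 𝓞 K) =
      Ideal.span {(a : 𝓞 K)} := by
  have hs := sq' h a b c hd
  have hm : (Ideal.span {(a : 𝓞 K), δ - (b : 𝓞 K)}).map (conj h : 𝓞 K →+* 𝓞 K) =
      Ideal.span {(a : 𝓞 K), -δ - (b : 𝓞 K)} := by
    rw [Ideal.map_span, Set.image_pair]
    congr 2
    · simp
    · simp [conj_δ]
  rw [hm, Ideal.span_pair_mul_span_pair]
  apply le_antisymm
  · rw [Ideal.span_le]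
    intro x hx
    simp only [Set.mem_insert_iff, Set.mem_singleton_iff] at hx
    rw [SetLike.mem_coe, Ideal.mem_span_singleton]
    rcases hx with hx | hx | hx | hx
    · exact ⟨a, hx⟩
    · exact ⟨-δ - b, hx⟩
    · exact ⟨δ - b, by rw [hx, mul_comm]⟩
    · refine ⟨c, ?_⟩
      rw [hx]
      linear_combination -hs
  · rw [Ideal.span_le]
    intro x hx
    rw [Set.mem_singleton_iff] at hx
    subst hx
    rw [SetLike.mem_coe]
    obtain ⟨r, s, t, hrst⟩ := bez q h.prime a b c hodd hd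
    have h1 : ((r * a + s * (2 * b) + t * c : ℤ) : 𝓞 K) = ((1 : ℤ) : 𝓞 K) := by rw [hrst]
    push_cast at h1
    set S : Set (𝓞 K) := {(a : 𝓞 K) * a, (a : 𝓞 K) * (-δ - b), (δ - b) * a, (δ - b) * (-δ - b)} with hS
    have m1 : (a : 𝓞 K) * a ∈ Ideal.span S := Ideal.subset_span (by simp [hS])
    have m2 : (a : 𝓞 K) * (-δ - b) ∈ Ideal.span S := Ideal.subset_span (by simp [hS])
    have m3 : (δ - (b : 𝓞 K)) * a ∈ Ideal.span S := Ideal.subset_span (by simp [hS])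
    have m4 : (δ - (b : 𝓞 K)) * (-δ - b) ∈ Ideal.span S := Ideal.subset_span (by simp [hS])
    have e : (a : 𝓞 K) = (r : 𝓞 K) * ((a : 𝓞 K) * a) + (-(s : 𝓞 K)) * ((a : 𝓞 K) * (-δ - b)) +
        (-(s : 𝓞 K)) * ((δ - b) * a) + (t : 𝓞 K) * ((δ - b) * (-δ - b)) := by
      linear_combination (-(a : 𝓞 K)) * h1 + (t : 𝓞 K) * hs
    have m5 : (r : 𝓞 K) * ((a : 𝓞 K) * a) + (-(s : 𝓞 K)) * ((a : 𝓞 K) * (-δ - b)) +
        (-(s : 𝓞 K)) * ((δ - b) * a) + (t : 𝓞 K) * ((δ - b) * (-δ - b)) ∈ Ideal.span S :=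
      Ideal.add_mem _ (Ideal.add_mem _ (Ideal.add_mem _ (Ideal.mul_mem_left _ _ m1) (Ideal.mul_mem_left _ _ m2))
        (Ideal.mul_mem_left _ _ m3)) (Ideal.mul_mem_left _ _ m4)
    rw [← e] at m5
    exact m5

theorem absNorm_form (h : Quad K q δ) (a b c : ℤ) (ha : 0 < a) (hodd : Odd a) (hd : a * c - b ^ 2 = q) :
    ((Ideal.absNorm (Ideal.span {(a : 𝓞 K), δ - (b : 𝓞 K)}) : ℕ) : ℤ) = a := by
  have h1 := congrArg Ideal.absNorm (conj_mul_form h a b c hodd hd)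
  rw [map_mul, absNorm_conj] at h1
  have h2 : (((Ideal.absNorm (Ideal.span {(a : 𝓞 K)})) : ℕ) : ℤ) = a ^ 2 := by
    rw [norm_gen h]
    have h3 := norm_int h a 0
    simpa using h3
  have h4 : ((Ideal.absNorm (Ideal.span {(a : 𝓞 K), δ - (b : 𝓞 K)}) : ℕ) : ℤ) ^ 2 = a ^ 2 := by
    rw [← h2, ← h1]
    push_cast
    ring
  exact (sq_eq_sq₀ (Int.natCast_nonneg _) ha.le).1 h4

theorem mem_norm (h : Quad K q δ) (a b c : ℤ) (ha : 0 < a) (hodd : Odd a) (hd : a * c - b ^ 2 = q) (γ : 𝓞 K)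
    (hγ : γ ∈ Ideal.span {(a : 𝓞 K), δ - (b : 𝓞 K)}) (h2 : U2 γ) :
    ∃ x y : ℤ, Algebra.norm ℤ γ = a * (a * x ^ 2 + 2 * b * x * y + c * y ^ 2) := by
  have hs := sq' h a b c hd
  obtain ⟨u, v, huv, -⟩ := (U2_iff h γ).1 h2
  obtain ⟨r, s, hrs⟩ := Ideal.mem_span_pair.1 hγ
  obtain ⟨m, n, hmn, -⟩ := coords h (r * (δ + b) - s * c)
  have e1 : ((a * m : ℤ) : 𝓞 K) + ((a * n : ℤ) : 𝓞 K) * δ =
      ((2 * (u * b - q * v) : ℤ) : 𝓞 K) + ((2 * (u + v * b) : ℤ) : 𝓞 K) * δ := by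
    push_cast
    have e2 : (a : 𝓞 K) * (r * (δ + b) - s * c) = ((u : 𝓞 K) + v * δ) * (δ + b) := by
      rw [← huv, ← hrs]
      linear_combination (-s) * hs
    have e3 := h.sq
    linear_combination (-(a : 𝓞 K)) * hmn + 2 * e2 + 2 * (v : 𝓞 K) * e3
  obtain ⟨-, e4⟩ := unique h _ _ _ _ e1
  have h5 : a ∣ 2 * (u + v * b) := ⟨n, e4.symm⟩
  have hc2 : IsCoprime a 2 := by
    obtain ⟨k, hk⟩ := hodd
    exact ⟨1, -k, by rw [hk]; ring⟩
  obtain ⟨x, hx⟩ := hc2.dvd_of_dvd_mul_left h5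
  refine ⟨x, -v, ?_⟩
  rw [huv, norm_int h]
  have hu : u = a * x - v * b := by linear_combination hx
  rw [hu, ← hd]
  ring

end Pool.Agent.Work.MP_a5099b_nt.PrF
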