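import Pool.Agent.Work.MP_a5099b_nt.I.ECore
import Pool.Agent.Work.MP_a5099b_nt.I.EForm

set_option autoImplicit false

/-!
# Fin (assembly, proved from the stubs): primes represented by a form in a residue class
-/

namespace Pool.Agent.Work.MP_a5099b_nt.PrF

/-- forms of determinant `q` -/
theorem primes_even (q : ℕ) (hq : q.Prime) (h3 : q % 4 = 3) (h7 : 7 ≤ q) (N : ℕ) (hN : 2 ∣ N) (hqN : q ∣ N)
    (h0 : N ≠ 0) (a b c : ℤ) (ha : 0 < a) (hd : a * c - b ^ 2 = q) (x₀ y₀ : ℤ)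
    (hc : IsCoprime (a * x₀ ^ 2 + 2 * b * x₀ * y₀ + c * y₀ ^ 2) (N : ℤ)) (B : ℕ) :
    ∃ l : ℕ, B < l ∧ l.Prime ∧ (l : ℤ) ≡ a * x₀ ^ 2 + 2 * b * x₀ * y₀ + c * y₀ ^ 2 [ZMOD (N : ℤ)] ∧
      ∃ x y : ℤ, (l : ℤ) = a * x ^ 2 + 2 * b * x * y + c * y ^ 2 := by
  obtain ⟨a₁, b₁, c₁, h1, h2, h4, h5⟩ := to_first q hq.pos a b c ha hd N (Nat.pos_of_ne_zero h0) x₀ y₀ hc
  have hcop : IsCoprime a₁ (N : ℤ) := by
    obtain ⟨k, hk⟩ := h4.dvd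
    have hk' : a * x₀ ^ 2 + 2 * b * x₀ * y₀ + c * y₀ ^ 2 = a₁ + N * k := by linarith
    rw [hk'] at hc
    exact hc.of_add_mul_left_left
  obtain ⟨l, hl1, hl2, hl3, X, Y, hl4⟩ := core q hq h3 h7 N hN hqN h0 a₁ b₁ c₁ h1 hcop h2 B
  obtain ⟨x, y, hxy⟩ := h5 X Y
  exact ⟨l, hl1, hl2, hl3.trans h4, x, y, by rw [hl4, hxy]⟩

/-- the final theorem of block I -/
theorem primes_form (q : ℕ) (hq : q.Prime) (h3 : q % 4 = 3) (h7 : 7 ≤ q) (a b c : ℤ) (ha : 0 < a)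
    (hD : b ^ 2 - 4 * a * c = -(q : ℤ) ∨ b ^ 2 - 4 * a * c = -4 * (q : ℤ))
    (hprim : ∀ p : ℕ, p.Prime → ¬ ((p : ℤ) ∣ a ∧ (p : ℤ) ∣ b ∧ (p : ℤ) ∣ c)) (N : ℕ) (h0 : 0 < N) (x₀ y₀ : ℤ)
    (hc : IsCoprime (a * x₀ ^ 2 + b * x₀ * y₀ + c * y₀ ^ 2) (N : ℤ)) (B : ℕ) :
    ∃ l : ℕ, B < l ∧ l.Prime ∧ (l : ℤ) ≡ a * x₀ ^ 2 + b * x₀ * y₀ + c * y₀ ^ 2 [ZMOD (N : ℤ)] ∧
      ∃ x y : ℤ, (l : ℤ) = a * x ^ 2 + b * x * y + c * y ^ 2 := by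
  obtain ⟨x₁, y₁, e1, e2, e3⟩ := cop_ext a b c 2 Nat.prime_two (hprim 2 Nat.prime_two) N x₀ y₀ hc
  obtain ⟨x₂, y₂, e4, e5, e6⟩ := cop_ext a b c q hq (hprim q hq) (N * 2) x₁ y₁ e3
  have hdvd : ((N : ℕ) : ℤ) ∣ ((N * 2 : ℕ) : ℤ) := by
    push_cast
    exact Dvd.intro _ rfl
  have f1 : x₂ ≡ x₀ [ZMOD (N : ℤ)] := (e4.of_dvd hdvd).trans e1
  have f2 : y₂ ≡ y₀ [ZMOD (N : ℤ)] := (e5.of_dvd hdvd).trans e2
  have f3 : a * x₂ ^ 2 + b * x₂ * y₂ + c * y₂ ^ 2 ≡ a * x₀ ^ 2 + b * x₀ * y₀ + c * y₀ ^ 2 [ZMOD (N : ℤ)] := by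
    exact ((Int.ModEq.mul_left a (f1.pow 2)).add ((Int.ModEq.mul_left b f1).mul f2)).add
      (Int.ModEq.mul_left c (f2.pow 2))
  have hM2 : 2 ∣ N * 2 * q := Dvd.intro _ (by ring_nf : 2 * (N * q) = N * 2 * q)
  have hMq : q ∣ N * 2 * q := Dvd.intro_left _ rfl
  have hM0 : N * 2 * q ≠ 0 := by
    have := hq.pos
    positivity
  have hMN : ((N : ℕ) : ℤ) ∣ ((N * 2 * q : ℕ) : ℤ) := by
    push_cast
    exact Dvd.intro (2 * (q : ℤ)) (by ring)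
  rcases hD with hD | hD
  · have hodd : Odd (a * x₂ ^ 2 + b * x₂ * y₂ + c * y₂ ^ 2) := by
      rw [← Int.not_even_iff_odd]
      intro hev
      have h2 : (2 : ℤ) ∣ ((N * 2 * q : ℕ) : ℤ) := by exact_mod_cast hM2
      have := e6.isUnit_of_dvd' hev.two_dvd h2
      rw [Int.isUnit_iff] at this
      omega
    obtain ⟨a', b', c', x', y', g1, g2, g3, g4⟩ := to_even q h3 a b c ha hD x₂ y₂ hodd
    rw [← g3] at e6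
    obtain ⟨l, hl1, hl2, hl3, X, Y, hl4⟩ := primes_even q hq h3 h7 (N * 2 * q) hM2 hMq hM0 a' b' c' g1 g2 x' y' e6 B
    obtain ⟨x, y, hxy⟩ := g4 X Y
    refine ⟨l, hl1, hl2, ?_, x, y, by rw [hl4, hxy]⟩
    rw [g3] at hl3
    exact (hl3.of_dvd hMN).trans f3
  · have hb : ∃ b₁ : ℤ, b = 2 * b₁ := by
      have h2 : Even (b ^ 2) := by
        have : b ^ 2 = 2 * (2 * a * c - 2 * (q : ℤ)) := by linarith
        rw [this]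
        exact even_two_mul _
      have h4 : Even b := by
        rcases Int.even_pow.1 h2 with ⟨h5, _⟩
        exact h5
      obtain ⟨r, hr⟩ := h4
      exact ⟨r, by omega⟩
    obtain ⟨b₁, rfl⟩ := hb
    have hd : a * c - b₁ ^ 2 = q := by nlinarith
    obtain ⟨l, hl1, hl2, hl3, X, Y, hl4⟩ := primes_even q hq h3 h7 (N * 2 * q) hM2 hMq hM0 a b₁ c ha hd x₂ y₂ e6 B
    exact ⟨l, hl1, hl2, (hl3.of_dvd hMN).trans f3, X, Y, hl4⟩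

end Pool.Agent.Work.MP_a5099b_nt.PrF
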